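import Pool.Agent.Lib.MP_c7af3c_ag.T2.LC.Defs

/-!
# MP_c7af3c_ag, T2, LEMMA C, module VL (helper64), part 1: linear algebra

* `li_finite`: linear independence is open along polynomial curves;
* `good_finite`: the same for `dim ker ≤ 1`;
* `pure_eval`: a functional which is not `NP` is an evaluation;
* `finrank_line_le`: `dim D_j(z) ≤ j + 1`.
-/

set_option autoImplicit false

namespace Pool.Agent.T2.LC.VL

open MvPolynomial Module

/-! ### Curves (any vector space) -/

section gen

variable {K : Type} [Field K] {V : Type} [AddCommGroup V] [Module K V]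

theorem li_finite {n : ℕ} (d : ℕ) (c : ℕ → Fin n → V) (h : LinearIndependent K (c 0)) :
    {t : K | ¬ LinearIndependent K (fun i => ∑ k ∈ Finset.range (d + 1), t ^ k • c k i)}.Finite := by
  classical
  obtain ⟨g, hg⟩ := LinearMap.exists_leftInverse_of_injective (Finsupp.linearCombination K (c 0))
    (LinearMap.ker_eq_bot.2 h)
  set ψ : V →ₗ[K] (Fin n → K) := (Finsupp.linearEquivFunOnFinite K K (Fin n)).toLinearMap ∘ₗ g with hψ
  have hψ0 : ∀ i, ψ (c 0 i) = Pi.single i 1 := by
    intro i
    have h1 := LinearMap.congr_fun hg (Finsupp.single i 1)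
    rw [LinearMap.comp_apply, Finsupp.linearCombination_single, one_smul, LinearMap.id_apply] at h1
    rw [hψ, LinearMap.comp_apply, h1]
    ext j
    simp [Finsupp.single_apply, Pi.single_apply, eq_comm]
  set P : Matrix (Fin n) (Fin n) (Polynomial K) :=
    Matrix.of fun i j => ∑ k ∈ Finset.range (d + 1), Polynomial.X ^ k * Polynomial.C (ψ (c k i) j) with hPd
  have hev : ∀ t : K, P.map (Polynomial.evalRingHom t) =
      Matrix.of fun i => ψ (∑ k ∈ Finset.range (d + 1), t ^ k • c k i) := by
    intro t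
    ext i j
    simp only [hPd, Matrix.map_apply, Matrix.of_apply, map_sum, Polynomial.coe_evalRingHom, Polynomial.eval_finsetSum,
      Polynomial.eval_mul, Polynomial.eval_pow, Polynomial.eval_X, Polynomial.eval_C, map_smul, Finset.sum_apply,
      Pi.smul_apply, smul_eq_mul]
  have hdet : ∀ t : K, P.det.eval t = (Matrix.of fun i => ψ (∑ k ∈ Finset.range (d + 1), t ^ k • c k i)).det := by
    intro t
    rw [← hev t]
    exact (Polynomial.evalRingHom t).map_det P
  have h0 : P.det.eval 0 = 1 := by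
    rw [hdet]
    have : (Matrix.of fun i => ψ (∑ k ∈ Finset.range (d + 1), (0 : K) ^ k • c k i)) = (1 : Matrix (Fin n) (Fin n) K) := by
      ext i j
      have e : ∑ k ∈ Finset.range (d + 1), (0 : K) ^ k • c k i = c 0 i := by
        rw [Finset.sum_range_succ']
        simp
      rw [Matrix.of_apply, e, hψ0, Matrix.one_apply, Pi.single_apply]
      simp [eq_comm]
    rw [this, Matrix.det_one]
  have hP : P.det ≠ 0 := by
    intro h1
    rw [h1, Polynomial.eval_zero] at h0
    exact zero_ne_one h0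
  refine (P.det.roots.toFinset.finite_toSet).subset ?_
  intro t ht
  rw [Finset.mem_coe, Multiset.mem_toFinset, Polynomial.mem_roots hP, Polynomial.IsRoot.def]
  by_contra h1
  apply ht
  rw [hdet] at h1
  have h2 := Matrix.linearIndependent_rows_of_det_ne_zero h1
  exact LinearIndependent.of_comp ψ h2

theorem ker_add (A : Submodule K V) [FiniteDimensional K A] (f : V →ₗ[K] V) :
    finrank K (A ⊓ LinearMap.ker f : Submodule K V) + finrank K (A.map f) = finrank K A := by
  have h1 := LinearMap.finrank_range_add_finrank_ker (f.domRestrict A)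
  rw [LinearMap.range_domRestrict, LinearMap.ker_domRestrict] at h1
  have h2 : finrank K (A ⊓ LinearMap.ker f : Submodule K V) =
      finrank K (Submodule.comap A.subtype (LinearMap.ker f)) := by
    rw [← Submodule.finrank_map_subtype_eq, Submodule.map_comap_subtype]
  rw [h2, add_comm]
  exact h1

theorem good_finite_gen (A : Submodule K V) [FiniteDimensional K A] (f : ℕ → V →ₗ[K] V) (d : ℕ)
    (h : finrank K (A ⊓ LinearMap.ker (f 0) : Submodule K V) ≤ 1) :
    {t : K | ¬ finrank K (A ⊓ LinearMap.ker (∑ k ∈ Finset.range (d + 1), t ^ k • f k) :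
      Submodule K V) ≤ 1}.Finite := by
  classical
  have e0 := ker_add A (f 0)
  set B := finBasis K (A.map (f 0)) with hB
  have hu : ∀ i, ∃ u ∈ A, f 0 u = B i := fun i => (B i).2
  choose u huA hu using hu
  have hli : LinearIndependent K (fun i => f 0 (u i)) := by
    have h1 := B.linearIndependent.map' (A.map (f 0)).subtype (Submodule.ker_subtype _)
    have h2 : (fun i => f 0 (u i)) = (A.map (f 0)).subtype ∘ B := funext hu
    rw [h2]
    exact h1
  refine (li_finite d (fun k i => f k (u i)) hli).subset ?_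
  intro t ht h1
  apply ht
  have e1 := ker_add A (∑ k ∈ Finset.range (d + 1), t ^ k • f k)
  have h2 : finrank K (A.map (f 0)) ≤ finrank K (A.map (∑ k ∈ Finset.range (d + 1), t ^ k • f k)) := by
    have h3 : ∀ i, (∑ k ∈ Finset.range (d + 1), t ^ k • f k) (u i) ∈ A.map (∑ k ∈ Finset.range (d + 1), t ^ k • f k) :=
      fun i => Submodule.mem_map_of_mem (huA i)
    have h4 : LinearIndependent K (fun i => (⟨_, h3 i⟩ : A.map (∑ k ∈ Finset.range (d + 1), t ^ k • f k))) := by
      apply LinearIndependent.of_comp (A.map (∑ k ∈ Finset.range (d + 1), t ^ k • f k)).subtype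
      have h5 : ((A.map (∑ k ∈ Finset.range (d + 1), t ^ k • f k)).subtype ∘
          fun i => (⟨_, h3 i⟩ : A.map (∑ k ∈ Finset.range (d + 1), t ^ k • f k))) =
          fun i => ∑ k ∈ Finset.range (d + 1), t ^ k • f k (u i) := by
        funext i
        simp [LinearMap.sum_apply]
      rw [h5]
      exact h1
    have h6 := h4.fintype_card_le_finrank
    rwa [Fintype.card_fin] at h6
  omega

theorem finrank_le_card (A : Submodule K V) {ι : Type} [Fintype ι] (φ : V →ₗ[K] (ι → K))
    (h : ∀ a ∈ A, φ a = 0 → a = 0) : FiniteDimensional K A ∧ finrank K A ≤ Fintype.card ι := by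
  have hinj : Function.Injective (φ.domRestrict A) := by
    rw [← LinearMap.ker_eq_bot, LinearMap.ker_eq_bot']
    intro a ha
    exact Subtype.ext (h a a.2 ha)
  have h1 : FiniteDimensional K A := Module.Finite.of_injective _ hinj
  refine ⟨h1, ?_⟩
  have h2 := LinearMap.finrank_le_finrank_of_injective hinj
  rwa [Module.finrank_fintype_fun_eq_card] at h2

theorem one_of_smul {c : K} {x : V} (hx : x ≠ 0) (h : x = c • x) : c = 1 := by
  by_contra h3
  have h4 : (1 - c) • x = 0 := by
    rw [sub_smul, one_smul, ← h, sub_self]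
  rcases smul_eq_zero.1 h4 with h5 | h5
  · exact h3 (sub_eq_zero.1 h5).symm
  · exact hx h5

theorem one_dim (A : Submodule K V) [FiniteDimensional K A] (h : finrank K A ≤ 1) {x y : V} (hx : x ∈ A)
    (hx0 : x ≠ 0) (hy : y ∈ A) : ∃ c : K, y = c • x := by
  have h0 : (⟨x, hx⟩ : A) ≠ 0 := fun h => hx0 (congrArg Subtype.val h)
  have h1 : 0 < finrank K A := Module.finrank_pos_iff_exists_ne_zero.2 ⟨_, h0⟩
  obtain ⟨c, hc⟩ := (finrank_eq_one_iff_of_nonzero' _ h0).1 (show finrank K A = 1 by omega) ⟨y, hy⟩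
  exact ⟨c, (congrArg Subtype.val hc).symm⟩

theorem mem_of_smul (A : Submodule K V) {c : K} {x : V} (hc : c ≠ 0) (h : c • x ∈ A) : x ∈ A :=
  (A.smul_mem_iff hc).1 h

theorem pair_gen {x y : V} (hx : x ≠ 0) (h : ¬ LinearIndependent K ![x, y]) : ∃ a : K, a • x = y := by
  rw [LinearIndependent.pair_iff' hx] at h
  push Not at h
  exact h

theorem span_gen (A : Submodule K V) [FiniteDimensional K A] (s : Set V) (hs : s ⊆ A) :
    ∃ (n : ℕ) (f : Fin n → V), n ≤ finrank K A ∧ (∀ i, f i ∈ s) ∧ s ⊆ Submodule.span K (Set.range f) := by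
  have h1 : Submodule.span K s ≤ A := Submodule.span_le.2 hs
  have h2 : FiniteDimensional K (Submodule.span K s) := Submodule.finiteDimensional_of_le h1
  obtain ⟨f, hf, hsp, -⟩ := Submodule.exists_fun_fin_finrank_span_eq K s
  exact ⟨_, f, Submodule.finrank_mono h1, hf, by rw [hsp]; exact Submodule.subset_span⟩

/-- Independence and dimension. -/
theorem le_of_li (A B : Submodule K V) [FiniteDimensional K B] {n : ℕ} (f : Fin n → V) (hf : LinearIndependent K f)
    (hA : ∀ i, f i ∈ A) (hB : ∀ i, f i ∈ B) (hn : finrank K B ≤ n) : B ≤ A := by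
  have h1 : Submodule.span K (Set.range f) ≤ B := Submodule.span_le.2 (by rintro _ ⟨i, rfl⟩; exact hB i)
  have h2 : Submodule.span K (Set.range f) = B := by
    apply Submodule.eq_of_le_of_finrank_le h1
    rw [finrank_span_eq_card hf, Fintype.card_fin]
    exact hn
  rw [← h2]
  exact Submodule.span_le.2 (by rintro _ ⟨i, rfl⟩; exact hA i)

theorem ortho (u w : Fin 3 → K) : ∃ z : Fin 3 → K, z ≠ 0 ∧ ∑ i, z i * u i = 0 ∧ ∑ i, z i * w i = 0 := by
  have h1 : LinearMap.ker (Matrix.mulVecLin (Matrix.of ![u, w])) ≠ ⊥ := by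
    apply LinearMap.ker_ne_bot_of_finrank_lt
    simp
  obtain ⟨z, hz, hz0⟩ := (Submodule.ne_bot_iff _).1 h1
  refine ⟨z, hz0, ?_, ?_⟩
  · have := congrFun (LinearMap.mem_ker.1 hz) 0
    simpa [Matrix.mulVec, dotProduct, mul_comm] using this
  · have := congrFun (LinearMap.mem_ker.1 hz) 1
    simpa [Matrix.mulVec, dotProduct, mul_comm] using this

end gen

/-! ### Functionals -/

section functionals

variable {K : Type} [Field K]

theorem ct_apply (p g : MvPolynomial (Fin 3) K) (θ : D K) : ct p θ g = θ (p * g) := rfl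

theorem lf_apply (l : Fin 3 → K) : lf l = ∑ i, l i • (X i : MvPolynomial (Fin 3) K) := by
  simp [lf]

theorem lf_single (i : Fin 3) : lf (Pi.single i 1) = (X i : MvPolynomial (Fin 3) K) := by
  rw [lf_apply, Finset.sum_eq_single i]
  · simp
  · intro b _ hb
    simp [hb]
  · simp

theorem eval_lf (l v : Fin 3 → K) : eval v (lf l) = ∑ i, l i * v i := by
  rw [lf_apply]
  simp [smul_eval]

theorem lf_hom (l : Fin 3 → K) : (lf l).IsHomogeneous 1 := by
  rw [lf_apply]
  apply IsHomogeneous.sum
  intro i _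
  rw [MvPolynomial.smul_eq_C_mul]
  simpa using (isHomogeneous_C (Fin 3) (l i)).mul (isHomogeneous_X K i)

theorem ct_lf_sum (c : ℕ → Fin 3 → K) (d : ℕ) (t : K) :
    ct (lf (∑ k ∈ Finset.range (d + 1), t ^ k • c k)) = ∑ k ∈ Finset.range (d + 1), t ^ k • ct (lf (c k)) := by
  apply LinearMap.ext
  intro θ
  apply LinearMap.ext
  intro g
  rw [ct_apply, map_sum, Finset.sum_mul, map_sum, LinearMap.sum_apply, LinearMap.sum_apply]
  refine Finset.sum_congr rfl fun k _ => ?_
  rw [map_smul, smul_mul_assoc, map_smul]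
  rfl

theorem dual_ext {θ : D K} (h : ∀ m : Fin 3 →₀ ℕ, θ (monomial m 1) = 0) : θ = 0 := by
  apply (basisMonomials (Fin 3) K).ext
  intro m
  rw [coe_basisMonomials]
  exact h m

theorem mon_split (m : Fin 3 →₀ ℕ) (i : Fin 3) (h : m i ≠ 0) :
    ∃ m' : Fin 3 →₀ ℕ, m = Finsupp.single i 1 + m' ∧ m'.degree + 1 = m.degree ∧
      (monomial m (1 : K)) = X i * monomial m' 1 := by
  have h1 : Finsupp.single i 1 ≤ m := by
    rw [Finsupp.single_le_iff]; omega
  obtain ⟨m', rfl⟩ := exists_add_of_le h1
  refine ⟨m', rfl, ?_, ?_⟩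
  · rw [map_add, Finsupp.degree_single]; ring
  · rw [MvPolynomial.X, monomial_mul, one_mul]

theorem exists_ct_ne {j : ℕ} (hj : 1 ≤ j) {y : D K} (hy : y ∈ Dj j) (h0 : y ≠ 0) :
    ∃ a : Fin 3 → K, ct (lf a) y ≠ 0 := by
  by_contra hcon
  push Not at hcon
  apply h0
  apply dual_ext
  intro m
  by_cases hm : m.degree = j
  · have h1 : ∃ i, m i ≠ 0 := by
      by_contra h2
      push Not at h2
      have : m = 0 := Finsupp.ext h2
      rw [this, map_zero] at hm
      omega
    obtain ⟨i, hi⟩ := h1
    obtain ⟨m', -, -, e⟩ := mon_split (K := K) m i hi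
    rw [e, ← ct_apply, ← lf_single, hcon]
    rfl
  · exact hy m hm

/-- Evaluation of the part of degree `j`. -/
noncomputable def ev (j : ℕ) (v : Fin 3 → K) : D K :=
  (aeval v : MvPolynomial (Fin 3) K →ₐ[K] K).toLinearMap ∘ₗ homogeneousComponent j

theorem ev_hom {j : ℕ} (v : Fin 3 → K) {p : MvPolynomial (Fin 3) K} (hp : p.IsHomogeneous j) :
    ev j v p = eval v p := by
  rw [ev, LinearMap.comp_apply, homogeneousComponent_of_mem hp, if_pos rfl]
  rfl

theorem ev_mem (j : ℕ) (v : Fin 3 → K) : ev j v ∈ Dj j := by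
  intro m hm
  rw [ev, LinearMap.comp_apply, homogeneousComponent_of_mem (isHomogeneous_monomial (1 : K) rfl),
    if_neg (Ne.symm hm), map_zero]

theorem ev_hom_ne {j n : ℕ} (v : Fin 3 → K) {p : MvPolynomial (Fin 3) K} (hp : p.IsHomogeneous n) (h : n ≠ j) :
    ev j v p = 0 := by
  rw [ev, LinearMap.comp_apply, homogeneousComponent_of_mem hp, if_neg (Ne.symm h), map_zero]

theorem ct_ev {j : ℕ} (z v : Fin 3 → K) (h : ∑ i, z i * v i = 0) : ct (lf z) (ev j v) = 0 := by
  apply dual_ext
  intro m
  have h1 : (lf z * monomial m (1 : K)).IsHomogeneous (1 + m.degree) :=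
    (lf_hom z).mul (isHomogeneous_monomial (1 : K) rfl)
  rw [ct_apply]
  by_cases h2 : 1 + m.degree = j
  · rw [h2] at h1
    rw [ev_hom v h1, map_mul, eval_lf, h, zero_mul]
  · exact ev_hom_ne v h1 h2

theorem eval_mon (v : Fin 3 → K) (m : Fin 3 →₀ ℕ) : eval v (monomial m (1 : K)) = ∏ i, v i ^ m i := by
  rw [eval_monomial, one_mul, Finsupp.prod_fintype]
  intro i; exact pow_zero _

theorem pure_eval {j : ℕ} (hj : 1 ≤ j) {y : D K} (hy : y ∈ Dj j) (h0 : y ≠ 0) (hp : ¬ NP y) :
    ∃ (v : Fin 3 → K) (c : K), v ≠ 0 ∧ c ≠ 0 ∧ y = c • ev j v ∧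
      ∀ l : Fin 3 → K, ct (lf l) y = 0 → ∑ i, l i * v i = 0 := by
  obtain ⟨a, ha⟩ := exists_ct_ne hj hy h0
  have h1 : ∀ b : Fin 3 → K, ∃ μ : K, μ • ct (lf a) y = ct (lf b) y := by
    intro b
    apply pair_gen ha
    intro h
    exact hp ⟨a, b, h⟩
  choose μ hμ using h1
  set v : Fin 3 → K := fun i => μ (Pi.single i 1) with hv
  have hX : ∀ i, ct (X i) y = v i • ct (lf a) y := by
    intro i
    rw [hv, hμ, lf_single]
  have hl : ∀ l : Fin 3 → K, ct (lf l) y = (∑ i, l i * v i) • ct (lf a) y := by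
    intro l
    apply LinearMap.ext
    intro g
    rw [ct_apply, lf_apply, Finset.sum_mul, map_sum, Finset.sum_smul, LinearMap.sum_apply]
    refine Finset.sum_congr rfl fun i _ => ?_
    rw [smul_mul_assoc, map_smul, ← ct_apply, hX, mul_smul]
    rfl
  have hav : ∑ i, a i * v i = 1 := one_of_smul ha (hl a)
  have hmon : ∀ (n : ℕ) (m : Fin 3 →₀ ℕ), m.degree = n → ∀ q : MvPolynomial (Fin 3) K,
      y (monomial m 1 * q) = (∏ i, v i ^ m i) * y (lf a ^ n * q) := by
    intro n
    induction n with
    | zero =>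
      intro m hm q
      have : m = 0 := by
        rw [← Finsupp.degree_eq_zero_iff]; exact hm
      subst this
      simp
    | succ n ih =>
      intro m hm q
      have h2 : ∃ i, m i ≠ 0 := by
        by_contra h2
        push Not at h2
        have : m = 0 := Finsupp.ext h2
        rw [this, map_zero] at hm
        omega
      obtain ⟨i, hi⟩ := h2
      obtain ⟨m', e1, e2, e3⟩ := mon_split (K := K) m i hi
      have e4 : y (monomial m 1 * q) = v i * y (monomial m' 1 * (lf a * q)) := by
        rw [e3, mul_assoc, ← ct_apply, hX]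
        show v i * y (lf a * (monomial m' 1 * q)) = _
        rw [← mul_assoc, mul_comm (lf a), mul_assoc]
      rw [e4, ih m' (by omega), pow_succ, mul_assoc (lf a ^ n), ← mul_assoc]
      congr 1
      rw [e1]
      simp only [Finsupp.add_apply, pow_add, Finset.prod_mul_distrib]
      congr 1
      rw [Finset.prod_eq_single i]
      · simp
      · intro b _ hb
        simp [Ne.symm hb]
      · simp
  have hy2 : y = y (lf a ^ j) • ev j v := by
    rw [← sub_eq_zero]
    apply dual_ext
    intro m
    by_cases hm : m.degree = j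
    · have h2 := hmon j m hm 1
      rw [mul_one, mul_one] at h2
      show y (monomial m 1) - y (lf a ^ j) * ev j v (monomial m 1) = 0
      rw [h2, ev_hom v (isHomogeneous_monomial (1 : K) hm), eval_mon]
      ring
    · show y (monomial m 1) - y (lf a ^ j) * ev j v (monomial m 1) = 0
      rw [hy m hm, ev_mem j v m hm]
      ring
  refine ⟨v, y (lf a ^ j), ?_, ?_, hy2, fun l hl0 => ?_⟩
  · rintro hv0
    rw [hv0] at hav
    simp at hav
  · intro h2
    rw [h2, zero_smul] at hy2
    exact h0 hy2
  · rw [hl] at hl0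
    exact (smul_eq_zero.1 hl0).resolve_right ha

theorem fin_Dj (j : ℕ) : FiniteDimensional K (Dj j : Submodule K (D K)) := by
  refine (finrank_le_card (Dj j : Submodule K (D K)) (ι := Fin (j + 1) × Fin (j + 1) × Fin (j + 1))
    (LinearMap.pi fun x => LinearMap.applyₗ
      (monomial (Finsupp.single (0 : Fin 3) (x.1 : ℕ) + Finsupp.single 1 (x.2.1 : ℕ) + Finsupp.single 2 (x.2.2 : ℕ))
        (1 : K))) ?_).1
  intro θ hθ h
  apply dual_ext
  intro m
  by_cases hm : m.degree = j
  · have hd : m 0 + m 1 + m 2 = j := by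
      rw [← hm, Finsupp.degree_eq_sum, Fin.sum_univ_three]
    have h1 := congrFun h (⟨m 0, by omega⟩, ⟨m 1, by omega⟩, ⟨m 2, by omega⟩)
    have h2 : Finsupp.single 0 (m 0) + Finsupp.single 1 (m 1) + Finsupp.single 2 (m 2) = m := by
      ext i
      fin_cases i <;> simp
    simp only [LinearMap.pi_apply, LinearMap.applyₗ_apply_apply, h2, Pi.zero_apply] at h1
    exact h1
  · exact hθ m hm

theorem finrank_line_le (j : ℕ) (z : Fin 3 → K) (hz : z ≠ 0) :
    finrank K (Dj j ⊓ LinearMap.ker (ct (lf z)) : Submodule K (D K)) ≤ j + 1 := by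
  obtain ⟨i, hi⟩ : ∃ i, z i ≠ 0 := by
    by_contra h
    push Not at h
    exact hz (funext h)
  have h12 : i ≠ i + 1 ∧ i ≠ i + 2 ∧ i + 1 ≠ i + 2 := by
    fin_cases i <;> simp
  refine (finrank_le_card (Dj j ⊓ LinearMap.ker (ct (lf z)) : Submodule K (D K)) (ι := Fin (j + 1))
    (LinearMap.pi fun x => LinearMap.applyₗ
      (monomial (Finsupp.single (i + 1) (x : ℕ) + Finsupp.single (i + 2) (j - x : ℕ)) 1)) ?_).2.trans
    (by rw [Fintype.card_fin])
  rintro θ ⟨hθ, hk⟩ h
  apply dual_ext
  have hsum : ∀ m : Fin 3 →₀ ℕ, m.degree = m i + m (i + 1) + m (i + 2) := by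
    intro m
    rw [Finsupp.degree_eq_sum, Fin.sum_univ_three]
    fin_cases i <;> simp <;> ring
  have key : ∀ (n : ℕ) (m : Fin 3 →₀ ℕ), m i = n → m.degree = j → θ (monomial m 1) = 0 := by
    intro n
    induction n with
    | zero =>
      intro m h0 hm
      have h3 := hsum m
      have h1 := congrFun h ⟨m (i + 1), by omega⟩
      have h2 : Finsupp.single (i + 1) (m (i + 1)) + Finsupp.single (i + 2) (j - m (i + 1)) = m := by
        have h4 : j - m (i + 1) = m (i + 2) := by omega
        rw [h4]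
        ext k
        have hk3 : k = i ∨ k = i + 1 ∨ k = i + 2 := by
          fin_cases i <;> fin_cases k <;> simp
        rcases hk3 with rfl | rfl | rfl
        · simp [h0]
        · simp
        · simp
      simp only [LinearMap.pi_apply, LinearMap.applyₗ_apply_apply, h2, Pi.zero_apply] at h1
      exact h1
    | succ n ih =>
      intro m h0 hm
      obtain ⟨m', e1, e2, e3⟩ := mon_split (K := K) m i (by omega)
      have h1 : θ (lf z * monomial m' 1) = 0 := by
        rw [← ct_apply, LinearMap.mem_ker.1 hk]; rfl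
      rw [lf_apply, Finset.sum_mul, map_sum, Finset.sum_eq_single i] at h1
      · rw [smul_mul_assoc, map_smul, ← e3] at h1
        exact (mul_eq_zero.1 h1).resolve_left hi
      · intro k _ hki
        rw [smul_mul_assoc, map_smul, MvPolynomial.X, monomial_mul, one_mul]
        rw [ih, smul_zero]
        · have : m i = 1 + m' i := by rw [e1]; simp
          rw [Finsupp.add_apply, Finsupp.single_apply, if_neg hki]
          omega
        · rw [map_add, Finsupp.degree_single]; omega
      · simp
  intro m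
  by_cases hm : m.degree = j
  · exact key _ m rfl hm
  · exact hθ m hm

end functionals

end Pool.Agent.T2.LC.VL
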