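import Pool.Agent.Lib.MP_c7af3c_ag.T2.LC.Lines
import Pool.Agent.Lib.MP_c7af3c_ag.T2.LC.VLa

/-!
# MP_c7af3c_ag, T2, LEMMA C, module AB (helper35): cases (a) and (b)
-/

set_option autoImplicit false

namespace Pool.Agent.T2.LC.AB

open MvPolynomial Module

section gen
variable {K : Type} [Field K] {E V : Type} [AddCommGroup E] [Module K E] [AddCommGroup V]
  [Module K V]

/-- the rank is lower semicontinuous along lines -/
theorem rank_open (φ : E →ₗ[K] V →ₗ[K] V) (U : Submodule K V) [FiniteDimensional K U] (r : ℕ) :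
    LOpen (K := K) (fun l => r ≤ finrank K (U.map (φ l))) := by
  intro a b h
  set B := finBasis K (U.map (φ a)) with hB
  have hu : ∀ i : Fin r, ∃ u ∈ U, φ a u = B (Fin.castLE h i) := fun i => (B (Fin.castLE h i)).2
  choose u huU hu using hu
  have hli : LinearIndependent K (fun i => φ a (u i)) := by
    have h1 := (B.linearIndependent.map' (U.map (φ a)).subtype (Submodule.ker_subtype _)).comp
      (Fin.castLE h) (Fin.castLE_injective h)
    have h2 : (fun i => φ a (u i)) = ((U.map (φ a)).subtype ∘ B) ∘ Fin.castLE h := funext hu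
    rw [h2]
    exact h1
  have hop := li_open (K := K) (v := fun (i : Fin r) (t : K) => φ (a + t • b) (u i)) (t₀ := 0)
    (fun i => by
      have h3 := PF.line (K := K) (φ a (u i)) (φ b (u i))
      have h4 : (fun t : K => φ (a + t • b) (u i)) =
          fun t : K => φ a (u i) + t • φ b (u i) := by
        funext t
        rw [map_add, map_smul, LinearMap.add_apply, LinearMap.smul_apply]
      rw [h4]
      exact h3)
    (by
      have h4 : (fun i => φ (a + (0 : K) • b) (u i)) = fun i => φ a (u i) := by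
        funext i
        rw [zero_smul, add_zero]
      rw [h4]
      exact hli)
  refine hop.subset fun t ht h5 => ht ?_
  have h6 : ∀ i, φ (a + t • b) (u i) ∈ U.map (φ (a + t • b)) := fun i =>
    Submodule.mem_map_of_mem (huU i)
  have h7 : LinearIndependent K (fun i => (⟨_, h6 i⟩ : U.map (φ (a + t • b)))) :=
    LinearIndependent.of_comp (U.map (φ (a + t • b))).subtype h5
  have h8 := h7.fintype_card_le_finrank
  rwa [Fintype.card_fin] at h8

theorem map_finrank_of_inj (U : Submodule K V) (f : V →ₗ[K] V) (h : ∀ x ∈ U, f x = 0 → x = 0) :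
    finrank K (U.map f) = finrank K U := by
  refine (LinearEquiv.finrank_eq (LinearEquiv.ofBijective (f.submoduleMap U) ⟨?_,
    LinearMap.submoduleMap_surjective f U⟩)).symm
  rw [← LinearMap.ker_eq_bot, LinearMap.ker_eq_bot']
  intro x hx
  exact Subtype.ext (h x x.2 (congrArg Subtype.val hx))

theorem inj_of_finrank (U : Submodule K V) [FiniteDimensional K U] (f : V →ₗ[K] V)
    (h : finrank K U ≤ finrank K (U.map f)) : ∀ x ∈ U, f x = 0 → x = 0 := by
  have h1 := VL.ker_add U f
  have h2 : finrank K (U ⊓ LinearMap.ker f : Submodule K V) = 0 := by omega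
  have h4 : FiniteDimensional K (U ⊓ LinearMap.ker f : Submodule K V) :=
    Submodule.finiteDimensional_inf_left _ _
  have h3 := Submodule.finrank_eq_zero.1 h2
  intro x hx hfx
  have h5 : x ∈ U ⊓ LinearMap.ker f := ⟨hx, hfx⟩
  rw [h3] at h5
  exact (Submodule.mem_bot K).1 h5

/-- the rank on `U` and the rank on the image -/
theorem finrank_sub (U W : Submodule K V) [FiniteDimensional K U] (f g : V →ₗ[K] V)
    (hW : W ≤ U.map f) (hg : ∀ x ∈ W, g x = 0) :
    finrank K (U.map (g ∘ₗ f)) + finrank K W ≤ finrank K U := by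
  rw [Submodule.map_comp]
  have h1 := VL.ker_add (U.map f) g
  have h2 : finrank K (U.map f) ≤ finrank K U := Submodule.finrank_map_le f U
  have h4 : FiniteDimensional K ((U.map f) ⊓ LinearMap.ker g : Submodule K V) :=
    Submodule.finiteDimensional_inf_left _ _
  have h3 : finrank K W ≤ finrank K ((U.map f) ⊓ LinearMap.ker g : Submodule K V) :=
    Submodule.finrank_mono (le_inf hW fun x hx => hg x hx)
  omega

end gen

section main
variable {K : Type} [Field K]

theorem li_lopen {a : Fin 3 → K} : LOpen (K := K) (fun l => LinearIndependent K ![a, l]) := by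
  intro x y h
  have h1 := li_open (K := K) (v := fun (i : Fin 2) (t : K) => (![a, x + t • y] : Fin 2 → _) i)
    (t₀ := 0) (fun i => by
      fin_cases i
      · exact PF.const a
      · exact PF.line x y) (by
      rw [zero_smul, add_zero]
      exact h)
  exact h1

theorem inj_iff (U : Submodule K (D K)) [FiniteDimensional K U] (l : Fin 3 → K) :
    Inj U (lf l) ↔ finrank K U ≤ finrank K (U.map (ct (lf l))) :=
  ⟨fun h => (map_finrank_of_inj U (ct (lf l)) h).ge, fun h => inj_of_finrank U (ct (lf l)) h⟩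

theorem inj_lopen (U : Submodule K (D K)) [FiniteDimensional K U] :
    LOpen (K := K) (fun l => Inj U (lf l)) := by
  have h := rank_open (ctB ∘ₗ lf : (Fin 3 → K) →ₗ[K] D K →ₗ[K] D K) U (finrank K U)
  have e : (fun l => Inj U (lf l)) = fun l => finrank K U ≤ finrank K (U.map
      ((ctB ∘ₗ lf : (Fin 3 → K) →ₗ[K] D K →ₗ[K] D K) l)) := by
    funext l
    exact propext (inj_iff U l)
  rw [e]
  exact h

theorem rank_lopen (U : Submodule K (D K)) [FiniteDimensional K U] (z : Fin 3 → K) (r : ℕ) :
    LOpen (K := K) (fun l => r ≤ finrank K (U.map (ct (lf z * lf l)))) :=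
  rank_open (ctB ∘ₗ LinearMap.mulLeft K (lf z) ∘ₗ lf : (Fin 3 → K) →ₗ[K] D K →ₗ[K] D K) U r

theorem DZ_of_not_li {j : ℕ} {z z' : Fin 3 → K} (hz : z ≠ 0) (hz' : z' ≠ 0)
    (h : ¬ LinearIndependent K ![z, z']) : DZ j z = DZ j z' := by
  obtain ⟨c, rfl⟩ := li_not hz h
  have hc : c ≠ 0 := by
    rintro rfl
    exact hz' (zero_smul _ _)
  ext θ
  rw [mem_DZ, mem_DZ, map_smul, ct_smul]
  exact and_congr_right fun _ => (smul_eq_zero_iff_right hc).symm

end main

/-- Module AB. -/
theorem ab : ABS := by
  intro _ k2 vl K _ _ U hU hdim h4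
  have hfU : FiniteDimensional K U := fd_of_le hU
  by_contra hcon
  push Not at hcon
  -- (a)
  obtain ⟨l0, hl0⟩ : ∃ l : Fin 3 → K, Inj U (lf l) := by
    by_contra h
    push Not at h
    rcases vl K 6 (by norm_num) U hU h (by omega) with ⟨z, hz, hle⟩ | ⟨h1, -⟩
    · have h5 : finrank K (DZ 6 z) ≤ finrank K (U ⊓ LinearMap.ker (ct (lf z)) :
          Submodule K (D K)) := by
        have : FiniteDimensional K (U ⊓ LinearMap.ker (ct (lf z)) : Submodule K (D K)) :=
          fd_of_le (inf_le_left.trans hU)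
        exact Submodule.finrank_mono (le_inf hle inf_le_right)
      have h6 := h4 z hz
      rw [finrank_DZ 6 hz] at h5
      omega
    · omega
  -- (b)
  have key : ∀ l : Fin 3 → K, Inj U (lf l) → ∃ z : Fin 3 → K, z ≠ 0 ∧
      DZ 5 z ≤ U.map (ct (lf l)) := by
    intro l hl
    have h1 : U.map (ct (lf l)) ≤ Dj 5 := map_lf_le l hU
    have h2 : finrank K (U.map (ct (lf l))) = 8 := by
      rw [← hdim]
      exact map_finrank_of_inj U (ct (lf l)) hl
    have h3 : ∀ l', ¬ Inj (U.map (ct (lf l))) (lf l') := by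
      intro l' hl'
      apply hcon l l'
      intro θ hθ h0
      rw [mul_comm, ct_mul] at h0
      exact hl θ hθ (hl' _ (Submodule.mem_map_of_mem hθ) h0)
    rcases vl K 5 (by norm_num) _ h1 h3 (by omega) with ⟨z, hz, hle⟩ | ⟨h, -⟩
    · exact ⟨z, hz, hle⟩
    · omega
  choose! z hz0 hz using key
  -- the rank of `z l`
  have hP : ∀ z' l : Fin 3 → K, z' ≠ 0 → DZ 5 z' ≤ U.map (ct (lf l)) →
      finrank K (U.map (ct (lf z' * lf l))) ≤ 2 := by
    intro z' l hz' hle
    have h1 := finrank_sub U (DZ 5 z') (ct (lf l)) (ct (lf z')) hle fun x hx => hx.2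
    rw [← ct_mul', finrank_DZ 5 hz', hdim] at h1
    omega
  -- two lines
  have two : ∀ l l' : Fin 3 → K, Inj U (lf l) → Inj U (lf l') →
      LinearIndependent K ![z l, z l'] → LinearIndependent K ![z l, l'] →
      ¬ LinearIndependent K ![z l', l] := by
    intro l l' hl hl' h1 h2 h3
    have e1 : DZ 4 (z l) ≤ U.map (ct (lf l * lf l')) := by
      rw [← DZ_map h2, mul_comm, ct_mul', Submodule.map_comp]
      exact Submodule.map_mono (hz l hl)
    have e2 : DZ 4 (z l') ≤ U.map (ct (lf l * lf l')) := by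
      rw [← DZ_map h3, ct_mul', Submodule.map_comp]
      exact Submodule.map_mono (hz l' hl')
    have e3 := finrank_DZ_sup (j := 4) h1
    have e4 : finrank K (U.map (ct (lf l * lf l'))) ≤ finrank K U := Submodule.finrank_map_le _ U
    have e5 : finrank K (DZ 4 (z l) ⊔ DZ 4 (z l') : Submodule K (D K)) ≤
        finrank K (U.map (ct (lf l * lf l'))) := Submodule.finrank_mono (sup_le e1 e2)
    omega
  -- a second base line
  obtain ⟨l1, hl1, hl01⟩ : ∃ l, Inj U (lf l) ∧ LinearIndependent K ![l0, l] := by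
    have hl00 : l0 ≠ 0 := by
      rintro rfl
      have h5 : U = ⊥ := by
        rw [eq_bot_iff]
        intro θ hθ
        rw [Submodule.mem_bot]
        refine hl0 θ hθ ?_
        rw [map_zero, ct_zero]
      rw [h5, finrank_bot] at hdim
      omega
    exact (inj_lopen U).exists_and li_lopen ⟨l0, hl0⟩ (exists_second hl00)
  have hz00 := hz0 l0 hl0
  have hz10 := hz0 l1 hl1
  -- one of the two lines is good for all `l`
  obtain ⟨y, hy, hy2⟩ : ∃ y : Fin 3 → K, y ≠ 0 ∧
      ∀ l, finrank K (U.map (ct (lf y * lf l))) ≤ 2 := by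
    by_contra hno
    push Not at hno
    have f0 := hno (z l0) hz00
    have f1 := hno (z l1) hz10
    have P1 := (inj_lopen U).and (li_lopen (a := z l0))
    have P2 := P1.and (li_lopen (a := z l1))
    have P3 := P2.and (rank_lopen U (z l0) 3)
    have N1 := (inj_lopen U).exists_and (li_lopen (a := z l0)) ⟨l0, hl0⟩ (exists_second hz00)
    have N2 := P1.exists_and (li_lopen (a := z l1)) N1 (exists_second hz10)
    have N3 := P2.exists_and (rank_lopen U (z l0) 3) N2 f0
    obtain ⟨l, ⟨⟨⟨g1, g2⟩, g3⟩, g4⟩, g5⟩ := P3.exists_and (rank_lopen U (z l1) 3) N3 f1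
    have i0 : LinearIndependent K ![z l0, z l] := by
      by_contra hni
      have := hP (z l0) l hz00 (by
        rw [DZ_of_not_li hz00 (hz0 l g1) hni]
        exact hz l g1)
      omega
    have i1 : LinearIndependent K ![z l1, z l] := by
      by_contra hni
      have := hP (z l1) l hz10 (by
        rw [DZ_of_not_li hz10 (hz0 l g1) hni]
        exact hz l g1)
      omega
    obtain ⟨c0, e0⟩ := li_not (hz0 l g1) (two l0 l hl0 g1 i0 g2)
    obtain ⟨c1, e1⟩ := li_not (hz0 l g1) (two l1 l hl1 g1 i1 g3)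
    have hc1 : c1 ≠ 0 := by
      rintro rfl
      rw [zero_smul] at e1
      exact (hl01.ne_zero 1) e1
    have := hl01
    rw [LinearIndependent.pair_iff] at this
    have h9 := this c1 (-c0) (by
      rw [e0, e1]
      module)
    exact hc1 h9.1
  -- the contradiction
  have hE : U.map (ct (lf y)) ≤ Dj 5 := map_lf_le y hU
  have hfE : FiniteDimensional K (U.map (ct (lf y))) := fd_of_le hE
  have h5 := VL.ker_add U (ct (lf y))
  have h6 := h4 y hy
  have h7 := k2 K 5 (by norm_num) (U.map (ct (lf y))) hE fun l => by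
    have h8 := VL.ker_add (U.map (ct (lf y))) (ct (lf l))
    rw [← Submodule.map_comp, ← ct_mul', mul_comm] at h8
    have h9 := hy2 l
    omega
  have h10 : finrank K (U.map (ct (lf y))) ≤ finrank K U := Submodule.finrank_map_le _ U
  omega

end Pool.Agent.T2.LC.AB
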