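import Pool.Agent.Lib.MP_c7af3c_ag.T2.LC.C1b

/-!
# LEMMA C: assembly of C12S from its three parts (helper13)
-/

set_option autoImplicit false

namespace Pool.Agent.T2.LC

open MvPolynomial Module

theorem c12_of (hfive : FiveS) (hend : End5S) : C12S := by
  intro k1 k2 vl K _ _ U hU h8 h4 h3 hex
  have hfd : FiniteDimensional K U := fd_of_le hU
  have hc1 := c1s k1 k2 K U hU h8 h4 h3 hex
  push Not at hc1
  obtain ⟨a, b, hJ, hz⟩ := hc1
  have hr := rank2 h8 hJ
  rcases vl K 4 (by norm_num) (U.map (ct (lf a * lf b))) (map2_le hU a b) (by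
    intro l hl
    apply h3 a b l
    intro θ hθ h0
    refine hJ θ hθ (hl _ (mem_map_of hθ _) ?_)
    rw [← ct_mul, mul_comm]; exact h0) (by omega) with ⟨z, hz0, hzle⟩ | ⟨_, l, y, hker, hnp⟩
  · exact absurd hzle (hz z hz0)
  · obtain ⟨L, hL⟩ := hfive k1 k2 K U hU h8 h3 a b l y hJ hker hnp
    exact hend k1 K U hU h8 h3 L hL

end Pool.Agent.T2.LC
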