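import Mathlib

/-!
# LEMMA C, row COV: functionals which factor through a projection (helper39)
-/

set_option autoImplicit false

namespace Pool.Agent.T2.LC

open Module

section

variable {K V : Type} [Field K] [AddCommGroup V] [Module K V]

/-- functionals which factor through `π` and kill `T` -/
def Uan (π : V →ₗ[K] V) (T : Submodule K V) : Submodule K (Dual K V) where
  carrier := {θ | θ ∘ₗ π = θ ∧ ∀ r ∈ T, θ r = 0}
  add_mem' := by
    rintro a b ⟨ha, ha'⟩ ⟨hb, hb'⟩
    refine ⟨by rw [LinearMap.add_comp, ha, hb], fun r hr => ?_⟩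
    rw [LinearMap.add_apply, ha' r hr, hb' r hr, add_zero]
  zero_mem' := ⟨LinearMap.zero_comp _, fun r _ => rfl⟩
  smul_mem' := by
    rintro c a ⟨ha, ha'⟩
    refine ⟨by rw [LinearMap.smul_comp, ha], fun r hr => ?_⟩
    rw [LinearMap.smul_apply, ha' r hr, smul_zero]

theorem mem_Uan {π : V →ₗ[K] V} {T : Submodule K V} {θ : Dual K V} :
    θ ∈ Uan π T ↔ (∀ v, θ (π v) = θ v) ∧ ∀ r ∈ T, θ r = 0 :=
  ⟨fun h => ⟨fun v => LinearMap.congr_fun h.1 v, h.2⟩, fun h => ⟨LinearMap.ext h.1, h.2⟩⟩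

/-- the dimension of the space of functionals -/
theorem finrank_Uan (S T : Submodule K V) [FiniteDimensional K S] (hT : T ≤ S) (π : V →ₗ[K] V)
    (h1 : ∀ v, π v ∈ S) (h2 : ∀ v ∈ S, π v = v) :
    finrank K (Uan π T) + finrank K T = finrank K S := by
  let T' : Submodule K S := T.comap S.subtype
  have e1 : finrank K T' = finrank K T := (Submodule.comapSubtypeEquivOfLe hT).finrank_eq
  let e : Uan π T ≃ₗ[K] T'.dualAnnihilator :=
    { toFun := fun θ => ⟨(θ : Dual K V) ∘ₗ S.subtype, by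
        rw [Submodule.mem_dualAnnihilator]
        intro w hw
        exact (mem_Uan.1 θ.2).2 _ hw⟩
      map_add' := fun a b => rfl
      map_smul' := fun c a => rfl
      invFun := fun φ => ⟨(φ : Dual K S) ∘ₗ π.codRestrict S h1, by
        refine mem_Uan.2 ⟨fun v => ?_, fun r hr => ?_⟩
        · show (φ : Dual K S) (π.codRestrict S h1 (π v)) = (φ : Dual K S) (π.codRestrict S h1 v)
          congr 1
          exact Subtype.ext (h2 _ (h1 v))
        · show (φ : Dual K S) (π.codRestrict S h1 r) = 0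
          have h3 : π.codRestrict S h1 r = ⟨r, hT hr⟩ := Subtype.ext (h2 _ (hT hr))
          rw [h3]
          exact (Submodule.mem_dualAnnihilator _).1 φ.2 _ hr⟩
      left_inv := fun θ => Subtype.ext (LinearMap.ext fun v => (mem_Uan.1 θ.2).1 v)
      right_inv := fun φ => Subtype.ext (LinearMap.ext fun v => by
        show (φ : Dual K S) (π.codRestrict S h1 (v : V)) = (φ : Dual K S) v
        congr 1
        exact Subtype.ext (h2 _ v.2)) }
  rw [e.finrank_eq, ← e1, add_comm]
  exact Subspace.finrank_add_finrank_dualAnnihilator_eq T'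

/-- separation -/
theorem exists_Uan (S T : Submodule K V) (hT : T ≤ S) (π : V →ₗ[K] V)
    (h1 : ∀ v, π v ∈ S) (h2 : ∀ v ∈ S, π v = v) {v : V} (hv : v ∈ S) (hv' : v ∉ T) :
    ∃ θ ∈ Uan π T, θ v ≠ 0 := by
  obtain ⟨f, hf, hk⟩ := Submodule.exists_le_ker_of_notMem hv'
  refine ⟨f ∘ₗ π, mem_Uan.2 ⟨fun w => ?_, fun r hr => ?_⟩, ?_⟩
  · show f (π (π w)) = f (π w)
    rw [h2 _ (h1 w)]
  · show f (π r) = 0
    rw [h2 _ (hT hr)]
    exact hk hr
  · show f (π v) ≠ 0
    rwa [h2 _ hv]

end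

end Pool.Agent.T2.LC
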