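import Pool.Agent.Lib.MP_c7af3c_ag.T2.LC.Defs

/-!
# LEMMA C: general tools (helper13)
-/

set_option autoImplicit false

namespace Pool.Agent.T2.LC

open MvPolynomial Module

variable {K : Type} [Field K]

/-! ### contraction -/

theorem lf_apply (l : Fin 3 → K) : lf l = ∑ i, l i • (X i : MvPolynomial (Fin 3) K) := by
  rw [lf, LinearMap.sum_apply]
  rfl

theorem lf_single (i : Fin 3) : lf (Pi.single i (1 : K)) = X i := by
  rw [lf_apply, Finset.sum_eq_single i]
  · rw [Pi.single_eq_same, one_smul]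
  · intro j _ hj; rw [Pi.single_eq_of_ne hj, zero_smul]
  · intro h; exact absurd (Finset.mem_univ i) h

theorem ct_apply (p g : MvPolynomial (Fin 3) K) (θ : D K) : ct p θ g = θ (p * g) := rfl

theorem ct_mul (p q : MvPolynomial (Fin 3) K) (θ : D K) : ct (p * q) θ = ct p (ct q θ) := by
  refine LinearMap.ext fun g => ?_
  rw [ct_apply, ct_apply, ct_apply]
  congr 1; ring

theorem ct_mul' (p q : MvPolynomial (Fin 3) K) : ct (p * q) = ct p ∘ₗ ct q :=
  LinearMap.ext fun θ => ct_mul p q θ

theorem ct_comm (p q : MvPolynomial (Fin 3) K) (θ : D K) : ct p (ct q θ) = ct q (ct p θ) := by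
  rw [← ct_mul, ← ct_mul, mul_comm]

theorem ct_add (p q : MvPolynomial (Fin 3) K) (θ : D K) : ct (p + q) θ = ct p θ + ct q θ := by
  refine LinearMap.ext fun g => ?_
  rw [LinearMap.add_apply, ct_apply, ct_apply, ct_apply, add_mul, map_add]

theorem ct_smul (c : K) (p : MvPolynomial (Fin 3) K) (θ : D K) : ct (c • p) θ = c • ct p θ := by
  refine LinearMap.ext fun g => ?_
  rw [LinearMap.smul_apply, ct_apply, ct_apply, smul_mul_assoc, map_smul]

theorem ct_zero (θ : D K) : ct (0 : MvPolynomial (Fin 3) K) θ = 0 := by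
  refine LinearMap.ext fun g => ?_
  rw [ct_apply, zero_mul, map_zero, LinearMap.zero_apply]

theorem ct_one (θ : D K) : ct (1 : MvPolynomial (Fin 3) K) θ = θ := by
  refine LinearMap.ext fun g => ?_
  rw [ct_apply, one_mul]

theorem ct_sub (p q : MvPolynomial (Fin 3) K) (θ : D K) : ct (p - q) θ = ct p θ - ct q θ := by
  refine LinearMap.ext fun g => ?_
  rw [LinearMap.sub_apply, ct_apply, ct_apply, ct_apply, sub_mul, map_sub]

theorem ct_sum {ι : Type*} (s : Finset ι) (p : ι → MvPolynomial (Fin 3) K) (θ : D K) :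
    ct (∑ i ∈ s, p i) θ = ∑ i ∈ s, ct (p i) θ := by
  classical
  induction s using Finset.induction_on with
  | empty => simp [ct_zero]
  | insert a s ha ih => rw [Finset.sum_insert ha, Finset.sum_insert ha, ct_add, ih]

/-- the contraction as a bilinear map -/
noncomputable def ctB : MvPolynomial (Fin 3) K →ₗ[K] D K →ₗ[K] D K where
  toFun := ct
  map_add' p q := LinearMap.ext fun θ => by rw [ct_add]; rfl
  map_smul' c p := LinearMap.ext fun θ => by rw [ct_smul]; rfl

theorem ctB_apply (p : MvPolynomial (Fin 3) K) (θ : D K) : ctB p θ = ct p θ := rfl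

/-! ### the graded pieces -/

theorem mem_Dj {j : ℕ} {θ : D K} :
    θ ∈ Dj j ↔ ∀ m : Fin 3 →₀ ℕ, m.degree ≠ j → θ (monomial m 1) = 0 := Iff.rfl

theorem monomial_eq_smul (m : Fin 3 →₀ ℕ) (c : K) :
    (monomial m c : MvPolynomial (Fin 3) K) = c • monomial m 1 := by
  rw [smul_monomial, smul_eq_mul, mul_one]

/-- a functional of degree `j` vanishes on homogeneous polynomials of another degree -/
theorem Dj_hom {j i : ℕ} {θ : D K} (hθ : θ ∈ Dj j) {p : MvPolynomial (Fin 3) K}
    (hp : p.IsHomogeneous i) (hij : i ≠ j) : θ p = 0 := by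
  rw [p.as_sum, map_sum]
  refine Finset.sum_eq_zero fun m hm => ?_
  rw [monomial_eq_smul, map_smul, hθ m, smul_zero]
  have h := hp (mem_support_iff.mp hm)
  have h2 : m.degree = i := by rw [← h]; rw [Finsupp.degree_eq_weight_one]; rfl
  rw [h2]
  exact hij

theorem ct_mem_Dj {i j : ℕ} {p : MvPolynomial (Fin 3) K} (hp : p.IsHomogeneous i) {θ : D K}
    (hθ : θ ∈ Dj (j + i)) : ct p θ ∈ Dj j := by
  intro m hm
  rw [ct_apply]
  refine Dj_hom (i := i + m.degree) hθ (hp.mul (isHomogeneous_monomial _ rfl)) ?_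
  omega

theorem lf_hom (l : Fin 3 → K) : (lf l).IsHomogeneous 1 := by
  rw [lf_apply]
  refine IsHomogeneous.sum _ _ _ fun i _ => ?_
  rw [smul_eq_C_mul]
  simpa using (isHomogeneous_C (Fin 3) (l i)).mul (isHomogeneous_X K i)

theorem ct_lf_mem {j : ℕ} (l : Fin 3 → K) {θ : D K} (hθ : θ ∈ Dj (j + 1)) :
    ct (lf l) θ ∈ Dj j := ct_mem_Dj (lf_hom l) hθ

theorem map_lf_le {j : ℕ} (l : Fin 3 → K) {A : Submodule K (D K)} (hA : A ≤ Dj (j + 1)) :
    A.map (ct (lf l)) ≤ Dj j := by
  rintro _ ⟨θ, hθ, rfl⟩; exact ct_lf_mem l (hA hθ)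

theorem map_ct_le {i j : ℕ} {p : MvPolynomial (Fin 3) K} (hp : p.IsHomogeneous i)
    {A : Submodule K (D K)} (hA : A ≤ Dj (j + i)) : A.map (ct p) ≤ Dj j := by
  rintro _ ⟨θ, hθ, rfl⟩; exact ct_mem_Dj hp (hA hθ)

theorem ct_Dj_zero (l : Fin 3 → K) {θ : D K} (hθ : θ ∈ Dj 0) : ct (lf l) θ = 0 := by
  refine MvPolynomial.linearMap_ext fun m => LinearMap.ext_ring ?_
  simp only [LinearMap.comp_apply, LinearMap.zero_apply]
  rw [ct_apply]
  exact Dj_hom hθ ((lf_hom l).mul (isHomogeneous_monomial _ rfl)) (by omega)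

/-- a functional of positive degree killed by the three coordinates is zero -/
theorem eq_zero_of_X {j : ℕ} {θ : D K} (hθ : θ ∈ Dj (j + 1)) (h : ∀ i, ct (X i) θ = 0) :
    θ = 0 := by
  refine MvPolynomial.linearMap_ext fun m => LinearMap.ext_ring ?_
  simp only [LinearMap.comp_apply, LinearMap.zero_apply]
  by_cases hm : m.degree = j + 1
  · obtain ⟨i, hi⟩ : ∃ i, m i ≠ 0 := by
      by_contra hc
      push Not at hc
      have : m = 0 := Finsupp.ext hc
      rw [this] at hm; simp at hm
    have h1 : (monomial m 1 : MvPolynomial (Fin 3) K) = X i * monomial (m - Finsupp.single i 1) 1 := by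
      rw [X, monomial_mul, one_mul]
      congr 1
      rw [add_comm, tsub_add_cancel_of_le]
      intro k
      rw [Finsupp.single_apply]; split_ifs with hk
      · subst hk; omega
      · omega
    rw [h1, ← ct_apply, h i]; rfl
  · exact hθ m hm

theorem eq_zero_of_lf {j : ℕ} {θ : D K} (hθ : θ ∈ Dj (j + 1))
    (h : ∀ l : Fin 3 → K, ct (lf l) θ = 0) : θ = 0 :=
  eq_zero_of_X hθ fun i => by rw [← lf_single]; exact h _

/-- the kernel of `m ↦ m θ` is a subspace -/
theorem eq_zero_of_indep {j : ℕ} {θ : D K} (hθ : θ ∈ Dj (j + 1)) {a b c : Fin 3 → K}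
    (hi : LinearIndependent K ![a, b, c]) (ha : ct (lf a) θ = 0) (hb : ct (lf b) θ = 0)
    (hc : ct (lf c) θ = 0) : θ = 0 := by
  refine eq_zero_of_lf hθ fun l => ?_
  let f : (Fin 3 → K) →ₗ[K] D K := (ctB.flip θ) ∘ₗ lf
  have hf : ∀ m, f m = ct (lf m) θ := fun m => rfl
  have hsp : Submodule.span K (Set.range ![a, b, c]) = ⊤ := by
    apply hi.span_eq_top_of_card_eq_finrank'
    simp
  have hle : Submodule.span K (Set.range ![a, b, c]) ≤ LinearMap.ker f := by
    rw [Submodule.span_le]
    rintro _ ⟨i, rfl⟩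
    rw [SetLike.mem_coe, LinearMap.mem_ker, hf]
    fin_cases i
    · exact ha
    · exact hb
    · exact hc
  have := hle (hsp ▸ Submodule.mem_top (x := l))
  rw [LinearMap.mem_ker, hf] at this
  exact this

/-- `Dj j` is finite-dimensional -/
instance fdDj (j : ℕ) : FiniteDimensional K (Dj j : Submodule K (D K)) := by
  classical
  let s : Finset (Fin 3 →₀ ℕ) := (Finset.finsuppAntidiag Finset.univ j)
  have hs : ∀ m : Fin 3 →₀ ℕ, m.degree = j → m ∈ s := by
    intro m hm
    rw [Finset.mem_finsuppAntidiag]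
    refine ⟨?_, fun i _ => Finset.mem_univ i⟩
    rw [← hm, Finsupp.degree_eq_sum]
  let f : (Dj j : Submodule K (D K)) →ₗ[K] (s → K) :=
    { toFun := fun θ m => (θ : D K) (monomial m.1 1)
      map_add' := fun a b => by funext m; rfl
      map_smul' := fun c a => by funext m; rfl }
  have hinj : Function.Injective f := by
    intro a b hab
    apply Subtype.ext
    refine MvPolynomial.linearMap_ext fun m => LinearMap.ext_ring ?_
    simp only [LinearMap.comp_apply]
    by_cases hm : m.degree = j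
    · have := congrFun hab ⟨m, hs m hm⟩
      simpa [f] using this
    · have h1 := a.2 m hm
      have h2 := b.2 m hm
      rw [h1, h2]
  exact Module.Finite.of_injective f hinj

theorem fd_of_le {j : ℕ} {A : Submodule K (D K)} (hA : A ≤ Dj j) : FiniteDimensional K A :=
  Submodule.finiteDimensional_of_le hA

/-! ### rank and kernel -/

theorem finrank_map_ker (A : Submodule K (D K)) [FiniteDimensional K A] (f : D K →ₗ[K] D K) :
    finrank K (A.map f) + finrank K (A ⊓ LinearMap.ker f : Submodule K (D K)) = finrank K A := by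
  have h := LinearMap.finrank_range_add_finrank_ker (K := K) (V := A) (V₂ := D K)
    (f.domRestrict A)
  have h1 : LinearMap.range (f.domRestrict A) = A.map f := by
    rw [LinearMap.range_domRestrict]
  rw [h1] at h
  rw [← h]
  congr 1
  have h2 : (LinearMap.ker (f.domRestrict A)).map A.subtype = A ⊓ LinearMap.ker f := by
    ext x
    constructor
    · rintro ⟨y, hy, rfl⟩
      exact ⟨y.2, hy⟩
    · rintro ⟨hx, hx'⟩
      exact ⟨⟨x, hx⟩, hx', rfl⟩
  rw [← h2]
  exact (Submodule.equivMapOfInjective A.subtype A.subtype_injective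
    (LinearMap.ker (f.domRestrict A))).finrank_eq.symm

end Pool.Agent.T2.LC
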