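import Pool.Agent.Lib.MP_c7af3c_ag.T2.IfaceB
import Pool.Agent.Lib.MP_c7af3c_ag.T2.LC.Tools
import Pool.Agent.Lib.MP_c7af3c_ag.T2.LC.CovA

/-!
# LEMMA C, row COV: the dual form gives the statement LEMC of the plane type (helper39)
-/

set_option autoImplicit false

namespace Pool.Agent.T2.LC

open MvPolynomial Module

section

variable {K : Type} [Field K]

/-- the dual of `R` -/
noncomputable def UR (R : Submodule K (MvPolynomial (Fin 3) K)) : Submodule K (D K) :=
  Uan (homogeneousComponent 6) R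

theorem hc_mem (n : ℕ) (v : MvPolynomial (Fin 3) K) : homogeneousComponent n v ∈ S3 K n :=
  homogeneousComponent_mem _ _

theorem hc_self (n : ℕ) (v : MvPolynomial (Fin 3) K) (hv : v ∈ S3 K n) : homogeneousComponent n v = v :=
  homogeneousComponent_eq_self hv

theorem mem_UR {R : Submodule K (MvPolynomial (Fin 3) K)} {θ : D K} :
    θ ∈ UR R ↔ (∀ v, θ (homogeneousComponent 6 v) = θ v) ∧ ∀ r ∈ R, θ r = 0 := mem_Uan

theorem UR_hom {R : Submodule K (MvPolynomial (Fin 3) K)} {θ : D K} (hθ : θ ∈ UR R)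
    {g : MvPolynomial (Fin 3) K} {i : ℕ} (hg : g.IsHomogeneous i) (hi : i ≠ 6) : θ g = 0 := by
  rw [← (mem_UR.1 hθ).1, homogeneousComponent_of_mem (show g ∈ S3 K i from hg), if_neg hi.symm, map_zero]

theorem UR_le (R : Submodule K (MvPolynomial (Fin 3) K)) : UR R ≤ Dj 6 := by
  intro θ hθ m hm
  exact UR_hom hθ (isHomogeneous_monomial _ rfl) hm

/-- `θ (b g) = 0` for all `g`, if it holds for the `g` of the complementary degree -/
theorem UR_ct {R : Submodule K (MvPolynomial (Fin 3) K)} {θ : D K} (hθ : θ ∈ UR R)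
    {b : MvPolynomial (Fin 3) K} {r s : ℕ} (hb : b.IsHomogeneous r) (hrs : r + s = 6)
    (h : ∀ g : MvPolynomial (Fin 3) K, g.IsHomogeneous s → θ (b * g) = 0) : ct b θ = 0 := by
  refine LinearMap.ext fun g => ?_
  rw [ct_apply, LinearMap.zero_apply, ← g.sum_homogeneousComponent, Finset.mul_sum, map_sum]
  refine Finset.sum_eq_zero fun i _ => ?_
  by_cases hi : i = s
  · subst hi
    exact h _ (homogeneousComponent_isHomogeneous _ _)
  · exact UR_hom hθ (hb.mul (homogeneousComponent_isHomogeneous i g)) (by omega)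

theorem finrank_UR {R : Submodule K (MvPolynomial (Fin 3) K)} (hR : R ≤ S3 K 6) :
    finrank K (UR R) + finrank K R = 28 := by
  have hS : finrank K (S3 K 6) = 28 := Edge.H65.finrank_hom3 K 6
  have : FiniteDimensional K (S3 K 6) := Module.finite_of_finrank_pos (by rw [hS]; norm_num)
  rw [← hS]
  exact finrank_Uan (S3 K 6) R hR (homogeneousComponent 6) (hc_mem 6) (hc_self 6)

theorem UR_sup (R T : Submodule K (MvPolynomial (Fin 3) K)) {θ : D K} (h1 : θ ∈ UR R) (h2 : ∀ r ∈ T, θ r = 0) :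
    θ ∈ UR (R ⊔ T) := by
  refine mem_UR.2 ⟨(mem_UR.1 h1).1, fun r hr => ?_⟩
  obtain ⟨a, ha, b, hb, rfl⟩ := Submodule.mem_sup.1 hr
  rw [map_add, (mem_UR.1 h1).2 a ha, h2 b hb, add_zero]

theorem mulS_le {a : MvPolynomial (Fin 3) K} {r s : ℕ} (ha : a.IsHomogeneous r) (h : r + s = 6) :
    mulS a s ≤ S3 K 6 := by
  intro g hg
  obtain ⟨b, hb, rfl⟩ := mem_mulS.1 hg
  have := ha.mul hb
  rwa [h] at this

theorem lf_inj {l : Fin 3 → K} (h : lf l = 0) : l = 0 := by
  funext i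
  have h1 : coeff (Finsupp.single i 1) (lf l) = l i := by
    rw [lf_apply, coeff_sum, Finset.sum_eq_single i]
    · rw [coeff_smul, coeff_X, if_pos rfl, smul_eq_mul, mul_one]
    · intro j _ hj
      rw [coeff_smul, coeff_X, if_neg, smul_zero]
      intro h2
      exact hj (Finsupp.single_left_injective one_ne_zero h2)
    · intro h2
      exact absurd (Finset.mem_univ i) h2
  rw [← h1, h]
  rfl

/-- Row LEMC from the dual statements. -/
theorem cov (k1 : K1S) (k2 : K2S) (hvl : VLS) (hab : ABS) (hc : C12S) : LemcStatement := by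
  intro K _ _ R hR hB
  have hS : finrank K (S3 K 6) = 28 := Edge.H65.finrank_hom3 K 6
  have hfS : FiniteDimensional K (S3 K 6) := Module.finite_of_finrank_pos (by rw [hS]; norm_num)
  have h8 : finrank K (UR R) = 8 := by
    have h1 := finrank_UR hR.le
    have h2 := hR.dim
    omega
  have h4 : ∀ l : Fin 3 → K, l ≠ 0 →
      finrank K (UR R ⊓ LinearMap.ker (ct (lf l)) : Submodule K (D K)) ≤ 4 := by
    intro l hl
    have h1 := hR.line (lf l) (lf_hom l) fun h => hl (lf_inj h)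
    have h2 : R ⊔ mulS (lf l) 5 ≤ S3 K 6 := sup_le hR.le (mulS_le (lf_hom l) rfl)
    have h3 := finrank_UR h2
    have h5 : UR R ⊓ LinearMap.ker (ct (lf l)) ≤ UR (R ⊔ mulS (lf l) 5) := by
      rintro θ ⟨h6, h7⟩
      refine UR_sup _ _ h6 fun r hr => ?_
      obtain ⟨b, -, rfl⟩ := mem_mulS.1 hr
      exact LinearMap.congr_fun h7 b
    have hfd : FiniteDimensional K (UR (R ⊔ mulS (lf l) 5)) := fd_of_le (UR_le _)
    have h6 := Submodule.finrank_mono h5
    omega
  have hni : ∀ B : MvPolynomial (Fin 3) K, B.IsHomogeneous 3 → ¬ Inj (UR R) B := by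
    intro B hBh hi
    have h1 : R ⊔ mulS B 3 ≤ S3 K 6 := sup_le hR.le (mulS_le hBh rfl)
    obtain ⟨v, hv, hv'⟩ : ∃ v ∈ S3 K 6, v ∉ R ⊔ mulS B 3 := by
      by_contra hcon
      push Not at hcon
      exact hB B hBh (le_antisymm h1 hcon)
    obtain ⟨θ, h2, h3⟩ := exists_Uan (S3 K 6) _ h1 (homogeneousComponent 6) (hc_mem 6) (hc_self 6) hv hv'
    have h4 : θ ∈ UR (R ⊔ mulS B 3) := h2
    have h5 : θ ∈ UR R := mem_UR.2 ⟨(mem_UR.1 h4).1, fun r hr => (mem_UR.1 h4).2 r (Submodule.mem_sup_left hr)⟩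
    have h6 : ct B θ = 0 := UR_ct h5 hBh (s := 3) rfl fun g hg =>
      (mem_UR.1 h4).2 _ (Submodule.mem_sup_right (mem_mulS.2 ⟨g, hg, rfl⟩))
    have h7 := hi θ h5 h6
    rw [h7] at h3
    exact h3 rfl
  obtain ⟨q, hq0, hq, hqk⟩ := hc k1 k2 hvl K (UR R) (UR_le R) h8 h4
    (fun l₁ l₂ l₃ => hni _ (((lf_hom l₁).mul (lf_hom l₂)).mul (lf_hom l₃)))
    (hab k1 k2 hvl K (UR R) (UR_le R) h8 h4)
  refine ⟨q, hq, hq0, fun g hg => ?_⟩
  by_contra hcon
  have h1 := mulS_le hq (s := 4) rfl hg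
  obtain ⟨θ, h2, h3⟩ := exists_Uan (S3 K 6) R hR.le (homogeneousComponent 6) (hc_mem 6) (hc_self 6) h1 hcon
  obtain ⟨b, -, rfl⟩ := mem_mulS.1 hg
  exact h3 (LinearMap.congr_fun (hqk θ h2) b)

end

end Pool.Agent.T2.LC
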