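import Pool.Agent.Lib.MP_c7af3c_ag.T2.LC.Tools

/-!
# LEMMA C: genericity along lines (helper13)
-/

set_option autoImplicit false

namespace Pool.Agent.T2.LC

open Module

variable {K : Type} [Field K]

/-! ### polynomial functions of one variable with values in a vector space -/

/-- polynomial functions `K → V` -/
def PF {V : Type} [AddCommGroup V] [Module K V] (f : K → V) : Prop :=
  ∃ (N : ℕ) (v : ℕ → V), ∀ t, f t = ∑ i ∈ Finset.range N, t ^ i • v i

section pf

variable {V W X : Type} [AddCommGroup V] [Module K V] [AddCommGroup W] [Module K W]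
  [AddCommGroup X] [Module K X]

theorem PF.const (v : V) : PF (K := K) (fun _ => v) :=
  ⟨1, fun _ => v, fun t => by simp⟩

/-- extend by zero -/
theorem PF.exists_ge {f : K → V} (hf : PF f) : ∃ (N : ℕ) (v : ℕ → V), (∀ i, N ≤ i → v i = 0) ∧
    ∀ M, N ≤ M → ∀ t, f t = ∑ i ∈ Finset.range M, t ^ i • v i := by
  obtain ⟨N, v, hv⟩ := hf
  refine ⟨N, fun i => if i < N then v i else 0, fun i hi => if_neg (by omega), fun M hM t => ?_⟩
  rw [hv t, ← Finset.sum_subset (Finset.range_mono hM)]
  · refine Finset.sum_congr rfl fun i hi => ?_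
    show _ = t ^ i • (if i < N then v i else 0)
    rw [if_pos (Finset.mem_range.mp hi)]
  · intro i _ hi
    show t ^ i • (if i < N then v i else 0) = 0
    rw [if_neg (by simpa using hi), smul_zero]

theorem PF.add {f g : K → V} (hf : PF f) (hg : PF g) : PF (fun t => f t + g t) := by
  obtain ⟨N, v, _, hv⟩ := hf.exists_ge
  obtain ⟨M, w, _, hw⟩ := hg.exists_ge
  refine ⟨max N M, fun i => v i + w i, fun t => ?_⟩
  show f t + g t = _
  rw [hv _ (le_max_left N M), hw _ (le_max_right N M), ← Finset.sum_add_distrib]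
  exact Finset.sum_congr rfl fun i _ => by rw [smul_add]

theorem PF.sum {ι : Type*} (s : Finset ι) {f : ι → K → V} (hf : ∀ i ∈ s, PF (f i)) :
    PF (fun t => ∑ i ∈ s, f i t) := by
  classical
  induction s using Finset.induction_on with
  | empty => simpa using PF.const (K := K) (0 : V)
  | insert a s ha ih =>
    have := (hf a (Finset.mem_insert_self a s)).add
      (ih fun i hi => hf i (Finset.mem_insert_of_mem hi))
    refine (congrArg PF (funext fun t => ?_)).mp this
    rw [Finset.sum_insert ha]

theorem PF.monomial (i : ℕ) (v : V) : PF (K := K) (fun t => t ^ i • v) := by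
  refine ⟨i + 1, fun j => if j = i then v else 0, fun t => ?_⟩
  rw [Finset.sum_eq_single i]
  · simp
  · intro j _ hj; simp [hj]
  · intro h; simp at h

theorem PF.map {f : K → V} (hf : PF f) (g : V →ₗ[K] W) : PF (fun t => g (f t)) := by
  obtain ⟨N, v, hv⟩ := hf
  refine ⟨N, fun i => g (v i), fun t => ?_⟩
  show g (f t) = _
  rw [hv, map_sum]
  exact Finset.sum_congr rfl fun i _ => by rw [map_smul]

theorem PF.bilin {f : K → V} {g : K → W} (hf : PF f) (hg : PF g) (B : V →ₗ[K] W →ₗ[K] X) :
    PF (fun t => B (f t) (g t)) := by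
  obtain ⟨N, v, hv⟩ := hf
  obtain ⟨M, w, hw⟩ := hg
  have : (fun t => B (f t) (g t)) = fun t => ∑ i ∈ Finset.range N, ∑ j ∈ Finset.range M,
      t ^ (i + j) • B (v i) (w j) := by
    funext t
    rw [hv, map_sum, LinearMap.sum_apply]
    refine Finset.sum_congr rfl fun i _ => ?_
    rw [hw, map_sum]
    refine Finset.sum_congr rfl fun j _ => ?_
    rw [map_smul, map_smul, LinearMap.smul_apply, smul_smul, pow_add, mul_comm]
  rw [this]
  exact PF.sum _ fun i _ => PF.sum _ fun j _ => PF.monomial _ _

theorem PF.line (a b : V) : PF (K := K) (fun t => a + t • b) := by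
  refine (PF.const a).add ((congrArg PF (funext fun t => ?_)).mp (PF.monomial (K := K) 1 b))
  rw [pow_one]

theorem PF.smul {f : K → K} {g : K → V} (hf : PF f) (hg : PF g) : PF (fun t => f t • g t) :=
  hf.bilin hg (LinearMap.lsmul K V)

theorem PF.poly {f : K → K} (hf : PF f) : ∃ p : Polynomial K, ∀ t, f t = p.eval t := by
  obtain ⟨N, v, hv⟩ := hf
  refine ⟨∑ i ∈ Finset.range N, Polynomial.C (v i) * Polynomial.X ^ i, fun t => ?_⟩
  rw [hv, Polynomial.eval_finsetSum]
  refine Finset.sum_congr rfl fun i _ => ?_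
  rw [Polynomial.eval_mul, Polynomial.eval_C, Polynomial.eval_pow, Polynomial.eval_X,
    smul_eq_mul, mul_comm]

theorem PF.of_poly (p : Polynomial K) : PF (fun t => p.eval t) := by
  refine ⟨p.natDegree + 1, fun i => p.coeff i, fun t => ?_⟩
  show p.eval t = _
  rw [Polynomial.eval_eq_sum_range]
  exact Finset.sum_congr rfl fun i _ => by rw [smul_eq_mul, mul_comm]

/-- a polynomial function which is not zero somewhere is zero only finitely often -/
theorem PF.finite_zero {f : K → K} (hf : PF f) {t₀ : K} (h0 : f t₀ ≠ 0) :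
    {t | f t = 0}.Finite := by
  classical
  obtain ⟨p, hp⟩ := hf.poly
  have hp0 : p ≠ 0 := by rintro rfl; exact h0 (by rw [hp]; simp)
  refine (p.roots.toFinset.finite_toSet).subset fun t ht => ?_
  simp only [Set.mem_ofPred_eq] at ht
  rw [Finset.mem_coe, Multiset.mem_toFinset, Polynomial.mem_roots hp0, Polynomial.IsRoot, ← hp]
  exact ht

theorem PF.det {n : ℕ} {M : K → Matrix (Fin n) (Fin n) K} (hM : ∀ i j, PF (fun t => M t i j)) :
    PF (fun t => (M t).det) := by
  choose P hP using fun i j => (hM i j).poly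
  have : (fun t => (M t).det) = fun t => ((Matrix.of P).det).eval t := by
    funext t
    rw [← Polynomial.coe_evalRingHom, RingHom.map_det]
    congr 1
    ext i j
    simp [hP]
  rw [this]
  exact PF.of_poly _

/-- coefficients of a polynomial identity -/
theorem PF.coeff_zero [Infinite K] {N : ℕ} {v : ℕ → V}
    (h : ∀ t : K, ∑ i ∈ Finset.range N, t ^ i • v i = 0) : ∀ i < N, v i = 0 := by
  intro i hi
  rw [← Module.forall_dual_apply_eq_zero_iff K]
  intro φ
  have hp : (∑ j ∈ Finset.range N, Polynomial.C (φ (v j)) * Polynomial.X ^ j) = 0 := by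
    refine Polynomial.funext fun t => ?_
    have := congrArg φ (h t)
    rw [map_sum, map_zero] at this
    rw [Polynomial.eval_finsetSum, Polynomial.eval_zero, ← this]
    refine Finset.sum_congr rfl fun j _ => ?_
    rw [Polynomial.eval_mul, Polynomial.eval_C, Polynomial.eval_pow, Polynomial.eval_X,
      map_smul, smul_eq_mul, mul_comm]
  have := congrArg (fun p => Polynomial.coeff p i) hp
  simpa [Polynomial.finsetSum_coeff, Polynomial.coeff_X_pow, hi] using this

/-- dual functionals of independent vectors -/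
theorem exists_dual {n : ℕ} {v : Fin n → V} (hv : LinearIndependent K v) :
    ∃ Φ : V →ₗ[K] (Fin n → K), ∀ j, Φ (v j) = Pi.single j 1 := by
  obtain ⟨g, hg⟩ := LinearMap.exists_extend
    ((Finsupp.linearEquivFunOnFinite K K (Fin n)).toLinearMap ∘ₗ hv.repr)
  refine ⟨g, fun j => ?_⟩
  have h1 : g (v j) = (g ∘ₗ (Submodule.span K (Set.range v)).subtype)
      ⟨v j, Submodule.subset_span ⟨j, rfl⟩⟩ := rfl
  rw [h1, hg, LinearMap.comp_apply]
  have h2 : hv.repr ⟨v j, Submodule.subset_span ⟨j, rfl⟩⟩ = Finsupp.single j 1 := by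
    exact hv.repr_eq_single j _ rfl
  rw [h2]
  funext i
  simp [Finsupp.single_apply, Pi.single_apply, eq_comm]

/-- linear independence is open along polynomial curves -/
theorem li_open {n : ℕ} {v : Fin n → K → V} (hv : ∀ i, PF (v i)) {t₀ : K}
    (h0 : LinearIndependent K (fun i => v i t₀)) :
    {t | ¬ LinearIndependent K (fun i => v i t)}.Finite := by
  obtain ⟨Φ, hΦ⟩ := exists_dual h0
  let M : K → Matrix (Fin n) (Fin n) K := fun t => Matrix.of fun i j => Φ (v j t) i
  have hM : PF (fun t => (M t).det) := by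
    refine PF.det fun i j => ?_
    exact ((hv j).map Φ).map (LinearMap.proj i)
  have hM0 : (M t₀).det ≠ 0 := by
    have : M t₀ = 1 := by
      ext i j
      simp [M, hΦ, Matrix.one_apply, Pi.single_apply]
    rw [this, Matrix.det_one]; exact one_ne_zero
  refine (hM.finite_zero hM0).subset fun t ht => ?_
  simp only [Set.mem_ofPred_eq] at ht ⊢
  by_contra hdet
  apply ht
  rw [Fintype.linearIndependent_iff]
  intro g hg i
  have hz : (M t).mulVec g = 0 := by
    funext i
    have := congrFun (congrArg Φ hg) i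
    rw [map_sum, map_zero] at this
    simp only [map_smul, Finset.sum_apply, Pi.smul_apply, smul_eq_mul, Pi.zero_apply] at this
    simp only [Matrix.mulVec, dotProduct, M, Matrix.of_apply, Pi.zero_apply]
    rw [← this]
    exact Finset.sum_congr rfl fun j _ => mul_comm _ _
  have := Matrix.eq_zero_of_mulVec_eq_zero hdet hz
  exact congrFun this i

/-- Kernel vector: polynomial vectors `v₀, .., v_n`, dependent for all `t`, `v₁, .., v_n`
independent at `0`: there is a polynomial relation with `c₀(0) ≠ 0`. -/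
theorem kernel_vector {n : ℕ} {v : Fin (n + 1) → K → V} (hv : ∀ i, PF (v i))
    (hd : ∀ t, ¬ LinearIndependent K (fun i => v i t)) {t₀ : K}
    (h0 : LinearIndependent K (fun i : Fin n => v i.succ t₀)) :
    ∃ c : Fin (n + 1) → K → K, (∀ i, PF (c i)) ∧ (∀ t, ∑ i, c i t • v i t = 0) ∧
      c 0 t₀ ≠ 0 := by
  obtain ⟨Φ, hΦ⟩ := exists_dual h0
  let M : K → Matrix (Fin n) (Fin (n + 1)) K := fun t => Matrix.of fun i j => Φ (v j t) i
  let c : Fin (n + 1) → K → K := fun j t =>
    (-1) ^ (j : ℕ) * ((M t).submatrix id j.succAbove).det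
  refine ⟨c, fun j => ?_, fun t => ?_, ?_⟩
  · have h1 : PF (fun t => ((M t).submatrix id j.succAbove).det) := by
      refine PF.det fun i k => ?_
      exact ((hv _).map Φ).map (LinearMap.proj i)
    exact (PF.const ((-1 : K) ^ (j : ℕ))).smul h1
  · rw [← Module.forall_dual_apply_eq_zero_iff K]
    intro φ
    let N : Matrix (Fin (n + 1)) (Fin (n + 1)) K :=
      Matrix.of (Fin.cons (fun j => φ (v j t)) (fun i j => M t i j))
    have hN : N.det = 0 := by
      rw [← Matrix.exists_mulVec_eq_zero_iff]
      have := hd t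
      rw [Fintype.not_linearIndependent_iff] at this
      obtain ⟨g, hg, i, hi⟩ := this
      refine ⟨g, fun h => hi (congrFun h i), ?_⟩
      funext k
      refine Fin.cases ?_ (fun k => ?_) k
      · have := congrArg φ hg
        rw [map_sum, map_zero] at this
        simp only [Matrix.mulVec, dotProduct, N, Matrix.of_apply, Fin.cons_zero, Pi.zero_apply]
        rw [← this]
        exact Finset.sum_congr rfl fun j _ => by rw [map_smul, smul_eq_mul, mul_comm]
      · have := congrFun (congrArg Φ hg) k
        rw [map_sum, map_zero] at this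
        simp only [map_smul, Finset.sum_apply, Pi.smul_apply, smul_eq_mul, Pi.zero_apply] at this
        simp only [Matrix.mulVec, dotProduct, N, Matrix.of_apply, Fin.cons_succ, Pi.zero_apply, M]
        rw [← this]
        exact Finset.sum_congr rfl fun j _ => mul_comm _ _
    rw [Matrix.det_succ_row_zero] at hN
    rw [map_sum, ← hN]
    refine Finset.sum_congr rfl fun j _ => ?_
    rw [map_smul, smul_eq_mul]
    have h1 : N.submatrix Fin.succ j.succAbove = (M t).submatrix id j.succAbove := by
      ext i k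
      simp [N]
    rw [h1]
    simp only [c, N, Matrix.of_apply, Fin.cons_zero]
    ring
  · have h1 : (M t₀).submatrix id (0 : Fin (n + 1)).succAbove = 1 := by
      ext i j
      simp [M, hΦ, Matrix.one_apply, Pi.single_apply]
    simp only [c]
    rw [h1]
    simp

end pf

/-! ### open sets -/

section lopen

variable {E F : Type} [AddCommGroup E] [Module K E] [AddCommGroup F] [Module K F]

theorem LOpen.comp {P : E → Prop} (hP : LOpen (K := K) P) (f : F →ₗ[K] E) :
    LOpen (K := K) fun x => P (f x) := by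
  intro a b h
  have := hP (f a) (f b) h
  refine this.subset fun t ht => ?_
  simp only [Set.mem_ofPred_eq, map_add, map_smul] at ht ⊢
  exact ht

theorem LOpen.and {P Q : E → Prop} (hP : LOpen (K := K) P) (hQ : LOpen (K := K) Q) :
    LOpen (K := K) fun x => P x ∧ Q x := by
  intro a b h
  refine ((hP a b h.1).union (hQ a b h.2)).subset fun t ht => ?_
  simp only [Set.mem_ofPred_eq, Set.mem_union] at ht ⊢
  tauto

theorem LOpen.exists_and [Infinite K] {P Q : E → Prop} (hP : LOpen (K := K) P)
    (hQ : LOpen (K := K) Q) (h1 : ∃ x, P x) (h2 : ∃ x, Q x) : ∃ x, P x ∧ Q x := by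
  obtain ⟨a, ha⟩ := h1
  obtain ⟨b, hb⟩ := h2
  have f1 := hP a (b - a) ha
  have f2 := hQ b (a - b) hb
  have f3 : {t : K | ¬ Q (b + (1 - t) • (a - b))}.Finite := by
    refine (f2.image fun s => 1 - s).subset fun t ht => ?_
    exact ⟨1 - t, ht, by simp⟩
  obtain ⟨t, ht⟩ := (f1.union f3).exists_notMem
  simp only [Set.mem_union, Set.mem_ofPred_eq, not_or, not_not] at ht
  refine ⟨a + t • (b - a), ht.1, ?_⟩
  have : a + t • (b - a) = b + (1 - t) • (a - b) := by module
  rw [this]; exact ht.2

theorem LOpen.exists_forall [Infinite K] {ι : Type*} (s : Finset ι) {P : ι → E → Prop}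
    (hP : ∀ i ∈ s, LOpen (K := K) (P i)) (hne : ∀ i ∈ s, ∃ x, P i x) :
    ∃ x, ∀ i ∈ s, P i x := by
  classical
  have key : ∀ s : Finset ι, (∀ i ∈ s, LOpen (K := K) (P i)) → (∀ i ∈ s, ∃ x, P i x) →
      LOpen (K := K) (fun x => ∀ i ∈ s, P i x) ∧ ∃ x, ∀ i ∈ s, P i x := by
    intro s
    induction s using Finset.induction_on with
    | empty =>
      intro _ _
      refine ⟨fun a b _ => ?_, 0, by simp⟩
      simp
    | insert i s hi ih =>
      intro h1 h2
      obtain ⟨h3, h4⟩ := ih (fun j hj => h1 j (Finset.mem_insert_of_mem hj))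
        fun j hj => h2 j (Finset.mem_insert_of_mem hj)
      have h5 := h1 i (Finset.mem_insert_self i s)
      have h6 := h2 i (Finset.mem_insert_self i s)
      have e : (fun x => ∀ j ∈ insert i s, P j x) = fun x => P i x ∧ ∀ j ∈ s, P j x := by
        funext x
        rw [Finset.forall_mem_insert]
      rw [e]
      refine ⟨h5.and h3, ?_⟩
      obtain ⟨x, hx⟩ := h5.exists_and h3 h6 h4
      exact ⟨x, hx⟩
  exact (key s hP hne).2

end lopen

end Pool.Agent.T2.LC
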