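import Pool.Agent.Lib.MP_c7af3c_ag.T2.LC.Tools
import Pool.Agent.Lib.MP_c7af3c_ag.T2.LC.Gen

/-!
# MP_c7af3c_ag, T2, LEMMA C, module K1 (helper64)
-/

set_option autoImplicit false

namespace Pool.Agent.T2.LC.K1

open MvPolynomial Module

/-! ### General -/

section gen

variable {K : Type} [Field K] {V W : Type} [AddCommGroup V] [Module K V] [AddCommGroup W] [Module K W]

/-- A curve of kernel vectors. -/
theorem kernel_curve [Infinite K] (A : Submodule K V) [FiniteDimensional K A] (f g : V →ₗ[K] W) (y : V)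
    (hy : y ∈ A) (hfy : f y = 0) (hy0 : y ≠ 0) (hker : ∀ θ ∈ A, f θ = 0 → ∃ c : K, θ = c • y)
    (hd : ∀ t : K, ∃ θ ∈ A, θ ≠ 0 ∧ f θ + t • g θ = 0) :
    ∃ u : ℕ → V, (∀ i, u i ∈ A) ∧ u 0 = y ∧ ∀ i, f (u (i + 1)) + g (u i) = 0 := by
  classical
  set B := finBasis K (A.map f) with hB
  set n := finrank K (A.map f) with hn
  have hu : ∀ i, ∃ u ∈ A, f u = B i := fun i => (B i).2
  choose u huA hu using hu
  have hli : LinearIndependent K (fun i => f (u i)) := by
    have h1 := B.linearIndependent.map' (A.map f).subtype (Submodule.ker_subtype _)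
    have h2 : (fun i => f (u i)) = (A.map f).subtype ∘ B := funext hu
    rw [h2]
    exact h1
  have hspan : ∀ θ ∈ A, ∃ (b : K) (c : Fin n → K), θ = b • y + ∑ i, c i • u i := by
    intro θ hθ
    set x : A.map f := ⟨f θ, Submodule.mem_map_of_mem hθ⟩ with hx
    have h1 : f θ = ∑ i, B.repr x i • f (u i) := by
      have h2 := congrArg Subtype.val (B.sum_repr x)
      rw [hx] at h2
      simp only [AddSubmonoidClass.coe_finsetSum, Submodule.coe_smul] at h2
      rw [← h2]
      exact Finset.sum_congr rfl fun i _ => by rw [hu]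
    obtain ⟨b, hb⟩ := hker (θ - ∑ i, B.repr x i • u i)
      (A.sub_mem hθ (A.sum_mem fun i _ => A.smul_mem _ (huA i))) (by
        rw [map_sub, map_sum, h1, sub_eq_zero]
        exact Finset.sum_congr rfl fun i _ => (map_smul _ _ _).symm)
    exact ⟨b, fun i => B.repr x i, by rw [← hb]; abel⟩
  set e : Fin (n + 1) → V := Fin.cons y u with he
  have hPF : ∀ i, PF (K := K) (fun t => f (e i) + t • g (e i)) := fun i => PF.line _ _
  have hdep : ∀ t : K, ¬ LinearIndependent K (fun i => f (e i) + t • g (e i)) := by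
    intro t h
    obtain ⟨θ, hθA, hθ0, hθ⟩ := hd t
    obtain ⟨b, c, e1⟩ := hspan θ hθA
    rw [Fintype.linearIndependent_iff] at h
    have h1 : ∑ i, (Fin.cons b c : Fin (n + 1) → K) i • (f (e i) + t • g (e i)) = 0 := by
      rw [← hθ, e1, Fin.sum_univ_succ]
      simp only [he, Fin.cons_zero, Fin.cons_succ, map_add, map_sum, map_smul, smul_add, Finset.smul_sum,
        Finset.sum_add_distrib]
      have h2 : ∀ x : Fin n, c x • t • g (u x) = t • c x • g (u x) := fun x => smul_comm _ _ _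
      simp only [h2, smul_comm b t]
      abel
    have h2 := h _ h1
    apply hθ0
    rw [e1]
    have h3 := h2 0
    rw [Fin.cons_zero] at h3
    rw [h3, zero_smul, zero_add]
    refine Finset.sum_eq_zero fun i _ => ?_
    have h4 := h2 i.succ
    rw [Fin.cons_succ] at h4
    rw [h4, zero_smul]
  obtain ⟨c, hc, hc0, hcne⟩ := kernel_vector (V := W) hPF hdep (t₀ := 0) (by
    have : (fun i : Fin n => f (e i.succ) + (0 : K) • g (e i.succ)) = fun i => f (u i) := by
      funext i
      rw [zero_smul, add_zero, he, Fin.cons_succ]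
    rw [this]
    exact hli)
  have hU : PF (K := K) (fun t => ∑ i, c i t • e i) := PF.sum _ fun i _ => (hc i).smul (PF.const _)
  obtain ⟨N, w, hw0, hw⟩ := hU.exists_ge
  have heA : ∀ i, e i ∈ A := by
    intro i
    refine Fin.cases ?_ (fun i => ?_) i
    · rw [he, Fin.cons_zero]; exact hy
    · rw [he, Fin.cons_succ]; exact huA i
  have hwA : ∀ i, w i ∈ A := by
    intro i
    by_cases hi : i < N
    · rw [← Submodule.Quotient.mk_eq_zero, ← Submodule.mkQ_apply]
      refine PF.coeff_zero (K := K) (N := N) (v := fun i => A.mkQ (w i)) (fun t => ?_) i hi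
      have h1 : ∑ i ∈ Finset.range N, t ^ i • A.mkQ (w i) = A.mkQ (∑ i ∈ Finset.range N, t ^ i • w i) := by
        rw [map_sum]
        exact Finset.sum_congr rfl fun i _ => (map_smul _ _ _).symm
      show ∑ i ∈ Finset.range N, t ^ i • A.mkQ (w i) = 0
      rw [h1, ← hw N le_rfl t, Submodule.mkQ_apply, Submodule.Quotient.mk_eq_zero]
      exact A.sum_mem fun i _ => A.smul_mem _ (heA i)
    · rw [hw0 i (by omega)]; exact A.zero_mem
  set z : ℕ → W := fun i => Nat.casesOn i (f (w 0)) fun i => f (w (i + 1)) + g (w i) with hz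
  have hz0 : ∀ t : K, ∑ i ∈ Finset.range (N + 1), t ^ i • z i = 0 := by
    intro t
    have h1 : f (∑ i, c i t • e i) + t • g (∑ i, c i t • e i) = 0 := by
      rw [← hc0 t]
      simp only [map_sum, map_smul, smul_add, Finset.smul_sum, Finset.sum_add_distrib]
      congr 1
      exact Finset.sum_congr rfl fun i _ => smul_comm _ _ _
    have h2 := hw (N + 1) (by omega) t
    have h3 := hw N le_rfl t
    have e1 : f (∑ i, c i t • e i) = ∑ i ∈ Finset.range (N + 1), t ^ i • f (w i) := by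
      rw [h2]; simp only [map_sum, map_smul]
    have e2 : g (∑ i, c i t • e i) = ∑ i ∈ Finset.range N, t ^ i • g (w i) := by
      rw [h3]; simp only [map_sum, map_smul]
    rw [← h1, e1, e2, Finset.sum_range_succ', Finset.sum_range_succ' (fun i => t ^ i • f (w i))]
    simp only [hz, smul_add, Finset.sum_add_distrib, Finset.smul_sum, smul_smul, pow_succ', pow_zero, one_smul]
    abel
  have hzi := PF.coeff_zero (K := K) hz0
  have hf0 : f (w 0) = 0 := hzi 0 (by omega)
  have hfg : ∀ i, f (w (i + 1)) + g (w i) = 0 := by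
    intro i
    by_cases hi : i + 1 < N + 1
    · exact hzi (i + 1) hi
    · rw [hw0 i (by omega), hw0 (i + 1) (by omega), map_zero, map_zero, add_zero]
  -- `w 0` is a multiple of `y`
  obtain ⟨r, hr⟩ := hker (w 0) (hwA 0) hf0
  have hr0 : r ≠ 0 := by
    rintro rfl
    rw [zero_smul] at hr
    have h1 : ∑ i, c i 0 • e i = 0 := by
      have h2 := hw (N + 1) (by omega) 0
      rw [h2, Finset.sum_range_succ']
      simp [hr]
    rw [Fin.sum_univ_succ] at h1
    simp only [he, Fin.cons_zero, Fin.cons_succ] at h1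
    have h3 : ∑ i : Fin n, c i.succ 0 • f (u i) = 0 := by
      have h4 := congrArg f h1
      rw [map_add, map_smul, hfy, smul_zero, zero_add, map_sum, map_zero] at h4
      simpa only [map_smul] using h4
    rw [Fintype.linearIndependent_iff] at hli
    have h5 := hli _ h3
    simp only [h5, zero_smul, Finset.sum_const_zero, add_zero] at h1
    rcases smul_eq_zero.1 h1 with h6 | h6
    · exact hcne h6
    · exact hy0 h6
  refine ⟨fun i => r⁻¹ • w i, fun i => A.smul_mem _ (hwA i), ?_, fun i => ?_⟩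
  · show r⁻¹ • w 0 = y
    rw [hr, smul_smul, inv_mul_cancel₀ hr0, one_smul]
  · show f (r⁻¹ • w (i + 1)) + g (r⁻¹ • w i) = 0
    rw [map_smul, map_smul, ← smul_add, hfg, smul_zero]

/-- Coefficients of a polynomial curve in a subspace. -/
theorem coeff_mem [Infinite K] (W : Submodule K V) {N : ℕ} {v : ℕ → V}
    (h : ∀ t : K, ∑ i ∈ Finset.range N, t ^ i • v i ∈ W) : ∀ i < N, v i ∈ W := by
  intro i hi
  rw [← Submodule.Quotient.mk_eq_zero, ← Submodule.mkQ_apply]
  refine PF.coeff_zero (K := K) (N := N) (v := fun i => W.mkQ (v i)) (fun t => ?_) i hi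
  have h1 : ∑ i ∈ Finset.range N, t ^ i • W.mkQ (v i) = W.mkQ (∑ i ∈ Finset.range N, t ^ i • v i) := by
    rw [map_sum]
    exact Finset.sum_congr rfl fun i _ => (map_smul _ _ _).symm
  show ∑ i ∈ Finset.range N, t ^ i • W.mkQ (v i) = 0
  rw [h1, Submodule.mkQ_apply, Submodule.Quotient.mk_eq_zero]
  exact h t

theorem smul_mem' (A : Submodule K V) {c : K} {x : V} (hc : c ≠ 0) (h : c • x ∈ A) : x ∈ A :=
  (A.smul_mem_iff hc).1 h

theorem two_le (S : Submodule K V) [FiniteDimensional K S] {a b : V} (ha : a ∈ S) (hb : b ∈ S)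
    (h : LinearIndependent K ![a, b]) : 2 ≤ finrank K S := by
  have h1 : LinearIndependent K (![⟨a, ha⟩, ⟨b, hb⟩] : Fin 2 → S) := by
    apply LinearIndependent.of_comp S.subtype
    have : S.subtype ∘ (![⟨a, ha⟩, ⟨b, hb⟩] : Fin 2 → S) = ![a, b] := by
      funext i
      fin_cases i <;> rfl
    rw [this]
    exact h
  simpa using h1.fintype_card_le_finrank

theorem one_le (S : Submodule K V) [FiniteDimensional K S] {a : V} (ha : a ∈ S) (h : a ≠ 0) : 1 ≤ finrank K S :=
  Module.finrank_pos_iff_exists_ne_zero.2 ⟨⟨a, ha⟩, fun h1 => h (congrArg Subtype.val h1)⟩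

theorem pair_gen {x y : V} (hx : x ≠ 0) (h : ¬ LinearIndependent K ![x, y]) : ∃ a : K, y = a • x := by
  rw [LinearIndependent.pair_iff' hx] at h
  push Not at h
  obtain ⟨a, ha⟩ := h
  exact ⟨a, ha.symm⟩

theorem pair_zero {x y : V} (h : LinearIndependent K ![x, y]) {s t : K} (h1 : s • x - t • y = 0) : s = 0 ∧ t = 0 := by
  rw [LinearIndependent.pair_iff] at h
  obtain ⟨h2, h3⟩ := h s (-t) (by rw [neg_smul, ← sub_eq_add_neg]; exact h1)
  exact ⟨h2, neg_eq_zero.1 h3⟩

theorem scalar_eq {a b : K} {x : V} (hx : x ≠ 0) (h : a • x = b • x) : a = b := by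
  have h1 : (a - b) • x = 0 := by rw [sub_smul, h, sub_self]
  exact sub_eq_zero.1 ((smul_eq_zero.1 h1).resolve_right hx)

theorem neg_one_eq {a b : V} (h : a + b = 0) : b = (-1 : K) • a := by
  rw [neg_one_smul]
  exact eq_neg_of_add_eq_zero_right h

theorem fd_map (A : Submodule K V) [FiniteDimensional K A] (f : V →ₗ[K] W) : FiniteDimensional K (A.map f) :=
  inferInstance

theorem fd_le {S T : Submodule K V} [FiniteDimensional K T] (h : S ≤ T) : FiniteDimensional K S :=
  Submodule.finiteDimensional_of_le h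

theorem pair_ne {x y : V} (h : LinearIndependent K ![x, y]) : x ≠ 0 := by
  rintro rfl
  have h1 := (LinearIndependent.pair_iff.1 h) 1 0 (by simp)
  exact one_ne_zero h1.1

theorem sub_smul_mem (S : Submodule K V) {x y : V} (hx : x ∈ S) (hy : y ∈ S) (a b : K) : a • x - b • y ∈ S :=
  S.sub_mem (S.smul_mem _ hx) (S.smul_mem _ hy)

theorem mono' {S T : Submodule K V} [FiniteDimensional K T] (h : S ≤ T) : finrank K S ≤ finrank K T :=
  Submodule.finrank_mono h

end gen

/-! ### Functionals -/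

section functionals

variable {K : Type} [Field K]

theorem ct_pow_curve {l m : Fin 3 → K} {u : ℕ → D K} (h : ∀ i, ct (lf l) (u (i + 1)) + ct (lf m) (u i) = 0) (i : ℕ) :
    ct (lf m ^ i) (u 0) = (-1 : K) ^ i • ct (lf l ^ i) (u i) := by
  induction i with
  | zero => rw [pow_zero, pow_zero, pow_zero, ct_one, one_smul]
  | succ i ih =>
    have h1 : ct (lf m) (u i) = (-1 : K) • ct (lf l) (u (i + 1)) := neg_one_eq (h i)
    rw [pow_succ' (lf m), ct_mul, ih, map_smul, ct_comm, h1, map_smul, pow_succ' (lf l), ct_mul, ct_comm (lf l ^ i),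
      smul_smul, pow_succ]

theorem Sp_succ_mem {y : D K} {i : ℕ} {θ : D K} (hθ : θ ∈ Sp y i) (m : Fin 3 → K) : ct (lf m) θ ∈ Sp y (i + 1) :=
  (le_iSup (fun m : Fin 3 → K => (Sp y i).map (ct (lf m))) m) (Submodule.mem_map_of_mem hθ)

theorem Sp_succ_le {y : D K} {i : ℕ} {W : Submodule K (D K)} (h : ∀ m : Fin 3 → K, ∀ θ ∈ Sp y i, ct (lf m) θ ∈ W) :
    Sp y (i + 1) ≤ W :=
  iSup_le fun m => Submodule.map_le_iff_le_comap.2 fun θ hθ => h m θ hθ

/-- Polarisation. -/
theorem polar [CharZero K] (W : Submodule K (D K)) (y : D K) (i : ℕ) (h : ∀ m : Fin 3 → K, ct (lf m ^ i) y ∈ W) :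
    ∀ k ≤ i, ∀ θ ∈ Sp y k, ∀ m : Fin 3 → K, ct (lf m ^ (i - k)) θ ∈ W := by
  intro k
  induction k with
  | zero =>
    intro _ θ hθ m
    obtain ⟨c, rfl⟩ := Submodule.mem_span_singleton.1 (show θ ∈ Submodule.span K {y} from hθ)
    rw [map_smul]
    exact W.smul_mem _ (h m)
  | succ k ih =>
    intro hk
    have hle : ∀ m : Fin 3 → K, Sp y (k + 1) ≤ W.comap (ct (lf m ^ (i - (k + 1)))) := by
      intro m
      apply Sp_succ_le
      intro m' θ hθ
      show ct (lf m ^ (i - (k + 1))) (ct (lf m') θ) ∈ W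
      obtain ⟨n, hn⟩ : ∃ n, i - k = n + 1 := ⟨i - k - 1, by omega⟩
      rw [show i - (k + 1) = n by omega]
      have h1 : ∀ t : K, ∑ r ∈ Finset.range (n + 1 + 1), t ^ r •
          (((n + 1).choose r : K) • ct (lf m' ^ r * lf m ^ (n + 1 - r)) θ) ∈ W := by
        intro t
        have h2 := ih (by omega) θ hθ (t • m' + m)
        rw [hn, map_add, map_smul, add_pow, ct_sum] at h2
        refine (Submodule.mem_toAddSubgroup W).1 ?_ |> id
        have h3 : ∑ r ∈ Finset.range (n + 1 + 1), t ^ r •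
            (((n + 1).choose r : K) • ct (lf m' ^ r * lf m ^ (n + 1 - r)) θ) =
            ∑ r ∈ Finset.range (n + 1 + 1), ct ((t • lf m') ^ r * lf m ^ (n + 1 - r) *
              (((n + 1).choose r : ℕ) : MvPolynomial (Fin 3) K)) θ := by
          refine Finset.sum_congr rfl fun r _ => ?_
          rw [smul_pow, smul_mul_assoc, smul_mul_assoc, ct_smul]
          congr 1
          rw [← ct_smul]
          congr 2
          rw [MvPolynomial.smul_eq_C_mul, mul_comm]
          simp
        rw [h3]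
        exact h2
      have h4 := coeff_mem W h1 1 (by omega)
      rw [Nat.choose_one_right] at h4
      have h5 := smul_mem' W (by exact_mod_cast Nat.succ_ne_zero n) h4
      rw [pow_one, mul_comm, ct_mul, show n + 1 - 1 = n by omega] at h5
      exact h5
    intro θ hθ m
    exact hle m hθ

theorem Sp_le (y : D K) (i : ℕ) : ∀ n, y ∈ Dj (n + i) → Sp y i ≤ Dj n := by
  induction i with
  | zero =>
    intro n hy
    exact (Submodule.span_singleton_le_iff_mem _ _).2 hy
  | succ i ih =>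
    intro n hy
    have h1 := ih (n + 1) (by rw [show n + 1 + i = n + (i + 1) by ring]; exact hy)
    exact Sp_succ_le fun m θ hθ => ct_lf_mem m (h1 hθ)

theorem Sp_ker {y : D K} {l : Fin 3 → K} (h : ct (lf l) y = 0) (i : ℕ) : ∀ θ ∈ Sp y i, ct (lf l) θ = 0 := by
  induction i with
  | zero =>
    intro θ hθ
    obtain ⟨c, rfl⟩ := Submodule.mem_span_singleton.1 (show θ ∈ Submodule.span K {y} from hθ)
    rw [map_smul, h, smul_zero]
  | succ i ih =>
    have h1 : Sp y (i + 1) ≤ LinearMap.ker (ct (lf l)) := Sp_succ_le fun m θ hθ => by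
      rw [LinearMap.mem_ker, ct_comm, ih θ hθ, map_zero]
    exact fun θ hθ => LinearMap.mem_ker.1 (h1 hθ)

theorem telescope (A : Submodule K (D K)) [FiniteDimensional K A] (l : Fin 3 → K) (n : ℕ) :
    ∑ i ∈ Finset.range n, finrank K (A.map (ct (lf l ^ i)) ⊓ LinearMap.ker (ct (lf l)) : Submodule K (D K)) ≤
      finrank K A := by
  have h : ∑ i ∈ Finset.range n, finrank K (A.map (ct (lf l ^ i)) ⊓ LinearMap.ker (ct (lf l)) : Submodule K (D K)) +
      finrank K (A.map (ct (lf l ^ n))) = finrank K A := by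
    induction n with
    | zero =>
      have h0 : (ct (1 : MvPolynomial (Fin 3) K)) = LinearMap.id := LinearMap.ext fun θ => ct_one θ
      have h1 : A.map (ct (1 : MvPolynomial (Fin 3) K)) = A := by rw [h0, Submodule.map_id]
      rw [Finset.sum_range_zero, zero_add, pow_zero, h1]
    | succ n ih =>
      have h1 := finrank_map_ker (A.map (ct (lf l ^ n))) (ct (lf l))
      have h2 : (A.map (ct (lf l ^ n))).map (ct (lf l)) = A.map (ct (lf l ^ (n + 1))) := by
        rw [← Submodule.map_comp, pow_succ', ct_mul']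
      rw [h2] at h1
      rw [Finset.sum_range_succ]
      omega
  omega

theorem Sp_ne {j : ℕ} {y : D K} (hy : y ∈ Dj j) (hy0 : y ≠ 0) : ∀ i ≤ j, ∃ θ ∈ Sp y i, θ ≠ 0 := by
  intro i
  induction i with
  | zero => exact fun _ => ⟨y, Submodule.mem_span_singleton_self y, hy0⟩
  | succ i ih =>
    intro hi
    obtain ⟨θ, hθ, hθ0⟩ := ih (by omega)
    obtain ⟨n, hn⟩ : ∃ n, j = n + 1 + i := ⟨j - 1 - i, by omega⟩
    have h1 : θ ∈ Dj (n + 1) := Sp_le y i (n + 1) (hn ▸ hy) hθ
    obtain ⟨m, hm⟩ : ∃ m : Fin 3 → K, ct (lf m) θ ≠ 0 := by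
      by_contra h
      push Not at h
      exact hθ0 (eq_zero_of_lf h1 h)
    exact ⟨_, Sp_succ_mem hθ m, hm⟩

/-- Two dimensions. -/
theorem Sp_two {j : ℕ} {y : D K} (hy : y ∈ Dj j) (hnp : NP y) :
    ∀ i, 1 ≤ i → i + 1 ≤ j → ∃ a ∈ Sp y i, ∃ b ∈ Sp y i, LinearIndependent K ![a, b] := by
  intro i hi
  induction i, hi using Nat.le_induction with
  | base =>
    intro _
    obtain ⟨a, b, h⟩ := hnp
    have hy' : y ∈ Sp y 0 := Submodule.mem_span_singleton_self y
    exact ⟨_, Sp_succ_mem hy' a, _, Sp_succ_mem hy' b, h⟩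
  | succ i hi ih =>
    intro hij
    obtain ⟨a, ha, b, hb, hab⟩ := ih (by omega)
    obtain ⟨n, hn⟩ : ∃ n, j = n + 1 + 1 + i := ⟨j - 2 - i, by omega⟩
    have haD : a ∈ Dj (n + 1 + 1) := Sp_le y i _ (hn ▸ hy) ha
    have hbD : b ∈ Dj (n + 1 + 1) := Sp_le y i _ (hn ▸ hy) hb
    by_contra hcon
    push Not at hcon
    obtain ⟨m₀, hm₀⟩ : ∃ m : Fin 3 → K, ct (lf m) a ≠ 0 := by
      by_contra h
      push Not at h
      exact pair_ne hab (eq_zero_of_lf haD h)
    set w := ct (lf m₀) a with hw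
    have hwS : w ∈ Sp y (i + 1) := Sp_succ_mem ha m₀
    have hwD : w ∈ Dj (n + 1) := ct_lf_mem m₀ haD
    have hmul : ∀ θ ∈ Sp y (i + 1), ∃ c : K, θ = c • w := fun θ hθ => pair_gen hm₀ (hcon w hwS θ hθ)
    have hφ : ∀ m : Fin 3 → K, ∃ c : K, ct (lf m) a = c • w := fun m => hmul _ (Sp_succ_mem ha m)
    have hψ : ∀ m : Fin 3 → K, ∃ c : K, ct (lf m) b = c • w := fun m => hmul _ (Sp_succ_mem hb m)
    choose φ hφ using hφ
    choose ψ hψ using hψ
    obtain ⟨m₁, hm₁⟩ : ∃ m : Fin 3 → K, ct (lf m) w ≠ 0 := by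
      by_contra h
      push Not at h
      exact hm₀ (eq_zero_of_lf hwD h)
    have eφ : ∀ m m' : Fin 3 → K, φ m' • ct (lf m) w = φ m • ct (lf m') w := by
      intro m m'
      calc φ m' • ct (lf m) w = ct (lf m) (φ m' • w) := (map_smul _ _ _).symm
        _ = ct (lf m) (ct (lf m') a) := by rw [hφ m']
        _ = ct (lf m') (ct (lf m) a) := ct_comm _ _ _
        _ = ct (lf m') (φ m • w) := by rw [hφ m]
        _ = φ m • ct (lf m') w := map_smul _ _ _
    have eψ : ∀ m m' : Fin 3 → K, ψ m' • ct (lf m) w = ψ m • ct (lf m') w := by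
      intro m m'
      calc ψ m' • ct (lf m) w = ct (lf m) (ψ m' • w) := (map_smul _ _ _).symm
        _ = ct (lf m) (ct (lf m') b) := by rw [hψ m']
        _ = ct (lf m') (ct (lf m) b) := ct_comm _ _ _
        _ = ct (lf m') (ψ m • w) := by rw [hψ m]
        _ = ψ m • ct (lf m') w := map_smul _ _ _
    have hφ1 : φ m₁ ≠ 0 := by
      intro h
      have h1 := eφ m₀ m₁
      rw [h, zero_smul] at h1
      rcases smul_eq_zero.1 h1.symm with h2 | h2
      · have h3 := hφ m₀
        rw [h2, zero_smul] at h3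
        exact hm₀ h3
      · exact hm₁ h2
    have key : ∀ m : Fin 3 → K, ct (lf m) (ψ m₁ • a - φ m₁ • b) = 0 := by
      intro m
      have h1 : (ψ m₁ * φ m) • ct (lf m₁) w = (φ m₁ * ψ m) • ct (lf m₁) w := by
        rw [mul_smul, ← eφ m m₁, mul_smul, ← eψ m m₁, smul_comm]
      have h2 : ψ m₁ * φ m = φ m₁ * ψ m := scalar_eq hm₁ h1
      rw [map_sub, map_smul, map_smul, hφ, hψ, smul_smul, smul_smul, h2, sub_self]
    have hm : ψ m₁ • a - φ m₁ • b ∈ Dj (n + 1 + 1) := sub_smul_mem _ haD hbD _ _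
    have h0 := eq_zero_of_lf hm key
    exact hφ1 (pair_zero hab h0).2

end functionals

/-- Module K1. -/
theorem k1 : K1S := by
  intro K _ _ j hj A hA hinj l y ⟨hyA, hy0, hly, hker⟩
  have hfA : FiniteDimensional K A := fd_of_le hA
  have hmem : ∀ i, Sp y i ≤ A.map (ct (lf l ^ i)) := by
    intro i
    have h1 : ∀ m : Fin 3 → K, ct (lf m ^ i) y ∈ A.map (ct (lf l ^ i)) := by
      intro m
      obtain ⟨u, huA, hu0, hu⟩ := kernel_curve A (ct (lf l)) (ct (lf m)) y hyA hly hy0 hker (by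
        intro t
        have h2 := hinj (l + t • m)
        unfold Inj at h2
        push Not at h2
        obtain ⟨θ, hθA, hθ, hθ0⟩ := h2
        refine ⟨θ, hθA, hθ0, ?_⟩
        rw [map_add, map_smul, ct_add, ct_smul] at hθ
        exact hθ)
      rw [← hu0, ct_pow_curve hu i]
      exact Submodule.smul_mem _ _ (Submodule.mem_map_of_mem (huA i))
    intro θ hθ
    have h3 := polar _ y i h1 i le_rfl θ hθ 0
    rwa [Nat.sub_self, pow_zero, ct_one] at h3
  have hfd : ∀ i, FiniteDimensional K (A.map (ct (lf l ^ i))) := fun i => fd_map A _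
  have hfdS : ∀ i, FiniteDimensional K (Sp y i) := fun i => fd_le (hmem i)
  refine ⟨hmem, ?_, ?_, ?_⟩
  · refine (Finset.sum_le_sum fun i _ => ?_).trans (telescope A l (j + 1))
    have : FiniteDimensional K (A.map (ct (lf l ^ i)) ⊓ LinearMap.ker (ct (lf l)) : Submodule K (D K)) :=
      fd_le (T := A.map (ct (lf l ^ i))) inf_le_left
    exact mono' (le_inf (hmem i) fun θ hθ => LinearMap.mem_ker.2 (Sp_ker hly i θ hθ))
  · intro i hi
    obtain ⟨θ, hθ, hθ0⟩ := Sp_ne (hA hyA) hy0 i hi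
    exact one_le _ hθ hθ0
  · intro hnp i h1 h2
    obtain ⟨a, ha, b, hb, hab⟩ := Sp_two (hA hyA) hnp i h1 h2
    exact two_le _ ha hb hab

end Pool.Agent.T2.LC.K1
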