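import Pool.Agent.Lib.MP_c7af3c_ag.T2.LC.Defs

/-!
# MP_c7af3c_ag, T2, LEMMA C, module K2 (helper67)

If every linear form has a kernel of dimension at least 2 on `A ≤ D_j`, then `dim A ≥ 2 j + 1`.
The general linear algebra of functionals used here is in the namespace `K2`.
-/

set_option autoImplicit false

namespace Pool.Agent.T2.LC.K2

open MvPolynomial Module

variable {K : Type} [Field K]

lemma lf_apply (l : Fin 3 → K) : lf l = ∑ i, l i • (X i : MvPolynomial (Fin 3) K) := by
  simp [lf, LinearMap.sum_apply, LinearMap.smulRight_apply]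

lemma lf_single (i : Fin 3) : (lf (Pi.single i 1) : MvPolynomial (Fin 3) K) = X i := by
  rw [lf_apply]
  rw [Finset.sum_eq_single i]
  · simp
  · intro j _ hj
    simp [hj]
  · simp

lemma ct_apply (p g : MvPolynomial (Fin 3) K) (θ : D K) : ct p θ g = θ (p * g) := rfl

lemma ct_add (p q : MvPolynomial (Fin 3) K) (θ : D K) : ct (p + q) θ = ct p θ + ct q θ := by
  apply LinearMap.ext
  intro g
  simp [ct_apply, add_mul]

lemma ct_smul (c : K) (p : MvPolynomial (Fin 3) K) (θ : D K) : ct (c • p) θ = c • ct p θ := by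
  apply LinearMap.ext
  intro g
  simp [ct_apply]

lemma ct_zero (θ : D K) : ct (0 : MvPolynomial (Fin 3) K) θ = 0 := by
  apply LinearMap.ext
  intro g
  simp [ct_apply]

lemma ct_mul (p q : MvPolynomial (Fin 3) K) (θ : D K) : ct p (ct q θ) = ct (p * q) θ := by
  apply LinearMap.ext
  intro g
  simp only [ct_apply]
  congr 1
  ring

lemma ct_comm (p q : MvPolynomial (Fin 3) K) (θ : D K) : ct p (ct q θ) = ct q (ct p θ) := by
  rw [ct_mul, ct_mul, mul_comm]

/-- the map `l ↦ l θ` -/
noncomputable def mu (θ : D K) : (Fin 3 → K) →ₗ[K] D K where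
  toFun := fun a => ct (lf a) θ
  map_add' := by
    intro a b
    rw [map_add, ct_add]
  map_smul' := by
    intro c a
    rw [map_smul, ct_smul]
    rfl

/-- the linear forms killing a functional -/
noncomputable def ann (θ : D K) : Submodule K (Fin 3 → K) := LinearMap.ker (mu θ)

lemma mem_ann {θ : D K} {l : Fin 3 → K} : l ∈ ann θ ↔ ct (lf l) θ = 0 := Iff.rfl

/-- a functional of positive degree killed by all linear forms is zero -/
lemma eq_zero_of_ann {j : ℕ} (hj : 1 ≤ j) {θ : D K} (hθ : θ ∈ Dj j) (h : ann θ = ⊤) : θ = 0 := by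
  have hX : ∀ i : Fin 3, ct (X i) θ = 0 := by
    intro i
    have : Pi.single i 1 ∈ ann θ := by rw [h]; trivial
    rw [mem_ann, lf_single] at this
    exact this
  have hm : ∀ m : Fin 3 →₀ ℕ, θ (monomial m 1) = 0 := by
    intro m
    by_cases hd : m.degree = j
    · have hne : m ≠ 0 := by
        intro h0
        rw [h0] at hd
        simp at hd
        omega
      obtain ⟨i, hi⟩ : ∃ i, m i ≠ 0 := by
        by_contra hcon
        push Not at hcon
        exact hne (Finsupp.ext hcon)
      have h1 : Finsupp.single i 1 ≤ m := by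
        rw [Finsupp.single_le_iff]
        omega
      have h2 : (monomial m (1 : K)) = X i * monomial (m - Finsupp.single i 1) 1 := by
        rw [X, monomial_mul, mul_one, add_comm, tsub_add_cancel_of_le h1]
      rw [h2, ← ct_apply, hX i]
      rfl
    · exact hθ m hd
  apply (MvPolynomial.basisMonomials (Fin 3) K).ext
  intro m
  simpa using hm m

lemma ct_mem {j : ℕ} {θ : D K} (hθ : θ ∈ Dj (j + 1)) (l : Fin 3 → K) : ct (lf l) θ ∈ Dj j := by
  intro m hm
  rw [ct_apply, lf_apply, Finset.sum_mul, map_sum]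
  apply Finset.sum_eq_zero
  intro i _
  rw [smul_mul_assoc, map_smul]
  have : (X i : MvPolynomial (Fin 3) K) * monomial m 1 = monomial (m + Finsupp.single i 1) 1 := by
    rw [X, monomial_mul, mul_one, add_comm]
  rw [this, hθ]
  · simp
  · rw [map_add, Finsupp.degree_single]
    omega

/-- `Dj j` is finite dimensional -/
instance finDj (j : ℕ) : FiniteDimensional K (Dj (K := K) j) := by
  let s : Finset (Fin 3 →₀ ℕ) := Finset.finsuppAntidiag Finset.univ j
  let f : Dj (K := K) j →ₗ[K] (s → K) :=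
    { toFun := fun θ m => θ.1 (monomial m.1 1)
      map_add' := by intro a b; rfl
      map_smul' := by intro c a; rfl }
  refine FiniteDimensional.of_injective (V₂ := s → K) f ?_
  intro θ₁ θ₂ hθ
  apply Subtype.ext
  apply (MvPolynomial.basisMonomials (Fin 3) K).ext
  intro m
  simp only [coe_basisMonomials]
  by_cases hd : m.degree = j
  · have hm : m ∈ s := by
      simp only [s, Finset.mem_finsuppAntidiag]
      refine ⟨?_, by simp⟩
      rw [← hd, Finsupp.degree_eq_sum]
    exact congrFun hθ ⟨m, hm⟩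
  · rw [θ₁.2 m hd, θ₂.2 m hd]

lemma findim {j : ℕ} {A : Submodule K (D K)} (hA : A ≤ Dj j) : FiniteDimensional K A :=
  Submodule.finiteDimensional_of_le hA

/-- if `y` is pure (rank at most 1) then at least two independent forms kill it -/
lemma two_le_ann {y : D K} (hy : ¬ NP y) : 2 ≤ finrank K (ann y) := by
  have h3 : finrank K (LinearMap.range (mu y)) + finrank K (ann y) = 3 := by
    have := LinearMap.finrank_range_add_finrank_ker (mu y)
    rw [finrank_fin_fun] at this
    exact this
  have h1 : finrank K (LinearMap.range (mu y)) ≤ 1 := by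
    by_cases h0 : ∀ a, mu y a = 0
    · have : mu y = 0 := LinearMap.ext h0
      rw [this, LinearMap.range_zero]
      simp
    · push Not at h0
      obtain ⟨a, ha⟩ := h0
      apply finrank_le_one (⟨mu y a, LinearMap.mem_range_self _ a⟩ : LinearMap.range (mu y))
      rintro ⟨w, b, rfl⟩
      by_contra hcon
      apply hy
      refine ⟨a, b, (LinearIndependent.pair_iff' ha).mpr ?_⟩
      intro c hc
      exact hcon ⟨c, Subtype.ext hc⟩
  omega

lemma ct_pow_succ (n : Fin 3 → K) (k : ℕ) (w : D K) :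
    ct (lf n) (ct (lf n ^ k) w) = ct (lf n ^ (k + 1)) w := by
  rw [ct_mul, pow_succ']

lemma ct_pow_mem (n : Fin 3 → K) (k : ℕ) : ∀ (j : ℕ) {w : D K}, w ∈ Dj (j + k) →
    ct (lf n ^ k) w ∈ Dj j := by
  induction k with
  | zero =>
    intro j w hw
    have : ct (lf n ^ 0) w = w := by
      apply LinearMap.ext
      intro g
      simp [ct_apply]
    rw [this]
    exact hw
  | succ k ih =>
    intro j w hw
    rw [← ct_pow_succ]
    apply ct_mem
    apply ih
    have : j + 1 + k = j + (k + 1) := by ring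
    rw [this]
    exact hw

lemma ann_le_ct (p : MvPolynomial (Fin 3) K) (w : D K) : ann w ≤ ann (ct p w) := by
  intro l hl
  rw [mem_ann] at hl ⊢
  rw [ct_comm, hl, map_zero]

/-- a functional killed by a plane `P` of forms and by `n ^ j` is zero -/
lemma eq_zero_of_pow {j : ℕ} {w : D K} (hw : w ∈ Dj j) {P : Submodule K (Fin 3 → K)}
    (hP : P ≤ ann w) {n : Fin 3 → K} (hn : P ⊔ Submodule.span K {n} = ⊤)
    (h0 : ct (lf n ^ j) w = 0) : w = 0 := by
  have key : ∀ i k : ℕ, i + k = j → ct (lf n ^ k) w = 0 := by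
    intro i
    induction i with
    | zero =>
      intro k hk
      have : k = j := by omega
      rw [this]
      exact h0
    | succ i ih =>
      intro k hk
      have h1 : ct (lf n ^ (k + 1)) w = 0 := ih (k + 1) (by omega)
      have hmem : ct (lf n ^ k) w ∈ Dj (i + 1) := by
        apply ct_pow_mem
        rw [hk]
        exact hw
      apply eq_zero_of_ann (by omega) hmem
      rw [eq_top_iff, ← hn]
      apply sup_le
      · exact hP.trans (ann_le_ct _ _)
      · rw [Submodule.span_singleton_le_iff_mem, mem_ann, ct_pow_succ]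
        exact h1
  have := key j 0 (by omega)
  have h2 : ct (lf n ^ 0) w = w := by
    apply LinearMap.ext
    intro g
    simp [ct_apply]
  rw [h2] at this
  exact this

lemma dj_zero {w : D K} (hw : w ∈ Dj 0) (h : w 1 = 0) : w = 0 := by
  apply (MvPolynomial.basisMonomials (Fin 3) K).ext
  intro m
  simp only [coe_basisMonomials, LinearMap.zero_apply]
  by_cases hd : m.degree = 0
  · have : m = 0 := by
      rw [Finsupp.degree_eq_zero_iff] at hd
      exact hd
    rw [this]
    exact h
  · exact hw m hd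

/-- two functionals killed by a common plane of forms are proportional -/
lemma dep_of_common {j : ℕ} {y₁ y₂ : D K} (h₁ : y₁ ∈ Dj j) (h₂ : y₂ ∈ Dj j)
    (hne : y₁ ≠ 0) (hdim : 2 ≤ finrank K (ann y₁ ⊓ ann y₂ : Submodule K (Fin 3 → K))) :
    ∃ c : K, y₂ = c • y₁ := by
  classical
  set P := ann y₁ ⊓ ann y₂ with hPdef
  obtain ⟨n, hn⟩ : ∃ n : Fin 3 → K, P ⊔ Submodule.span K {n} = ⊤ := by
    by_cases hP : P = ⊤
    · exact ⟨0, by rw [hP]; simp⟩
    · obtain ⟨n, hnP⟩ : ∃ n, n ∉ P := by
        by_contra hcon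
        push Not at hcon
        exact hP (eq_top_iff.mpr fun x _ => hcon x)
      refine ⟨n, ?_⟩
      apply Submodule.eq_top_of_finrank_eq
      have hlt : P < P ⊔ Submodule.span K {n} := by
        rw [left_lt_sup]
        intro hle
        exact hnP (hle (Submodule.mem_span_singleton_self n))
      have h1 := Submodule.finrank_lt_finrank_of_lt hlt
      have h2 : finrank K (P ⊔ Submodule.span K {n} : Submodule K (Fin 3 → K)) ≤
          finrank K (Fin 3 → K) := Submodule.finrank_le _
      rw [finrank_fin_fun] at h2 ⊢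
      omega
  have hz : ∀ w : D K, w ∈ Dj j → P ≤ ann w → ct (lf n ^ j) w 1 = 0 → w = 0 := by
    intro w hw hPw h1
    apply eq_zero_of_pow hw hPw hn
    apply dj_zero _ h1
    apply ct_pow_mem
    rw [zero_add]
    exact hw
  have hc : ct (lf n ^ j) y₁ 1 ≠ 0 := by
    intro h0
    exact hne (hz y₁ h₁ inf_le_left h0)
  refine ⟨ct (lf n ^ j) y₂ 1 / ct (lf n ^ j) y₁ 1, ?_⟩
  rw [← sub_eq_zero]
  apply hz
  · exact Submodule.sub_mem _ h₂ (Submodule.smul_mem _ _ h₁)
  · intro l hl
    rw [mem_ann, map_sub, map_smul, mem_ann.mp hl.1, mem_ann.mp hl.2]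
    simp
  · rw [map_sub, map_smul]
    simp only [LinearMap.sub_apply, LinearMap.smul_apply, smul_eq_mul]
    field_simp
    ring

/-- a space of dimension at least 2 contains a functional which is not pure -/
lemma exists_np {j : ℕ} (hj : 2 ≤ j) {Y : Submodule K (D K)} (hY : Y ≤ Dj j)
    (hdim : 2 ≤ finrank K Y) : ∃ y ∈ Y, y ≠ 0 ∧ NP y := by
  classical
  by_contra hcon
  push Not at hcon
  have hfY : FiniteDimensional K Y := findim hY
  obtain ⟨y₁, hy₁, hne₁⟩ : ∃ y ∈ Y, y ≠ 0 := by
    by_contra hc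
    push Not at hc
    have : Y = ⊥ := by
      rw [eq_bot_iff]
      intro y hy
      rw [Submodule.mem_bot]
      exact hc y hy
    rw [this, finrank_bot] at hdim
    omega
  obtain ⟨y₂, hy₂, hind⟩ : ∃ y ∈ Y, y ∉ Submodule.span K {y₁} := by
    by_contra hc
    push Not at hc
    have h1 : finrank K Y ≤ finrank K (Submodule.span K {y₁}) := Submodule.finrank_mono hc
    rw [finrank_span_singleton hne₁] at h1
    omega
  have hne₂ : y₂ ≠ 0 := by
    intro h0
    apply hind
    rw [h0]
    exact Submodule.zero_mem _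
  have hn₁ := hcon y₁ hy₁ hne₁
  have hn₂ := hcon y₂ hy₂ hne₂
  have hd₁ := two_le_ann hn₁
  have hd₂ := two_le_ann hn₂
  by_cases h2 : 2 ≤ finrank K (ann y₁ ⊓ ann y₂ : Submodule K (Fin 3 → K))
  · obtain ⟨c, hc⟩ := dep_of_common (hY hy₁) (hY hy₂) hne₁ h2
    exact hind (Submodule.mem_span_singleton.mpr ⟨c, hc.symm⟩)
  · have htop : ann y₁ ⊔ ann y₂ = ⊤ := by
      apply Submodule.eq_top_of_finrank_eq
      have h1 := Submodule.finrank_sup_add_finrank_inf_eq (ann y₁) (ann y₂)
      have h3 : finrank K (ann y₁ ⊔ ann y₂ : Submodule K (Fin 3 → K)) ≤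
          finrank K (Fin 3 → K) := Submodule.finrank_le _
      rw [finrank_fin_fun] at h3 ⊢
      omega
    have hnot₁ : ¬ ann y₁ ≤ ann y₂ := by
      intro hle
      rw [inf_eq_left.mpr hle] at h2
      exact h2 hd₁
    have hnot₂ : ¬ ann y₂ ≤ ann y₁ := by
      intro hle
      rw [inf_eq_right.mpr hle] at h2
      exact h2 hd₂
    obtain ⟨m₁, hm₁, hm₁'⟩ := Set.not_subset.mp hnot₁
    obtain ⟨m₂, hm₂, hm₂'⟩ := Set.not_subset.mp hnot₂
    change m₁ ∈ ann y₁ at hm₁
    change m₁ ∉ ann y₂ at hm₁'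
    change m₂ ∈ ann y₂ at hm₂
    change m₂ ∉ ann y₁ at hm₂'
    rw [mem_ann] at hm₁ hm₁' hm₂ hm₂'
    have hD : ∀ y ∈ Y, ∀ m : Fin 3 → K, ct (lf m) y ∈ Dj (j - 1) := by
      intro y hy m
      apply ct_mem
      have : j - 1 + 1 = j := by omega
      rw [this]
      exact hY hy
    have hu0 : ∀ c : K, ct (lf m₁) y₂ ≠ c • ct (lf m₂) y₁ := by
      intro c hc
      apply hm₁'
      apply eq_zero_of_ann (j := j - 1) (by omega) (hD _ hy₂ _)
      rw [eq_top_iff, ← htop]
      apply sup_le
      · intro a ha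
        rw [mem_ann, hc, map_smul, mem_ann.mp (ann_le_ct _ _ ha), smul_zero]
      · exact ann_le_ct _ _
    have hy : y₁ + y₂ ∈ Y := Y.add_mem hy₁ hy₂
    have hNP : NP (y₁ + y₂) := by
      refine ⟨m₂, m₁, ?_⟩
      rw [map_add, map_add, hm₁, hm₂, add_zero, zero_add]
      refine (LinearIndependent.pair_iff' hm₂').mpr ?_
      intro c hc
      exact hu0 c hc.symm
    apply hcon _ hy _ hNP
    intro h0
    obtain ⟨a, b, hab⟩ := hNP
    have := hab.ne_zero 0
    apply this
    simp [h0]

end Pool.Agent.T2.LC.K2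

namespace Pool.Agent.T2.LC

open MvPolynomial Module K2

/-- Module K2 -/
theorem k2 (hK1 : K1S) : K2S := by
  intro K _ _ j hj A hA hker
  classical
  have : FiniteDimensional K A := findim hA
  set N : (Fin 3 → K) → Submodule K (D K) := fun l => A ⊓ LinearMap.ker (ct (lf l)) with hN
  have hfN : ∀ l, FiniteDimensional K (N l) := fun l =>
    Submodule.finiteDimensional_of_le (inf_le_left : N l ≤ A)
  obtain ⟨l₀, hmin⟩ : ∃ l₀, ∀ l, finrank K (N l₀) ≤ finrank K (N l) := by
    obtain ⟨l₀, h⟩ := (Nat.find_spec (p := fun n => ∃ l, finrank K (N l) = n) ⟨_, 0, rfl⟩ :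
      ∃ l, finrank K (N l) = Nat.find (p := fun n => ∃ l, finrank K (N l) = n) ⟨_, 0, rfl⟩)
    refine ⟨l₀, fun l => ?_⟩
    rw [h]
    exact Nat.find_min' _ ⟨l, rfl⟩
  set κ := finrank K (N l₀) with hκ
  have hκ2 : 2 ≤ κ := hker l₀
  obtain ⟨y, hyN, hy0, hNP⟩ := exists_np hj (Y := N l₀) (inf_le_left.trans hA) hκ2
  -- the smaller space
  have hyle : Submodule.span K {y} ≤ N l₀ := by
    rw [Submodule.span_singleton_le_iff_mem]
    exact hyN
  obtain ⟨C, hC1, hC2⟩ := IsModularLattice.exists_disjoint_and_sup_eq hyle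
  obtain ⟨A'', hA''1, hA''2⟩ := hC1.exists_isCompl
  set A' := A'' ⊓ A with hA'
  have hCN : C ≤ N l₀ := by rw [← hC2]; exact le_sup_right
  have hCA : C ≤ A := hCN.trans inf_le_left
  have hsup : A' ⊔ C = A := by
    rw [hA', inf_comm, inf_sup_assoc_of_le _ hCA, hA''2.sup_eq_top, inf_top_eq]
  have hinf : A' ⊓ C = ⊥ := by
    rw [eq_bot_iff, hA']
    calc A'' ⊓ A ⊓ C ≤ A'' ⊓ C := inf_le_inf_right _ inf_le_left
      _ = ⊥ := hA''2.inf_eq_bot
  have hA'A : A' ≤ A := inf_le_right
  have : FiniteDimensional K A' := Submodule.finiteDimensional_of_le hA'A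
  have : FiniteDimensional K C := Submodule.finiteDimensional_of_le hCA
  have hfA : finrank K A' + finrank K C = finrank K A := by
    have := Submodule.finrank_sup_add_finrank_inf_eq A' C
    rw [hsup, hinf, finrank_bot] at this
    omega
  have hfC : finrank K C + 1 = κ := by
    have := hfN l₀
    have := Submodule.finrank_sup_add_finrank_inf_eq (Submodule.span K {y}) C
    rw [hC2, hC1.eq_bot, finrank_bot, finrank_span_singleton hy0] at this
    omega
  have hyA' : y ∈ A' := ⟨hA''1 (Submodule.mem_span_singleton_self y), hyN.1⟩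
  have hK : Ker1 A' l₀ y := by
    refine ⟨hyA', hy0, hyN.2, ?_⟩
    intro θ hθ hθ0
    have h1 : θ ∈ N l₀ := ⟨hθ.2, hθ0⟩
    have h2 : A'' ⊓ N l₀ = Submodule.span K {y} := by
      rw [← hC2, inf_comm, sup_inf_assoc_of_le _ hA''1, inf_comm, hA''2.inf_eq_bot, sup_bot_eq]
    have h3 : θ ∈ A'' ⊓ N l₀ := ⟨hθ.1, h1⟩
    rw [h2, Submodule.mem_span_singleton] at h3
    obtain ⟨c, hc⟩ := h3
    exact ⟨c, hc.symm⟩
  have hnon : ∀ l, ¬ Inj A' (lf l) := by
    intro l hinj
    have := hfN l
    have h1 := Submodule.finrank_sup_add_finrank_inf_eq A' (N l)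
    have h2 : finrank K (A' ⊔ N l : Submodule K (D K)) ≤ finrank K A :=
      Submodule.finrank_mono (sup_le hA'A inf_le_left)
    have h3 : A' ⊓ N l = ⊥ := by
      rw [eq_bot_iff]
      intro θ hθ
      rw [Submodule.mem_bot]
      exact hinj θ hθ.1 hθ.2.2
    rw [h3, finrank_bot] at h1
    have h4 := hmin l
    omega
  obtain ⟨_, hsum, hone, htwo⟩ := hK1 K j hj A' (hA'A.trans hA) hnon l₀ y hK
  have htwo := htwo hNP
  have hlow : 2 * j ≤ ∑ i ∈ Finset.range (j + 1), finrank K (Sp y i) := by
    obtain ⟨j', rfl⟩ : ∃ j', j = j' + 1 := ⟨j - 1, by omega⟩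
    rw [Finset.sum_range_succ, Finset.sum_range_succ']
    have h1 : ∑ i ∈ Finset.range j', 2 ≤ ∑ i ∈ Finset.range j', finrank K (Sp y (i + 1)) := by
      apply Finset.sum_le_sum
      intro i hi
      rw [Finset.mem_range] at hi
      exact htwo (i + 1) (by omega) (by omega)
    rw [Finset.sum_const, Finset.card_range, smul_eq_mul] at h1
    have h2 := hone 0 (by omega)
    have h3 := hone (j' + 1) (by omega)
    omega
  omega

end Pool.Agent.T2.LC
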