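import Pool.Agent.Lib.MP_c7af3c_ag.T2.LC.Lines

/-!
# LEMMA C: ranks of contractions, openness (helper13)
-/

set_option autoImplicit false

namespace Pool.Agent.T2.LC

open MvPolynomial Module

variable {K : Type} [Field K]

theorem map_mul (A : Submodule K (D K)) (p q : MvPolynomial (Fin 3) K) :
    A.map (ct (p * q)) = (A.map (ct p)).map (ct q) := by
  rw [← Submodule.map_comp, mul_comm, ct_mul']

theorem map_comm (A : Submodule K (D K)) (p q : MvPolynomial (Fin 3) K) :
    (A.map (ct p)).map (ct q) = (A.map (ct q)).map (ct p) := by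
  rw [← map_mul, ← map_mul, mul_comm]

theorem mem_map_of {A : Submodule K (D K)} {θ : D K} (h : θ ∈ A) (p : MvPolynomial (Fin 3) K) :
    ct p θ ∈ A.map (ct p) := ⟨θ, h, rfl⟩

theorem inj_iff_ker {A : Submodule K (D K)} [FiniteDimensional K A] {p : MvPolynomial (Fin 3) K} :
    Inj A p ↔ finrank K (A ⊓ LinearMap.ker (ct p) : Submodule K (D K)) = 0 := by
  have : FiniteDimensional K (A ⊓ LinearMap.ker (ct p) : Submodule K (D K)) :=
    Submodule.finiteDimensional_of_le inf_le_left
  rw [Submodule.finrank_eq_zero, eq_bot_iff]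
  constructor
  · rintro h θ ⟨h1, h2⟩
    exact h θ h1 h2
  · intro h θ h1 h2
    exact h ⟨h1, h2⟩

theorem inj_iff_rank {A : Submodule K (D K)} [FiniteDimensional K A]
    {p : MvPolynomial (Fin 3) K} : Inj A p ↔ finrank K A ≤ finrank K (A.map (ct p)) := by
  rw [inj_iff_ker]
  have := finrank_map_ker A (ct p)
  omega

theorem rank_le (A : Submodule K (D K)) [FiniteDimensional K A] (p : MvPolynomial (Fin 3) K) :
    finrank K (A.map (ct p)) ≤ finrank K A := by
  have := finrank_map_ker A (ct p)
  omega

theorem card_le_of_li {r : ℕ} {W : Submodule K (D K)} [FiniteDimensional K W] {w : Fin r → D K}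
    (hw : ∀ i, w i ∈ W) (hli : LinearIndependent K w) : r ≤ finrank K W := by
  have h1 := finrank_span_eq_card hli
  rw [Fintype.card_fin] at h1
  rw [← h1]
  refine Submodule.finrank_mono ?_
  rw [Submodule.span_le]
  rintro _ ⟨i, rfl⟩
  exact hw i

theorem exists_li_gen {V : Type} [AddCommGroup V] [Module K V] {r : ℕ} {W : Submodule K V}
    (h : r ≤ finrank K W) : ∃ w : Fin r → V, (∀ i, w i ∈ W) ∧ LinearIndependent K w := by
  obtain ⟨w, hw⟩ := exists_linearIndependent_of_le_finrank (R := K) (M := W) h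
  exact ⟨fun i => w i, fun i => (w i).2, hw.map' W.subtype (Submodule.ker_subtype W)⟩

theorem exists_li_of_le {r : ℕ} {W : Submodule K (D K)} (h : r ≤ finrank K W) :
    ∃ w : Fin r → D K, (∀ i, w i ∈ W) ∧ LinearIndependent K w := exists_li_gen h

/-- a family of polynomials which is polynomial along lines -/
def PL {E : Type} [AddCommGroup E] [Module K E] (P : E → MvPolynomial (Fin 3) K) : Prop :=
  ∀ a b : E, PF (K := K) fun t => P (a + t • b)

section pl

variable {E : Type} [AddCommGroup E] [Module K E]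

theorem PL.lf (f : E →ₗ[K] (Fin 3 → K)) : PL (K := K) fun x => lf (f x) := by
  intro a b
  have := (PF.line a b).map (LC.lf ∘ₗ f)
  exact this

theorem PL.const (p : MvPolynomial (Fin 3) K) : PL (K := K) fun _ : E => p :=
  fun _ _ => PF.const p

theorem PL.mul {P Q : E → MvPolynomial (Fin 3) K} (hP : PL (K := K) P) (hQ : PL (K := K) Q) :
    PL (K := K) fun x => P x * Q x :=
  fun a b => (hP a b).bilin (hQ a b) (LinearMap.mul K _)

theorem pf_open {A B : Submodule K (D K)} [FiniteDimensional K A] [FiniteDimensional K B]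
    {p : K → MvPolynomial (Fin 3) K} (hp : PF p) {r : ℕ} {t₀ : K}
    (h : r ≤ finrank K (B ⊔ A.map (ct (p t₀)) : Submodule K (D K))) :
    {t | ¬ r ≤ finrank K (B ⊔ A.map (ct (p t)) : Submodule K (D K))}.Finite := by
  obtain ⟨w, hw, hli⟩ := exists_li_of_le h
  have : ∀ i, ∃ b ∈ B, ∃ a ∈ A, w i = b + ct (p t₀) a := by
    intro i
    obtain ⟨b, hb, c, hc, h1⟩ := Submodule.mem_sup.mp (hw i)
    obtain ⟨a, ha, rfl⟩ := hc
    exact ⟨b, hb, a, ha, h1.symm⟩
  choose b hb a ha hab using this
  have hli' : LinearIndependent K (fun i => b i + ct (p t₀) (a i)) := by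
    convert hli using 1
    funext i; exact (hab i).symm
  have hPF : ∀ i, PF (fun t => b i + ct (p t) (a i)) := fun i =>
    (PF.const _).add (hp.map (ctB.flip (a i)))
  refine (li_open hPF hli').subset fun t ht => ?_
  simp only [Set.mem_ofPred_eq] at ht ⊢
  intro hc
  apply ht
  refine card_le_of_li (fun i => ?_) hc
  exact Submodule.add_mem_sup (hb i) (mem_map_of (ha i) _)

theorem lopen_sup {A B : Submodule K (D K)} [FiniteDimensional K A] [FiniteDimensional K B]
    {P : E → MvPolynomial (Fin 3) K} (hP : PL (K := K) P) (r : ℕ) :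
    LOpen (K := K) fun x => r ≤ finrank K (B ⊔ A.map (ct (P x)) : Submodule K (D K)) := by
  intro a b h
  refine pf_open (hP a b) (t₀ := 0) ?_
  rw [zero_smul, add_zero]
  exact h

theorem lopen_rank {A : Submodule K (D K)} [FiniteDimensional K A]
    {P : E → MvPolynomial (Fin 3) K} (hP : PL (K := K) P) (r : ℕ) :
    LOpen (K := K) fun x => r ≤ finrank K (A.map (ct (P x))) := by
  intro a b h
  have h2 := lopen_sup (A := A) (B := ⊥) hP r a b (by beta_reduce; rw [bot_sup_eq]; exact h)
  refine h2.subset fun t ht => ?_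
  simp only [Set.mem_ofPred_eq] at ht ⊢
  rw [bot_sup_eq]
  exact ht

theorem lopen_inj {A : Submodule K (D K)} [FiniteDimensional K A]
    {P : E → MvPolynomial (Fin 3) K} (hP : PL (K := K) P) :
    LOpen (K := K) fun x => Inj A (P x) := by
  simp only [inj_iff_rank]
  exact lopen_rank hP _

theorem lopen_li {V : Type} [AddCommGroup V] [Module K V] {n : ℕ} (f : Fin n → E → V)
    (hf : ∀ i a b, PF (K := K) fun t => f i (a + t • b)) :
    LOpen (K := K) fun x => LinearIndependent K (fun i => f i x) := by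
  intro a b h
  refine li_open (v := fun i t => f i (a + t • b)) (fun i => hf i a b) (t₀ := 0) ?_
  simp only [zero_smul, add_zero]
  exact h

end pl

end Pool.Agent.T2.LC
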