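import Pool.Agent.Lib.MP_c7af3c_ag.T2.LC.Defs2
import Pool.Agent.Lib.MP_c7af3c_ag.T2.LC.K1
import Pool.Agent.Lib.MP_c7af3c_ag.T2.LC.K2
import Pool.Agent.Lib.MP_c7af3c_ag.T2.LC.Rank
import Pool.Agent.Lib.MP_c7af3c_ag.T2.LC.AB
import Pool.Agent.Lib.MP_c7af3c_ag.EDGE.H65.NoFactor

/-!
# LEMMA C, cases (c1), (c2): five general lines give the conic (helper67)
-/

set_option autoImplicit false

namespace Pool.Agent.T2.LC.E5

open MvPolynomial Module

variable {K : Type} [Field K]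

/-! ### quadratic forms -/

/-- every quadratic form is a combination of products of two linear forms -/
theorem hom2_mem {A : MvPolynomial (Fin 3) K} (hA : A.IsHomogeneous 2) :
    A ∈ Submodule.span K {p : MvPolynomial (Fin 3) K | ∃ m m' : Fin 3 → K, p = lf m * lf m'} := by
  have h1 : A ∈ (homogeneousSubmodule (Fin 3) K 1) ^ 2 := by
    rw [homogeneousSubmodule_one_pow]; exact hA
  rw [pow_two, homogeneousSubmodule_one_eq_span_X, Submodule.span_mul_span] at h1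
  refine Submodule.span_mono ?_ h1
  rintro _ ⟨_, ⟨i, rfl⟩, _, ⟨j, rfl⟩, rfl⟩
  exact ⟨Pi.single i 1, Pi.single j 1, by rw [lf_single, lf_single]⟩

/-- coordinates of a quadratic form in a basis of the linear forms -/
theorem expand {l : Fin 3 → Fin 3 → K} (hl : LinearIndependent K l) {A : MvPolynomial (Fin 3) K}
    (hA : A.IsHomogeneous 2) : ∃ c : Fin 3 × Fin 3 → K, A = ∑ p, c p • (lf (l p.1) * lf (l p.2)) := by
  have hsp : Submodule.span K (Set.range l) = ⊤ := by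
    apply hl.span_eq_top_of_card_eq_finrank'
    simp
  have h1 : ∀ m : Fin 3 → K, ∃ c : Fin 3 → K, lf m = ∑ i, c i • lf (l i) := by
    intro m
    have hm : m ∈ Submodule.span K (Set.range l) := hsp ▸ Submodule.mem_top
    obtain ⟨c, hc⟩ := (Submodule.mem_span_range_iff_exists_fun K).1 hm
    exact ⟨c, by rw [← hc, map_sum]; simp only [map_smul]⟩
  have h2 : Submodule.span K {p : MvPolynomial (Fin 3) K | ∃ m m' : Fin 3 → K, p = lf m * lf m'} ≤
      Submodule.span K (Set.range fun p : Fin 3 × Fin 3 => lf (l p.1) * lf (l p.2)) := by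
    rw [Submodule.span_le]
    rintro _ ⟨m, m', rfl⟩
    obtain ⟨c, hc⟩ := h1 m
    obtain ⟨c', hc'⟩ := h1 m'
    rw [hc, hc', Finset.sum_mul, SetLike.mem_coe]
    refine Submodule.sum_mem _ fun i _ => ?_
    rw [Finset.mul_sum]
    refine Submodule.sum_mem _ fun j _ => ?_
    rw [smul_mul_smul_comm]
    exact Submodule.smul_mem _ _ (Submodule.subset_span ⟨(i, j), rfl⟩)
  obtain ⟨c, hc⟩ := (Submodule.mem_span_range_iff_exists_fun K).1 (h2 (hom2_mem hA))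
  exact ⟨c, hc.symm⟩

/-- the six coordinates -/
theorem expand6 {a b c : Fin 3 → K} (hl : LinearIndependent K ![a, b, c]) {A : MvPolynomial (Fin 3) K}
    (hA : A.IsHomogeneous 2) : ∃ x11 x12 x13 x22 x23 x33 : K,
      A = x22 • (lf b * lf b) + (x11 • (lf a * lf a) + x12 • (lf a * lf b) + x13 • (lf a * lf c) +
        x23 • (lf b * lf c) + x33 • (lf c * lf c)) := by
  obtain ⟨x, hx⟩ := expand hl hA
  refine ⟨x (0, 0), x (0, 1) + x (1, 0), x (0, 2) + x (2, 0), x (1, 1), x (1, 2) + x (2, 1), x (2, 2), ?_⟩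
  rw [hx, Fintype.sum_prod_type]
  simp only [Fin.sum_univ_three, Matrix.cons_val_zero, Matrix.cons_val_one, Matrix.cons_val_two,
    Matrix.head_cons, Matrix.tail_cons]
  simp only [MvPolynomial.smul_eq_C_mul, map_add]
  ring

/-- a quadratic form applied to `y` lies in `S² y` -/
theorem hom2_Sp {A : MvPolynomial (Fin 3) K} (hA : A.IsHomogeneous 2) (y : D K) : ct A y ∈ Sp y 2 := by
  have h1 : Submodule.span K {p : MvPolynomial (Fin 3) K | ∃ m m' : Fin 3 → K, p = lf m * lf m'} ≤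
      (Sp y 2).comap (ctB.flip y) := by
    rw [Submodule.span_le]
    rintro _ ⟨m, m', rfl⟩
    show ct (lf m * lf m') y ∈ Sp y 2
    rw [ct_mul]
    exact K1.Sp_succ_mem (K1.Sp_succ_mem (Submodule.mem_span_singleton_self y) m') m
  exact h1 (hom2_mem hA)

/-- a space of dimension at most 5 is killed by a quadratic form -/
theorem quadric_ann {W : Submodule K (D K)} (hW : W ≤ Dj 2) (h5 : finrank K W ≤ 5) :
    ∃ A : MvPolynomial (Fin 3) K, A ≠ 0 ∧ A.IsHomogeneous 2 ∧ ∀ θ ∈ W, ct A θ = 0 := by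
  have hfW : FiniteDimensional K W := fd_of_le hW
  have hS : finrank K (homogeneousSubmodule (Fin 3) K 2) = 6 := Edge.H65.finrank_hom3 K 2
  have hfS : FiniteDimensional K (homogeneousSubmodule (Fin 3) K 2) :=
    Module.finite_of_finrank_pos (by rw [hS]; norm_num)
  let f : (homogeneousSubmodule (Fin 3) K 2) →ₗ[K] Module.Dual K W :=
    { toFun := fun A => { toFun := fun θ => (θ : D K) A.1
                          map_add' := fun a b => rfl
                          map_smul' := fun c a => rfl }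
      map_add' := fun a b => LinearMap.ext fun θ => map_add (θ : D K) a.1 b.1
      map_smul' := fun c a => LinearMap.ext fun θ => map_smul (θ : D K) c a.1 }
  have hfD : FiniteDimensional K (Module.Dual K W) :=
    Subspace.instModuleDualFiniteDimensional (K := K) (V := W)
  have hker : LinearMap.ker f ≠ ⊥ := by
    apply LinearMap.ker_ne_bot_of_finrank_lt
    have hD : finrank K (Module.Dual K W) = finrank K W := Subspace.dual_finrank_eq (K := K) (V := W)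
    rw [hD, hS]
    omega
  obtain ⟨A, hA, hA0⟩ := (Submodule.ne_bot_iff _).1 hker
  refine ⟨A.1, fun h => hA0 (Subtype.ext h), A.2, fun θ hθ => ?_⟩
  refine K2.dj_zero (ct_mem_Dj A.2 (j := 0) (hW hθ)) ?_
  rw [ct_apply, mul_one]
  exact LinearMap.congr_fun (LinearMap.mem_ker.1 hA) ⟨θ, hθ⟩

/-! ### pure functionals -/

/-- independent forms do not both kill a functional which is not pure -/
theorem np_absurd {w : D K} (hw : NP w) {a b : Fin 3 → K} (hab : LinearIndependent K ![a, b])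
    (ha : ct (lf a) w = 0) (hb : ct (lf b) w = 0) : False := by
  obtain ⟨m, m', hm⟩ := hw
  let f : (Fin 3 → K) →ₗ[K] D K := (ctB.flip w) ∘ₗ lf
  have hf : ∀ m, f m = ct (lf m) w := fun m => rfl
  have h1 : 2 ≤ finrank K (LinearMap.ker f) := by
    refine K1.two_le (K := K) (LinearMap.ker f) (a := a) (b := b) ?_ ?_ hab
    · rw [LinearMap.mem_ker, hf, ha]
    · rw [LinearMap.mem_ker, hf, hb]
  have h2 : 2 ≤ finrank K (LinearMap.range f) :=
    K1.two_le (K := K) (LinearMap.range f) ⟨m, hf m⟩ ⟨m', hf m'⟩ hm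
  have h3 := LinearMap.finrank_range_add_finrank_ker f
  rw [Module.finrank_fin_fun] at h3
  omega

/-- a nonzero form and an independent form -/
theorem np_ker {w : D K} (hw : NP w) {a b c : Fin 3 → K} (hl : LinearIndependent K ![a, b, c])
    (ha : ct (lf a) w = 0) {s t : K} (h : ct (s • lf b + t • lf c) w = 0) : s = 0 ∧ t = 0 := by
  by_contra hcon
  have h1 : ct (lf (s • b + t • c)) w = 0 := by rw [map_add, map_smul, map_smul]; exact h
  refine np_absurd hw (a := a) (b := s • b + t • c) ?_ ha h1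
  rw [LinearIndependent.pair_iff]
  intro x y hxy
  have h2 := Fintype.linearIndependent_iff.1 hl ![x, y * s, y * t] (by
    rw [Fin.sum_univ_three]
    simp only [Matrix.cons_val_zero, Matrix.cons_val_one, Matrix.cons_val_two,
      Matrix.head_cons, Matrix.tail_cons]
    rw [← hxy, smul_add, smul_smul, smul_smul, add_assoc])
  have hx : x = 0 := h2 0
  have hs : y * s = 0 := h2 1
  have ht : y * t = 0 := h2 2
  refine ⟨hx, ?_⟩
  by_contra hy
  exact hcon ⟨(mul_eq_zero.1 hs).resolve_left hy, (mul_eq_zero.1 ht).resolve_left hy⟩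

theorem np_ne {w : D K} (hw : NP w) : w ≠ 0 := by
  rintro rfl
  obtain ⟨a, b, h⟩ := hw
  exact h.ne_zero 0 (map_zero _)

/-- purity goes down -/
theorem np_of_ct {w : D K} {l : Fin 3 → K} (h : NP (ct (lf l) w)) : NP w := by
  obtain ⟨a, b, hab⟩ := h
  refine ⟨a, b, ?_⟩
  rw [LinearIndependent.pair_iff] at hab ⊢
  intro s t hst
  apply hab
  have := congrArg (ct (lf l)) hst
  rw [map_add, map_smul, map_smul, map_zero] at this
  rw [ct_comm (lf a), ct_comm (lf b)]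
  exact this

/-! ### three kernel vectors determine the quadratic form -/

theorem tri_zero {a b c : Fin 3 → K} (hl : LinearIndependent K ![a, b, c]) {y1 y2 y3 : D K}
    (h1 : ct (lf a) y1 = 0) (h2 : ct (lf b) y2 = 0) (h3 : ct (lf c) y3 = 0)
    (n13 : NP (ct (lf a) y3)) (n31 : NP (ct (lf c) y1)) (n12 : NP (ct (lf a) y2))
    {x11 x12 x13 x23 x33 : K} {B : MvPolynomial (Fin 3) K}
    (hB : B = x11 • (lf a * lf a) + x12 • (lf a * lf b) + x13 • (lf a * lf c) +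
        x23 • (lf b * lf c) + x33 • (lf c * lf c))
    (k1 : ct B y1 = 0) (k2 : ct B y2 = 0) (k3 : ct B y3 = 0) : B = 0 := by
  have e3 : x11 = 0 ∧ x12 = 0 := by
    refine np_ker n13 (li_cab hl) (by rw [ct_comm, h3, map_zero]) ?_
    have e : B = (x11 • lf a + x12 • lf b) * lf a + (x13 • lf a + x23 • lf b + x33 • lf c) * lf c := by
      rw [hB]
      simp only [MvPolynomial.smul_eq_C_mul]
      ring
    rw [e, ct_add, ct_mul, ct_mul, h3, map_zero, add_zero] at k3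
    exact k3
  have e1 : x23 = 0 ∧ x33 = 0 := by
    refine np_ker n31 hl (by rw [ct_comm, h1, map_zero]) ?_
    have e : B = (x23 • lf b + x33 • lf c) * lf c + (x11 • lf a + x12 • lf b + x13 • lf c) * lf a := by
      rw [hB]
      simp only [MvPolynomial.smul_eq_C_mul]
      ring
    rw [e, ct_add, ct_mul, ct_mul, h1, map_zero, add_zero] at k1
    exact k1
  obtain ⟨rfl, rfl⟩ := e3
  obtain ⟨rfl, rfl⟩ := e1
  have e2 : x13 = 0 ∧ (0 : K) = 0 := by
    refine np_ker n12 (li_bca hl) (by rw [ct_comm, h2, map_zero]) ?_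
    have e : B = (x13 • lf c + (0 : K) • lf a) * lf a := by
      rw [hB]
      simp only [MvPolynomial.smul_eq_C_mul, map_zero]
      ring
    rw [e, ct_mul] at k2
    exact k2
  rw [hB, e2.1]
  simp only [zero_smul, add_zero]

theorem tri {a b c : Fin 3 → K} (hl : LinearIndependent K ![a, b, c]) {y1 y2 y3 : D K}
    (h1 : ct (lf a) y1 = 0) (h2 : ct (lf b) y2 = 0) (h3 : ct (lf c) y3 = 0)
    (n13 : NP (ct (lf a) y3)) (n31 : NP (ct (lf c) y1)) (n12 : NP (ct (lf a) y2))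
    {A A' : MvPolynomial (Fin 3) K} (hA : A.IsHomogeneous 2) (hA' : A'.IsHomogeneous 2) (hA0 : A ≠ 0)
    (k1 : ct A y1 = 0) (k2 : ct A y2 = 0) (k3 : ct A y3 = 0)
    (k1' : ct A' y1 = 0) (k2' : ct A' y2 = 0) (k3' : ct A' y3 = 0) : ∃ t : K, A' = t • A := by
  obtain ⟨x11, x12, x13, x22, x23, x33, hx⟩ := expand6 hl hA
  obtain ⟨z11, z12, z13, z22, z23, z33, hz⟩ := expand6 hl hA'
  have hx22 : x22 ≠ 0 := by
    rintro rfl
    rw [zero_smul, zero_add] at hx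
    exact hA0 (tri_zero hl h1 h2 h3 n13 n31 n12 hx k1 k2 k3)
  have h0 : x22 • A' - z22 • A = 0 := by
    refine tri_zero hl h1 h2 h3 n13 n31 n12 (x11 := x22 * z11 - z22 * x11) (x12 := x22 * z12 - z22 * x12)
      (x13 := x22 * z13 - z22 * x13) (x23 := x22 * z23 - z22 * x23) (x33 := x22 * z33 - z22 * x33) ?_ ?_ ?_ ?_
    · rw [hx, hz]
      simp only [MvPolynomial.smul_eq_C_mul, map_sub, C_mul]
      ring
    · rw [ct_sub, ct_smul, ct_smul, k1, k1', smul_zero, smul_zero, sub_zero]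
    · rw [ct_sub, ct_smul, ct_smul, k2, k2', smul_zero, smul_zero, sub_zero]
    · rw [ct_sub, ct_smul, ct_smul, k3, k3', smul_zero, smul_zero, sub_zero]
  refine ⟨x22⁻¹ * z22, ?_⟩
  rw [mul_smul, ← sub_eq_zero.1 h0, smul_smul, inv_mul_cancel₀ hx22, one_smul]

/-! ### the lemma ONE -/

theorem Sp_ct (y : D K) (l : Fin 3 → K) (i : ℕ) : Sp (ct (lf l) y) i ≤ (Sp y i).map (ct (lf l)) := by
  induction i with
  | zero =>
    refine (Submodule.span_singleton_le_iff_mem _ _).2 ?_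
    exact ⟨y, Submodule.mem_span_singleton_self y, rfl⟩
  | succ i ih =>
    refine K1.Sp_succ_le fun m θ hθ => ?_
    obtain ⟨θ', hθ', rfl⟩ := ih hθ
    exact ⟨ct (lf m) θ', K1.Sp_succ_mem hθ' m, ct_comm _ _ _⟩

theorem one {y : D K} (hy : y ∈ Dj 4) (h2 : finrank K (Sp y 2) ≤ 2) {l : Fin 3 → K}
    (hn : NP (ct (lf l) y)) {A : MvPolynomial (Fin 3) K} (hA : A.IsHomogeneous 2)
    (h : ct (A * lf l) y = 0) : ct A y = 0 := by
  by_contra hne
  have hS : Sp y 2 ≤ Dj 2 := K1.Sp_le y 2 2 hy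
  have hfS : FiniteDimensional K (Sp y 2) := fd_of_le hS
  have hrk := finrank_map_ker (Sp y 2) (ct (lf l))
  have hk : 1 ≤ finrank K (Sp y 2 ⊓ LinearMap.ker (ct (lf l)) : Submodule K (D K)) := by
    have : FiniteDimensional K (Sp y 2 ⊓ LinearMap.ker (ct (lf l)) : Submodule K (D K)) :=
      K1.fd_le inf_le_left
    refine K1.one_le (K := K) (a := ct A y) _ ⟨hom2_Sp hA y, ?_⟩ hne
    rw [SetLike.mem_coe, LinearMap.mem_ker, ← ct_mul, mul_comm]
    exact h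
  have hm : 2 ≤ finrank K ((Sp y 2).map (ct (lf l))) := by
    obtain ⟨a, ha, b, hb, hab⟩ := K1.Sp_two (j := 3) (ct_lf_mem l hy) hn 2 (by norm_num) (by norm_num)
    exact K1.two_le (K := K) _ (Sp_ct y l 2 ha) (Sp_ct y l 2 hb) hab
  omega

/-- two steps -/
theorem eq_zero_two {y : D K} (hy : y ∈ Dj 2) (h : ∀ m m' : Fin 3 → K, ct (lf m) (ct (lf m') y) = 0) :
    y = 0 :=
  eq_zero_of_lf hy fun m' => eq_zero_of_lf (ct_lf_mem m' hy) fun m => h m m'

/-! ### the data of one kernel vector -/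

theorem kq [CharZero K] (hK : K1S) {U : Submodule K (D K)} (hU : U ≤ Dj 6) (h8 : finrank K U = 8)
    (hno : ∀ l₁ l₂ l₃ : Fin 3 → K, ¬ Inj U (lf l₁ * lf l₂ * lf l₃)) {a b c h : Fin 3 → K}
    (hinj : Inj U (lf a * lf b)) (hnp : NPc U a b c (lf h)) {u : D K} (hu : u ∈ U) (hu0 : u ≠ 0)
    (hk : ct (lf a * lf b * lf c) u = 0) :
    (∀ m, ct (lf m) (ct (lf a * lf b) u) ∈ U.map (ct (lf a * lf b * lf c))) ∧
    finrank K (Sp (ct (lf a * lf b) u) 2) ≤ 2 ∧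
    ∃ A : MvPolynomial (Fin 3) K, A ≠ 0 ∧ A.IsHomogeneous 2 ∧
      (∀ θ ∈ U, ct (A * lf c) (ct (lf a * lf b * lf c) θ) = 0) ∧ ct A (ct (lf a * lf b) u) = 0 := by
  obtain ⟨V, hVd⟩ : ∃ V : Submodule K (D K), V = U.map (ct (lf a * lf b)) := ⟨_, rfl⟩
  obtain ⟨y, hyd⟩ : ∃ y : D K, y = ct (lf a * lf b) u := ⟨_, rfl⟩
  have hV : V ≤ Dj 4 := by
    rw [hVd]
    exact map_ct_le ((lf_hom a).mul (lf_hom b)) hU
  have hfV : FiniteDimensional K V := fd_of_le hV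
  have hV8 : finrank K V = 8 := by
    rw [hVd, ← h8]
    exact AB.map_finrank_of_inj (K := K) (V := D K) U (ct (lf a * lf b)) hinj
  have hT : U.map (ct (lf a * lf b * lf c)) = V.map (ct (lf c)) := by rw [hVd, map_mul]
  have hVn : ∀ l : Fin 3 → K, ¬ Inj V (lf l) := by
    intro l hI
    apply hno a b l
    intro θ hθ h0
    apply hinj θ hθ
    refine hI _ (hVd ▸ ⟨θ, hθ, rfl⟩) ?_
    rw [← ct_mul, mul_comm]
    exact h0
  have hyV : y ∈ V := by rw [hVd, hyd]; exact ⟨u, hu, rfl⟩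
  have hy4 : y ∈ Dj 4 := hV hyV
  have hy0 : y ≠ 0 := fun h => hu0 (hinj u hu (hyd ▸ h))
  have hyc : ct (lf c) y = 0 := by rw [hyd, ← ct_mul, mul_comm]; exact hk
  rw [← hyd, hT]
  have hr := finrank_map_ker V (ct (lf c))
  have h7 : 7 ≤ finrank K (V.map (ct (lf c))) := by rw [← hT]; exact hnp.1
  have hfk : FiniteDimensional K (V ⊓ LinearMap.ker (ct (lf c)) : Submodule K (D K)) := K1.fd_le inf_le_left
  have hk1 : 1 ≤ finrank K (V ⊓ LinearMap.ker (ct (lf c)) : Submodule K (D K)) :=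
    K1.one_le (K := K) (a := y) _ ⟨hyV, hyc⟩ hy0
  have hker : Ker1 V c y := by
    refine ⟨hyV, hy0, hyc, fun θ hθ h0 => ?_⟩
    by_contra hcon
    push Not at hcon
    have hli : LinearIndependent K ![y, θ] := by
      by_contra hli
      obtain ⟨r, hr⟩ := K1.pair_gen hy0 hli
      exact hcon r hr
    have : 2 ≤ finrank K (V ⊓ LinearMap.ker (ct (lf c)) : Submodule K (D K)) :=
      K1.two_le (K := K) _ ⟨hyV, hyc⟩ ⟨hθ, h0⟩ hli
    omega
  have hnpy : NP y := by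
    have h1 := hnp.2 u hu hu0 hk
    rw [ct_mul, ← hyd] at h1
    exact np_of_ct h1
  obtain ⟨k1, k2, k3, k4⟩ := hK K 4 (by norm_num) V hV hVn c y hker
  have k4' := k4 hnpy
  have s0 := k3 0 (by norm_num)
  have s4 := k3 4 (by norm_num)
  have s1 := k4' 1 (by norm_num) (by norm_num)
  have s3 := k4' 3 (by norm_num) (by norm_num)
  rw [hV8, Finset.sum_range_succ, Finset.sum_range_succ, Finset.sum_range_succ, Finset.sum_range_succ,
    Finset.sum_range_succ, Finset.sum_range_zero] at k2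
  have hS1 : Sp y 1 ≤ V.map (ct (lf c)) := by have := k1 1; rwa [pow_one] at this
  have hS2 : Sp y 2 ≤ (V.map (ct (lf c))).map (ct (lf c)) := by
    have := k1 2
    rwa [pow_two, map_mul] at this
  have hTD : V.map (ct (lf c)) ≤ Dj 3 := map_lf_le c hV
  have hWD : (V.map (ct (lf c))).map (ct (lf c)) ≤ Dj 2 := map_lf_le c hTD
  have hfT : FiniteDimensional K (V.map (ct (lf c))) := fd_of_le hTD
  have hW5 : finrank K ((V.map (ct (lf c))).map (ct (lf c))) ≤ 5 := by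
    have hr2 := finrank_map_ker (V.map (ct (lf c))) (ct (lf c))
    have hfk2 : FiniteDimensional K (V.map (ct (lf c)) ⊓ LinearMap.ker (ct (lf c)) : Submodule K (D K)) :=
      K1.fd_le inf_le_left
    have : Sp y 1 ≤ V.map (ct (lf c)) ⊓ LinearMap.ker (ct (lf c)) := fun θ hθ =>
      ⟨hS1 hθ, K1.Sp_ker hyc 1 θ hθ⟩
    have := K1.mono' (K := K) this
    omega
  refine ⟨fun m => hS1 (K1.Sp_succ_mem (Submodule.mem_span_singleton_self y) m), by omega, ?_⟩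
  obtain ⟨A, hA0, hA, hAW⟩ := quadric_ann hWD hW5
  refine ⟨A, hA0, hA, fun θ hθ => ?_, ?_⟩
  · rw [ct_mul]
    refine hAW _ ⟨_, ?_, rfl⟩
    rw [← hT]
    exact ⟨θ, hθ, rfl⟩
  · refine eq_zero_two (ct_mem_Dj hA (j := 2) hy4) fun m m' => ?_
    rw [ct_comm _ A, ct_comm _ A]
    exact hAW _ (hS2 (K1.Sp_succ_mem (K1.Sp_succ_mem (Submodule.mem_span_singleton_self y) m') m))

/-! ### triples of lines -/

/-- a triple of general lines -/
structure Tr (U : Submodule K (D K)) (a b c : Fin 3 → K) : Prop where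
  li : LinearIndependent K ![a, b, c]
  i12 : Inj U (lf a * lf b)
  i13 : Inj U (lf a * lf c)
  i23 : Inj U (lf b * lf c)
  n3a : NPc U a b c (lf a)
  n3b : NPc U a b c (lf b)
  n2a : NPc U a c b (lf a)
  n2c : NPc U a c b (lf c)
  n1b : NPc U b c a (lf b)
  n1c : NPc U b c a (lf c)

theorem kill {y : D K} (hy : y ∈ Dj 4) {U : Submodule K (D K)} {g q : MvPolynomial (Fin 3) K} {i : ℕ}
    (hq : q.IsHomogeneous i) (hi : i ≤ 3) (hm : ∀ m, ct (lf m) y ∈ U.map (ct g))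
    (hqk : ∀ θ ∈ U, ct q (ct g θ) = 0) : ct q y = 0 := by
  obtain ⟨n, hn⟩ : ∃ n, 4 = n + 1 + i := ⟨3 - i, by omega⟩
  refine eq_zero_of_lf (j := n) (ct_mem_Dj hq (hn ▸ hy)) fun m => ?_
  rw [ct_comm]
  obtain ⟨θ, hθ, he⟩ := hm m
  rw [← he]
  exact hqk θ hθ

theorem tr_main [CharZero K] (hK : K1S) {U : Submodule K (D K)} (hU : U ≤ Dj 6) (h8 : finrank K U = 8)
    (hno : ∀ l₁ l₂ l₃ : Fin 3 → K, ¬ Inj U (lf l₁ * lf l₂ * lf l₃)) {a b c : Fin 3 → K}
    (ht : Tr U a b c) :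
    (∃ q : MvPolynomial (Fin 3) K, q ≠ 0 ∧ q.IsHomogeneous 2 ∧
      ∀ θ ∈ U, ct q (ct (lf a * lf b * lf c) θ) = 0) ∧
    (∀ q q' : MvPolynomial (Fin 3) K, q ≠ 0 → q.IsHomogeneous 2 → q'.IsHomogeneous 2 →
      (∀ θ ∈ U, ct q (ct (lf a * lf b * lf c) θ) = 0) →
      (∀ θ ∈ U, ct q' (ct (lf a * lf b * lf c) θ) = 0) → ∃ t : K, q' = t • q) := by
  have e2 : lf a * lf c * lf b = lf a * lf b * lf c := by ring
  have e1 : lf b * lf c * lf a = lf a * lf b * lf c := by ring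
  obtain ⟨u, hu, hk, hu0⟩ : ∃ u ∈ U, ct (lf a * lf b * lf c) u = 0 ∧ u ≠ 0 := by
    have := hno a b c
    unfold Inj at this
    push Not at this
    exact this
  have hk2 : ct (lf a * lf c * lf b) u = 0 := by rw [e2]; exact hk
  have hk1 : ct (lf b * lf c * lf a) u = 0 := by rw [e1]; exact hk
  obtain ⟨m3, s3, A3, A30, A3h, A3k, A3y⟩ := kq hK hU h8 hno ht.i12 ht.n3a hu hu0 hk
  obtain ⟨m2, s2, A2, A20, A2h, A2k, A2y⟩ := kq hK hU h8 hno ht.i13 ht.n2a hu hu0 hk2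
  obtain ⟨m1, s1, A1, A10, A1h, A1k, A1y⟩ := kq hK hU h8 hno ht.i23 ht.n1b hu hu0 hk1
  rw [e2] at m2 A2k
  rw [e1] at m1 A1k
  have n3a := ht.n3a.2 u hu hu0 hk
  have n3b := ht.n3b.2 u hu hu0 hk
  have n2a := ht.n2a.2 u hu hu0 hk2
  have n2c := ht.n2c.2 u hu hu0 hk2
  have n1b := ht.n1b.2 u hu hu0 hk1
  have n1c := ht.n1c.2 u hu hu0 hk1
  rw [ct_mul] at n3a n3b n2a n2c n1b n1c
  have c3 : ct (lf c) (ct (lf a * lf b) u) = 0 := by rw [← ct_mul, mul_comm]; exact hk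
  have c2 : ct (lf b) (ct (lf a * lf c) u) = 0 := by rw [← ct_mul, mul_comm]; exact hk2
  have c1 : ct (lf a) (ct (lf b * lf c) u) = 0 := by rw [← ct_mul, mul_comm]; exact hk1
  have d3 : ct (lf a * lf b) u ∈ Dj 4 := ct_mem_Dj ((lf_hom a).mul (lf_hom b)) (hU hu)
  have d2 : ct (lf a * lf c) u ∈ Dj 4 := ct_mem_Dj ((lf_hom a).mul (lf_hom c)) (hU hu)
  have d1 : ct (lf b * lf c) u ∈ Dj 4 := ct_mem_Dj ((lf_hom b).mul (lf_hom c)) (hU hu)
  constructor
  · have k32 : ct A3 (ct (lf a * lf c) u) = 0 :=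
      one d2 s2 n2c A3h (kill d2 (A3h.mul (lf_hom c)) (by norm_num) m2 A3k)
    have k31 : ct A3 (ct (lf b * lf c) u) = 0 :=
      one d1 s1 n1c A3h (kill d1 (A3h.mul (lf_hom c)) (by norm_num) m1 A3k)
    have k23 : ct A2 (ct (lf a * lf b) u) = 0 :=
      one d3 s3 n3b A2h (kill d3 (A2h.mul (lf_hom b)) (by norm_num) m3 A2k)
    have k21 : ct A2 (ct (lf b * lf c) u) = 0 :=
      one d1 s1 n1b A2h (kill d1 (A2h.mul (lf_hom b)) (by norm_num) m1 A2k)
    have k13 : ct A1 (ct (lf a * lf b) u) = 0 :=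
      one d3 s3 n3a A1h (kill d3 (A1h.mul (lf_hom a)) (by norm_num) m3 A1k)
    have k12 : ct A1 (ct (lf a * lf c) u) = 0 :=
      one d2 s2 n2a A1h (kill d2 (A1h.mul (lf_hom a)) (by norm_num) m2 A1k)
    obtain ⟨t2, h2⟩ := tri ht.li c1 c2 c3 n3a n1c n2a A2h A3h A20 k21 A2y k23 k31 k32 A3y
    obtain ⟨t1, h1⟩ := tri ht.li c1 c2 c3 n3a n1c n2a A1h A3h A10 A1y k12 k13 k31 k32 A3y
    refine ⟨A3, A30, A3h, fun θ hθ => ?_⟩
    have hD : ct A3 (ct (lf a * lf b * lf c) θ) ∈ Dj 1 :=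
      ct_mem_Dj A3h (j := 1) (ct_mem_Dj (((lf_hom a).mul (lf_hom b)).mul (lf_hom c)) (j := 3) (hU hθ))
    refine eq_zero_of_indep hD ht.li ?_ ?_ ?_
    · have := A1k θ hθ
      rw [h1, ct_smul, map_smul, ct_comm (lf a) A1, ← ct_mul A1 (lf a), this, smul_zero]
    · have := A2k θ hθ
      rw [h2, ct_smul, map_smul, ct_comm (lf b) A2, ← ct_mul A2 (lf b), this, smul_zero]
    · rw [ct_comm, ← ct_mul]
      exact A3k θ hθ
  · intro q q' hq0 hq hq' hqk hqk'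
    exact tri ht.li c1 c2 c3 n3a n1c n2a hq hq' hq0
      (kill d1 hq (by norm_num) m1 hqk) (kill d2 hq (by norm_num) m2 hqk) (kill d3 hq (by norm_num) m3 hqk)
      (kill d1 hq' (by norm_num) m1 hqk') (kill d2 hq' (by norm_num) m2 hqk') (kill d3 hq' (by norm_num) m3 hqk')

/-! ### pairs of lines -/

/-- the data of a pair and a third line -/
theorem pair_data [CharZero K] (hK : K1S) {U : Submodule K (D K)} (hU : U ≤ Dj 6) (h8 : finrank K U = 8)
    (hno : ∀ l₁ l₂ l₃ : Fin 3 → K, ¬ Inj U (lf l₁ * lf l₂ * lf l₃)) {a b c : Fin 3 → K}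
    (ht : Tr U a b c) : ∃ (y : D K) (q : MvPolynomial (Fin 3) K), y ∈ U.map (ct (lf a * lf b)) ∧
      y ∈ Dj 4 ∧ ct (lf c) y = 0 ∧ finrank K (Sp y 2) ≤ 2 ∧
      (∀ h, NPc U a b c h → NP (ct h y)) ∧ q ≠ 0 ∧ q.IsHomogeneous 2 ∧ ct q y = 0 ∧
      ∀ θ ∈ U.map (ct (lf a * lf b)), ct (q * lf c) θ = 0 := by
  obtain ⟨u, hu, hk, hu0⟩ : ∃ u ∈ U, ct (lf a * lf b * lf c) u = 0 ∧ u ≠ 0 := by
    have := hno a b c
    unfold Inj at this
    push Not at this
    exact this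
  obtain ⟨m3, s3, -⟩ := kq hK hU h8 hno ht.i12 ht.n3a hu hu0 hk
  obtain ⟨⟨q, q0, qh, hq⟩, -⟩ := tr_main hK hU h8 hno ht
  have d3 : ct (lf a * lf b) u ∈ Dj 4 := ct_mem_Dj ((lf_hom a).mul (lf_hom b)) (hU hu)
  refine ⟨ct (lf a * lf b) u, q, ⟨u, hu, rfl⟩, d3, ?_, s3, ?_, q0, qh, kill d3 qh (by norm_num) m3 hq, ?_⟩
  · rw [← ct_mul, mul_comm]; exact hk
  · intro h hh
    have := hh.2 u hu hu0 hk
    rwa [ct_mul] at this
  · rintro _ ⟨θ, hθ, rfl⟩
    rw [ct_mul, ← ct_mul (lf c), mul_comm (lf c)]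
    exact hq θ hθ

theorem pair_main [CharZero K] (hK : K1S) {U : Submodule K (D K)} (hU : U ≤ Dj 6) (h8 : finrank K U = 8)
    (hno : ∀ l₁ l₂ l₃ : Fin 3 → K, ¬ Inj U (lf l₁ * lf l₂ * lf l₃)) {a b c1 c2 c3 : Fin 3 → K}
    (hl : LinearIndependent K ![c1, c2, c3]) (t1 : Tr U a b c1) (t2 : Tr U a b c2) (t3 : Tr U a b c3)
    (n12 : NPc U a b c1 (lf c2)) (n13 : NPc U a b c1 (lf c3)) (n21 : NPc U a b c2 (lf c1))
    (n23 : NPc U a b c2 (lf c3)) (n31 : NPc U a b c3 (lf c1)) (n32 : NPc U a b c3 (lf c2)) :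
    ∃ q : MvPolynomial (Fin 3) K, q ≠ 0 ∧ q.IsHomogeneous 2 ∧ ∀ θ ∈ U, ct q (ct (lf a * lf b) θ) = 0 := by
  obtain ⟨y1, q1, y1V, y1D, y1c, y1s, y1n, q10, q1h, q1y, q1V⟩ := pair_data hK hU h8 hno t1
  obtain ⟨y2, q2, y2V, y2D, y2c, y2s, y2n, q20, q2h, q2y, q2V⟩ := pair_data hK hU h8 hno t2
  obtain ⟨y3, q3, y3V, y3D, y3c, y3s, y3n, q30, q3h, q3y, q3V⟩ := pair_data hK hU h8 hno t3
  have m12 := y1n _ n12
  have m13 := y1n _ n13
  have m21 := y2n _ n21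
  have m23 := y2n _ n23
  have m31 := y3n _ n31
  have m32 := y3n _ n32
  have k12 : ct q1 y2 = 0 := one y2D y2s m21 q1h (q1V _ y2V)
  have k13 : ct q1 y3 = 0 := one y3D y3s m31 q1h (q1V _ y3V)
  have k21 : ct q2 y1 = 0 := one y1D y1s m12 q2h (q2V _ y1V)
  have k23 : ct q2 y3 = 0 := one y3D y3s m32 q2h (q2V _ y3V)
  have k31 : ct q3 y1 = 0 := one y1D y1s m13 q3h (q3V _ y1V)
  have k32 : ct q3 y2 = 0 := one y2D y2s m23 q3h (q3V _ y2V)
  obtain ⟨r2, h2⟩ := tri hl y1c y2c y3c m31 m13 m21 q2h q1h q20 k21 q2y k23 q1y k12 k13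
  obtain ⟨r3, h3⟩ := tri hl y1c y2c y3c m31 m13 m21 q3h q1h q30 k31 k32 q3y q1y k12 k13
  refine ⟨q1, q10, q1h, fun θ hθ => ?_⟩
  have hV : ct (lf a * lf b) θ ∈ U.map (ct (lf a * lf b)) := ⟨θ, hθ, rfl⟩
  have hD : ct q1 (ct (lf a * lf b) θ) ∈ Dj 2 :=
    ct_mem_Dj q1h (j := 2) (ct_mem_Dj ((lf_hom a).mul (lf_hom b)) (j := 4) (hU hθ))
  refine eq_zero_of_indep hD hl ?_ ?_ ?_
  · rw [ct_comm (lf c1) q1, ← ct_mul q1 (lf c1)]
    exact q1V _ hV
  · rw [h2, ct_smul, map_smul, ct_comm (lf c2) q2, ← ct_mul q2 (lf c2), q2V _ hV, smul_zero]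
  · rw [h3, ct_smul, map_smul, ct_comm (lf c3) q3, ← ct_mul q3 (lf c3), q3V _ hV, smul_zero]

/-! ### the five lines -/

theorem five_tr {U : Submodule K (D K)} {L : Fin 5 → Fin 3 → K} (h : Five U L) {i j k : Fin 5}
    (hij : i ≠ j) (hik : i ≠ k) (hjk : j ≠ k) : Tr U (L i) (L j) (L k) where
  li := h.li i j k hij hik hjk
  i12 := h.inj i j hij
  i13 := h.inj i k hik
  i23 := h.inj j k hjk
  n3a := h.np i j k i hij hik hjk hik
  n3b := h.np i j k j hij hik hjk hjk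
  n2a := h.np i k j i hik hij hjk.symm hij
  n2c := h.np i k j k hik hij hjk.symm hjk.symm
  n1b := h.np j k i j hjk hij.symm hik.symm hij.symm
  n1c := h.np j k i k hjk hij.symm hik.symm hik.symm

theorem others2 : ∀ i j : Fin 5, i ≠ j → ∃ k1 k2 k3 : Fin 5, i ≠ k1 ∧ i ≠ k2 ∧ i ≠ k3 ∧ j ≠ k1 ∧ j ≠ k2 ∧
    j ≠ k3 ∧ k1 ≠ k2 ∧ k1 ≠ k3 ∧ k2 ≠ k3 := by
  have h : ∀ i j : Fin 5, i ≠ j → ∃ k1 k2 k3 : Fin 5, [i, j, k1, k2, k3].Nodup := by decide
  intro i j hij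
  obtain ⟨k1, k2, k3, hk⟩ := h i j hij
  refine ⟨k1, k2, k3, ?_⟩
  simp only [List.nodup_cons, List.mem_cons, List.not_mem_nil, or_false, not_or, not_false_eq_true,
    List.nodup_nil, and_true] at hk
  tauto

theorem others1 : ∀ i : Fin 5, ∃ k1 k2 k3 : Fin 5, i ≠ k1 ∧ i ≠ k2 ∧ i ≠ k3 ∧
    k1 ≠ k2 ∧ k1 ≠ k3 ∧ k2 ≠ k3 := by decide

/-- Part END5 of LEMMA C. -/
theorem e5 : End5S := by
  intro hK K _ _ U hU h8 hno L hL
  have hpair : ∀ i j : Fin 5, i ≠ j → ∃ q : MvPolynomial (Fin 3) K, q ≠ 0 ∧ q.IsHomogeneous 2 ∧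
      ∀ θ ∈ U, ct q (ct (lf (L i) * lf (L j)) θ) = 0 := by
    intro i j hij
    obtain ⟨k1, k2, k3, i1, i2, i3, j1, j2, j3, k12, k13, k23⟩ := others2 i j hij
    exact pair_main hK hU h8 hno (hL.li k1 k2 k3 k12 k13 k23) (five_tr hL hij i1 j1) (five_tr hL hij i2 j2)
      (five_tr hL hij i3 j3) (hL.np i j k1 k2 hij i1 j1 k12.symm) (hL.np i j k1 k3 hij i1 j1 k13.symm)
      (hL.np i j k2 k1 hij i2 j2 k12) (hL.np i j k2 k3 hij i2 j2 k23.symm)
      (hL.np i j k3 k1 hij i3 j3 k13) (hL.np i j k3 k2 hij i3 j3 k23)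
  obtain ⟨q, q0, qh, hq01⟩ := hpair 0 1 (by decide)
  have sym : ∀ i j : Fin 5, (∀ θ ∈ U, ct q (ct (lf (L i) * lf (L j)) θ) = 0) →
      ∀ θ ∈ U, ct q (ct (lf (L j) * lf (L i)) θ) = 0 := by
    intro i j h θ hθ
    rw [mul_comm]
    exact h θ hθ
  have step : ∀ i j k : Fin 5, i ≠ j → i ≠ k → j ≠ k → (∀ θ ∈ U, ct q (ct (lf (L i) * lf (L j)) θ) = 0) →
      ∀ θ ∈ U, ct q (ct (lf (L i) * lf (L k)) θ) = 0 := by
    intro i j k hij hik hjk h
    obtain ⟨q', q0', qh', hq'⟩ := hpair i k hik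
    obtain ⟨-, huniq⟩ := tr_main hK hU h8 hno (five_tr hL hij hik hjk)
    obtain ⟨t, ht⟩ := huniq q' q q0' qh' qh (fun θ hθ => by
      have e : lf (L i) * lf (L j) * lf (L k) = lf (L j) * (lf (L i) * lf (L k)) := by ring
      rw [e, ct_mul (lf (L j)), ct_comm q', hq' θ hθ, map_zero]) (fun θ hθ => by
      rw [mul_comm _ (lf (L k)), ct_mul (lf (L k)), ct_comm q, h θ hθ, map_zero])
    intro θ hθ
    rw [ht, ct_smul, hq' θ hθ, smul_zero]
  have h0 : ∀ j : Fin 5, 0 ≠ j → ∀ θ ∈ U, ct q (ct (lf (L 0) * lf (L j)) θ) = 0 := by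
    intro j hj
    by_cases h1 : 1 = j
    · subst h1
      exact hq01
    · exact step 0 1 j (by decide) hj h1 hq01
  have hall : ∀ i j : Fin 5, i ≠ j → ∀ θ ∈ U, ct q (ct (lf (L i) * lf (L j)) θ) = 0 := by
    intro i j hij
    by_cases hi : 0 = i
    · subst hi
      exact h0 j hij
    by_cases hj : 0 = j
    · subst hj
      exact sym 0 i (h0 i hi)
    exact sym j i (step j 0 i (Ne.symm hj) hij.symm hi (sym 0 j (h0 j hj)))
  have hone : ∀ i : Fin 5, ∀ θ ∈ U, ct q (ct (lf (L i)) θ) = 0 := by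
    intro i θ hθ
    obtain ⟨k1, k2, k3, i1, i2, i3, k12, k13, k23⟩ := others1 i
    have hD : ct q (ct (lf (L i)) θ) ∈ Dj 3 := ct_mem_Dj qh (j := 3) (ct_lf_mem (j := 5) (L i) (hU hθ))
    have hk : ∀ k, k ≠ i → ct (lf (L k)) (ct q (ct (lf (L i)) θ)) = 0 := by
      intro k hki
      rw [ct_comm (lf (L k)) q, ← ct_mul (lf (L k)) (lf (L i))]
      exact hall k i hki θ hθ
    exact eq_zero_of_indep hD (hL.li k1 k2 k3 k12 k13 k23) (hk k1 i1.symm) (hk k2 i2.symm) (hk k3 i3.symm)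
  refine ⟨q, q0, qh, fun θ hθ => ?_⟩
  have hD : ct q θ ∈ Dj 4 := ct_mem_Dj qh (j := 4) (hU hθ)
  have hk : ∀ k, ct (lf (L k)) (ct q θ) = 0 := by
    intro k
    rw [ct_comm]
    exact hone k θ hθ
  exact eq_zero_of_indep hD (hL.li 0 1 2 (by decide) (by decide) (by decide)) (hk 0) (hk 1) (hk 2)

end Pool.Agent.T2.LC.E5
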