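import Pool.Agent.Lib.MP_c7af3c_ag.T2.LC.Defs

/-!
# LEMMA C, cases (c1), (c2): the three parts of C12S (helper13)
-/

set_option autoImplicit false

namespace Pool.Agent.T2.LC

open MvPolynomial Module

variable {K : Type} [Field K]

/-- `a b c` has rank 7 on `U`, and `h a b u` is not pure for the `u` in the kernel -/
def NPc (U : Submodule K (D K)) (a b c : Fin 3 → K) (h : MvPolynomial (Fin 3) K) : Prop :=
  7 ≤ finrank K (U.map (ct (lf a * lf b * lf c))) ∧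
  ∀ u ∈ U, u ≠ 0 → ct (lf a * lf b * lf c) u = 0 → NP (ct (h * (lf a * lf b)) u)

/-- five lines in general position with respect to `U` -/
structure Five (U : Submodule K (D K)) (L : Fin 5 → Fin 3 → K) : Prop where
  inj : ∀ i j, i ≠ j → Inj U (lf (L i) * lf (L j))
  li : ∀ i j k, i ≠ j → i ≠ k → j ≠ k → LinearIndependent K ![L i, L j, L k]
  np : ∀ i j k h, i ≠ j → i ≠ k → j ≠ k → h ≠ k → NPc U (L i) (L j) (L k) (lf (L h))

/-- Part C1: not all `l₁ l₂ U` contain all functionals of a line. -/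
def C1S : Prop := K1S → K2S → ∀ (K : Type) [Field K] [CharZero K]
  (U : Submodule K (D K)), U ≤ Dj 6 → finrank K U = 8 →
  (∀ l : Fin 3 → K, l ≠ 0 → finrank K (U ⊓ LinearMap.ker (ct (lf l)) : Submodule K (D K)) ≤ 4) →
  (∀ l₁ l₂ l₃ : Fin 3 → K, ¬ Inj U (lf l₁ * lf l₂ * lf l₃)) →
  (∃ l₁ l₂ : Fin 3 → K, Inj U (lf l₁ * lf l₂)) →
  ¬ ∀ l₁ l₂ : Fin 3 → K, Inj U (lf l₁ * lf l₂) → ∃ z : Fin 3 → K, z ≠ 0 ∧
    Dj 4 ⊓ LinearMap.ker (ct (lf z)) ≤ U.map (ct (lf l₁ * lf l₂))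

/-- Part FIVE: existence of five general lines. -/
def FiveS : Prop := K1S → K2S → ∀ (K : Type) [Field K] [CharZero K]
  (U : Submodule K (D K)), U ≤ Dj 6 → finrank K U = 8 →
  (∀ l₁ l₂ l₃ : Fin 3 → K, ¬ Inj U (lf l₁ * lf l₂ * lf l₃)) →
  ∀ (a b l : Fin 3 → K) (y : D K), Inj U (lf a * lf b) →
  Ker1 (U.map (ct (lf a * lf b))) l y → NP y → ∃ L : Fin 5 → Fin 3 → K, Five U L

/-- Part END5: five general lines give the conic. -/
def End5S : Prop := K1S → ∀ (K : Type) [Field K] [CharZero K]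
  (U : Submodule K (D K)), U ≤ Dj 6 → finrank K U = 8 →
  (∀ l₁ l₂ l₃ : Fin 3 → K, ¬ Inj U (lf l₁ * lf l₂ * lf l₃)) →
  ∀ L : Fin 5 → Fin 3 → K, Five U L →
  ∃ q : MvPolynomial (Fin 3) K, q ≠ 0 ∧ q.IsHomogeneous 2 ∧ ∀ θ ∈ U, ct q θ = 0

end Pool.Agent.T2.LC
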