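import Pool.Agent.Lib.MP_c7af3c_ag.T2.LC.K1
import Pool.Agent.Lib.MP_c7af3c_ag.T2.LC.Rank
import Pool.Agent.Lib.MP_c7af3c_ag.T2.LC.Defs2

/-!
# MP_c7af3c_ag, T2, LEMMA C, part FIVE (helper64): five general lines
-/

set_option autoImplicit false

namespace Pool.Agent.T2.LC.FV

open MvPolynomial Module K1

/-! ### General -/

section gen

variable {K : Type} [Field K] {V : Type} [AddCommGroup V] [Module K V]

theorem li_smul {x y : V} {c : K} (hc : c ≠ 0) (h : LinearIndependent K ![x, y]) :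
    LinearIndependent K ![c • x, c • y] := by
  rw [LinearIndependent.pair_iff] at h ⊢
  intro s t hst
  obtain ⟨h1, h2⟩ := h (s * c) (t * c) (by rw [mul_smul, mul_smul]; exact hst)
  exact ⟨(mul_eq_zero.1 h1).resolve_right hc, (mul_eq_zero.1 h2).resolve_right hc⟩

theorem coord3 {l m₁ m₂ : Fin 3 → K} (hi : LinearIndependent K ![l, m₁, m₂]) (m : Fin 3 → K) :
    ∃ α β γ : K, m = α • l + β • m₁ + γ • m₂ := by
  have hsp : Submodule.span K (Set.range ![l, m₁, m₂]) = ⊤ := by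
    apply hi.span_eq_top_of_card_eq_finrank'
    simp
  have h1 : m ∈ Submodule.span K (Set.range ![l, m₁, m₂]) := by rw [hsp]; exact Submodule.mem_top
  rw [Submodule.mem_span_range_iff_exists_fun] at h1
  obtain ⟨c, hc⟩ := h1
  rw [Fin.sum_univ_three] at hc
  exact ⟨c 0, c 1, c 2, hc.symm⟩

theorem span_le_one (x : V) : finrank K (Submodule.span K {x}) ≤ 1 := finrank_span_le_card {x} |>.trans (by simp)

theorem le_one_of (S : Submodule K V) {x : V} (h : S ≤ Submodule.span K {x}) : finrank K S ≤ 1 :=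
  (Submodule.finrank_mono h).trans (span_le_one x)

theorem lin2 (W : Submodule K V) {x y : V} (hx : x ∈ W) (hy : y ∈ W) (a b : K) : a • x + b • y ∈ W :=
  W.add_mem (W.smul_mem _ hx) (W.smul_mem _ hy)

theorem mem_span1 {x y : V} {a : K} (h : y = a • x) : y ∈ Submodule.span K {x} :=
  Submodule.mem_span_singleton.2 ⟨a, h.symm⟩

end gen

section main

variable {K : Type} [Field K]

theorem np_smul {w : D K} {c : K} (hc : c ≠ 0) (h : NP w) : NP (c • w) := by
  obtain ⟨a, b, hab⟩ := h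
  refine ⟨a, b, ?_⟩
  rw [map_smul, map_smul]
  exact li_smul hc hab

theorem np_ne {w : D K} (h : NP w) : w ≠ 0 := by
  rintro rfl
  obtain ⟨a, b, hab⟩ := h
  exact pair_ne hab (map_zero _)

/-- `p` has rank 7 on `U`, and `q u` is not pure for the `u` in the kernel -/
def NQ (U : Submodule K (D K)) (p q : MvPolynomial (Fin 3) K) : Prop :=
  7 ≤ finrank K (U.map (ct p)) ∧ ∀ u ∈ U, u ≠ 0 → ct p u = 0 → NP (ct q u)

theorem ker_line {U : Submodule K (D K)} [FiniteDimensional K U] (h8 : finrank K U = 8)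
    {p : MvPolynomial (Fin 3) K} (h7 : 7 ≤ finrank K (U.map (ct p))) {u : D K} (hu : u ∈ U) (hu0 : u ≠ 0)
    (hpu : ct p u = 0) : ∀ v ∈ U, ct p v = 0 → ∃ c : K, v = c • u := by
  intro v hv hpv
  by_contra hc
  have h1 : LinearIndependent K ![u, v] := by
    by_contra h2
    exact hc (pair_gen hu0 h2)
  have hfd : FiniteDimensional K (U ⊓ LinearMap.ker (ct p) : Submodule K (D K)) :=
    fd_le (T := U) inf_le_left
  have h2 := two_le (U ⊓ LinearMap.ker (ct p) : Submodule K (D K)) (a := u) (b := v) ⟨hu, hpu⟩ ⟨hv, hpv⟩ h1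
  have h3 := finrank_map_ker U (ct p)
  omega

theorem nq_open {U : Submodule K (D K)} [FiniteDimensional K U] (h8 : finrank K U = 8)
    {p q : K → MvPolynomial (Fin 3) K} (hp : PF p) (hq : PF q) (hni : ∀ t, ¬ Inj U (p t))
    (h : NQ U (p 0) (q 0)) : {t | ¬ NQ U (p t) (q t)}.Finite := by
  obtain ⟨u₀, hu₀U, hpu₀, hu₀⟩ : ∃ u₀ ∈ U, ct (p 0) u₀ = 0 ∧ u₀ ≠ 0 := by
    have h1 := hni 0
    unfold Inj at h1
    push Not at h1
    exact h1
  obtain ⟨w, hw, hli⟩ := exists_li_of_le h.1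
  choose a haU haw using hw
  set e : Fin (7 + 1) → D K := Fin.cons u₀ a with he
  have heU : ∀ i, e i ∈ U := by
    intro i
    refine Fin.cases ?_ (fun i => ?_) i
    · rw [he, Fin.cons_zero]; exact hu₀U
    · rw [he, Fin.cons_succ]; exact haU i
  have hv : ∀ i, PF (K := K) (fun t => ct (p t) (e i)) := fun i => hp.map (ctB.flip (e i))
  have hd : ∀ t, ¬ LinearIndependent K (fun i => ct (p t) (e i)) := by
    intro t hl
    have h1 := card_le_of_li (W := U.map (ct (p t))) (fun i => mem_map_of (heU i) _) hl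
    exact hni t (inj_iff_rank.2 (by omega))
  have h0 : LinearIndependent K (fun i : Fin 7 => ct (p 0) (e i.succ)) := by
    have h1 : (fun i : Fin 7 => ct (p 0) (e i.succ)) = w := by
      funext i
      rw [he, Fin.cons_succ, haw]
    rw [h1]
    exact hli
  obtain ⟨c, hc, hc0, hcne⟩ := kernel_vector (V := D K) (v := fun i t => ct (p t) (e i)) hv hd (t₀ := 0) h0
  have hU : PF (K := K) (fun t => ∑ i, c i t • e i) := PF.sum _ fun i _ => (hc i).smul (PF.const _)
  have hmem : ∀ t, ∑ i, c i t • e i ∈ U := fun t => U.sum_mem fun i _ => U.smul_mem _ (heU i)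
  have hker : ∀ t, ct (p t) (∑ i, c i t • e i) = 0 := by
    intro t
    rw [map_sum, ← hc0 t]
    exact Finset.sum_congr rfl fun i _ => map_smul _ _ _
  have hne : ∑ i, c i 0 • e i ≠ 0 := by
    intro h1
    have h2 := hc0 0
    rw [Fin.sum_univ_succ] at h1 h2
    simp only [he, Fin.cons_zero, Fin.cons_succ, hpu₀, smul_zero, zero_add, haw] at h1 h2
    rw [Fintype.linearIndependent_iff] at hli
    have h3 := hli _ h2
    simp only [h3, zero_smul, Finset.sum_const_zero, add_zero] at h1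
    rcases smul_eq_zero.1 h1 with h4 | h4
    · exact hcne h4
    · exact hu₀ h4
  obtain ⟨m₁, m₂, hm⟩ := h.2 _ (hmem 0) hne (hker 0)
  have hqu : PF (K := K) (fun t => ct (q t) (∑ i, c i t • e i)) := hq.bilin hU ctB
  have f1 := li_open (K := K) (V := D K) (v := fun (i : Fin 2) (t : K) =>
    (![ct (lf m₁) (ct (q t) (∑ i, c i t • e i)), ct (lf m₂) (ct (q t) (∑ i, c i t • e i))] : Fin 2 → D K) i)
    (t₀ := 0) (fun i => by
      fin_cases i
      · exact hqu.map (ct (lf m₁))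
      · exact hqu.map (ct (lf m₂))) hm
  have f2 := pf_open (A := U) (B := ⊥) hp (r := 7) (t₀ := 0) (by rw [bot_sup_eq]; exact h.1)
  refine (f1.union f2).subset fun t ht => ?_
  by_contra hcon
  simp only [Set.mem_union, Set.mem_ofPred_eq, not_or, not_not] at hcon
  apply ht
  have h7 : 7 ≤ finrank K (U.map (ct (p t))) := by
    have := hcon.2
    rw [bot_sup_eq] at this
    exact this
  refine ⟨h7, fun u hu hu0 hpu => ?_⟩
  have hnp : NP (ct (q t) (∑ i, c i t • e i)) := ⟨m₁, m₂, hcon.1⟩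
  have hz : ∑ i, c i t • e i ≠ 0 := by
    intro h1
    rw [h1, map_zero] at hnp
    exact np_ne hnp rfl
  obtain ⟨r, hr⟩ := ker_line h8 h7 (hmem t) hz (hker t) u hu hpu
  have hr0 : r ≠ 0 := by
    rintro rfl
    rw [zero_smul] at hr
    exact hu0 hr
  rw [hr, map_smul]
  exact np_smul hr0 hnp

theorem nq_lopen {E : Type} [AddCommGroup E] [Module K E] {U : Submodule K (D K)} [FiniteDimensional K U]
    (h8 : finrank K U = 8) {P Q : E → MvPolynomial (Fin 3) K} (hP : PL (K := K) P) (hQ : PL (K := K) Q)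
    (hni : ∀ x, ¬ Inj U (P x)) : LOpen (K := K) fun x => NQ U (P x) (Q x) := by
  intro a b h
  refine nq_open h8 (hP a b) (hQ a b) (fun t => hni _) ?_
  rw [zero_smul, add_zero]
  exact h

/-! ### The space `S² y` -/

theorem Sp1_le {y : D K} {l m₁ m₂ : Fin 3 → K} (hi : LinearIndependent K ![l, m₁, m₂]) (hl : ct (lf l) y = 0)
    {W : Submodule K (D K)} (h1 : ct (lf m₁) y ∈ W) (h2 : ct (lf m₂) y ∈ W) (m : Fin 3 → K) :
    ct (lf m) y ∈ W := by
  obtain ⟨α, β, γ, rfl⟩ := coord3 hi m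
  rw [map_add, map_add, map_smul, map_smul, map_smul, ct_add, ct_add, ct_smul, ct_smul, ct_smul, hl, smul_zero,
    zero_add]
  exact lin2 W h1 h2 _ _

theorem Sp2_le {y : D K} {l m₁ m₂ : Fin 3 → K} (hi : LinearIndependent K ![l, m₁, m₂]) (hl : ct (lf l) y = 0)
    {W : Submodule K (D K)} (h1 : ct (lf m₁) (ct (lf m₁) y) ∈ W) (h2 : ct (lf m₁) (ct (lf m₂) y) ∈ W)
    (h3 : ct (lf m₂) (ct (lf m₂) y) ∈ W) : Sp y 2 ≤ W := by
  have h4 : ∀ m m' : Fin 3 → K, ct (lf m') (ct (lf m) y) ∈ W := by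
    intro m m'
    have e1 : ct (lf m₁) (ct (lf m) y) ∈ W := by
      rw [ct_comm]
      refine Sp1_le (y := ct (lf m₁) y) hi (by rw [ct_comm, hl, map_zero]) h1 ?_ m
      rw [ct_comm]
      exact h2
    have e2 : ct (lf m₂) (ct (lf m) y) ∈ W := by
      rw [ct_comm]
      exact Sp1_le (y := ct (lf m₂) y) hi (by rw [ct_comm, hl, map_zero]) h2 h3 m
    exact Sp1_le (y := ct (lf m) y) hi (by rw [ct_comm, hl, map_zero]) e1 e2 m'
  have h5 : Sp y 1 ≤ (⨅ m' : Fin 3 → K, W.comap (ct (lf m')) : Submodule K (D K)) := by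
    apply Sp_succ_le
    intro m θ hθ
    obtain ⟨c, rfl⟩ := Submodule.mem_span_singleton.1 (show θ ∈ Submodule.span K {y} from hθ)
    rw [map_smul]
    refine Submodule.smul_mem _ _ ?_
    rw [Submodule.mem_iInf]
    exact fun m' => h4 m m'
  apply Sp_succ_le
  intro m θ hθ
  have h6 := h5 hθ
  rw [Submodule.mem_iInf] at h6
  exact h6 m

theorem mid_zero {y : D K} {l m₁ m₂ : Fin 3 → K} (hi : LinearIndependent K ![l, m₁, m₂]) (hl : ct (lf l) y = 0)
    (hd : 2 ≤ finrank K (Sp y 2)) (h1 : ¬ NP (ct (lf m₁) y)) (h2 : ¬ NP (ct (lf m₂) y)) :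
    ct (lf m₁) (ct (lf m₂) y) = 0 := by
  by_contra hne
  have e1 : ¬ LinearIndependent K ![ct (lf m₁) (ct (lf m₂) y), ct (lf m₁) (ct (lf m₁) y)] := by
    intro h
    refine h1 ⟨m₂, m₁, ?_⟩
    rw [ct_comm (lf m₂)]
    exact h
  have e2 : ¬ LinearIndependent K ![ct (lf m₁) (ct (lf m₂) y), ct (lf m₂) (ct (lf m₂) y)] :=
    fun h => h2 ⟨m₁, m₂, h⟩
  obtain ⟨a, ha⟩ := pair_gen hne e1
  obtain ⟨b, hb⟩ := pair_gen hne e2
  have h3 := le_one_of _ (Sp2_le hi hl (mem_span1 ha) (Submodule.mem_span_singleton_self _) (mem_span1 hb))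
  omega

theorem exh {y : D K} {l m₁ m₂ : Fin 3 → K} (hi : LinearIndependent K ![l, m₁, m₂]) (hl : ct (lf l) y = 0)
    (hd : 2 ≤ finrank K (Sp y 2)) : ∃ h : Fin 3 → K, NP (ct (lf h) y) := by
  by_contra hcon
  push Not at hcon
  have h0 := mid_zero hi hl hd (hcon m₁) (hcon m₂)
  have h0' : ct (lf m₂) (ct (lf m₁) y) = 0 := by rw [ct_comm]; exact h0
  have h1 : ¬ LinearIndependent K ![ct (lf m₁) (ct (lf m₁) y), ct (lf m₂) (ct (lf m₂) y)] := by
    intro h
    refine hcon (m₁ + m₂) ⟨m₁, m₂, ?_⟩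
    rw [map_add, ct_add, map_add, map_add, h0, h0', add_zero, zero_add]
    exact h
  by_cases hz : ct (lf m₁) (ct (lf m₁) y) = 0
  · have h3 := le_one_of _ (Sp2_le (W := Submodule.span K {ct (lf m₂) (ct (lf m₂) y)}) hi hl
      (by rw [hz]; exact Submodule.zero_mem _) (by rw [h0]; exact Submodule.zero_mem _)
      (Submodule.mem_span_singleton_self _))
    omega
  · obtain ⟨a, ha⟩ := pair_gen hz h1
    have h3 := le_one_of _ (Sp2_le hi hl (Submodule.mem_span_singleton_self _)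
      (by rw [h0]; exact Submodule.zero_mem _) (mem_span1 ha))
    omega

/-! ### Kernels on `a b U` -/

theorem pl_id : PL (K := K) (fun x : Fin 3 → K => lf x) := by
  intro a b
  exact (PF.line (K := K) a b).map lf

theorem pl_proj {n : ℕ} (i : Fin n) : PL (K := K) (fun x : Fin n → Fin 3 → K => lf (x i)) := by
  intro a b
  exact (PF.line (K := K) (a i) (b i)).map lf

theorem lo_pair {n : ℕ} (i j : Fin n) :
    LOpen (K := K) (fun x : Fin n → Fin 3 → K => LinearIndependent K ![x i, x j]) := by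
  intro a b h
  exact li_open (K := K) (v := fun (k : Fin 2) (t : K) => (![a i + t • b i, a j + t • b j] : Fin 2 → Fin 3 → K) k)
    (t₀ := 0) (fun k => by
      fin_cases k
      · exact PF.line _ _
      · exact PF.line _ _) (by
      rw [zero_smul, zero_smul, add_zero, add_zero]
      exact h)

theorem lo_triple {n : ℕ} (i j k : Fin n) :
    LOpen (K := K) (fun x : Fin n → Fin 3 → K => LinearIndependent K ![x i, x j, x k]) := by
  intro a b h
  exact li_open (K := K) (v := fun (m : Fin 3) (t : K) =>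
    (![a i + t • b i, a j + t • b j, a k + t • b k] : Fin 3 → Fin 3 → K) m)
    (t₀ := 0) (fun m => by
      fin_cases m
      · exact PF.line _ _
      · exact PF.line _ _
      · exact PF.line _ _) (by
      rw [zero_smul, zero_smul, zero_smul, add_zero, add_zero, add_zero]
      exact h)

theorem lo_third (a b : Fin 3 → K) :
    LOpen (K := K) (fun l : Fin 3 → K => LinearIndependent K ![l, a, b]) := by
  intro c d h
  exact li_open (K := K) (v := fun (m : Fin 3) (t : K) => (![c + t • d, a, b] : Fin 3 → Fin 3 → K) m)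
    (t₀ := 0) (fun m => by
      fin_cases m
      · exact PF.line _ _
      · exact PF.const _
      · exact PF.const _) (by
      rw [zero_smul, add_zero]
      exact h)

theorem rank_inj {U : Submodule K (D K)} [FiniteDimensional K U] (h8 : finrank K U = 8)
    {p : MvPolynomial (Fin 3) K} (h : Inj U p) : finrank K (U.map (ct p)) = 8 := by
  have h1 := inj_iff_rank.1 h
  have h2 := rank_le U p
  omega

theorem toKer {U : Submodule K (D K)} [FiniteDimensional K U] (h8 : finrank K U = 8) {a b l : Fin 3 → K}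
    (hab : Inj U (lf a * lf b)) (h7 : 7 ≤ finrank K (U.map (ct (lf a * lf b * lf l)))) {u : D K} (hu : u ∈ U)
    (hu0 : u ≠ 0) (hpu : ct (lf a * lf b * lf l) u = 0) :
    Ker1 (U.map (ct (lf a * lf b))) l (ct (lf a * lf b) u) := by
  refine ⟨mem_map_of hu _, fun h => hu0 (hab u hu h), ?_, ?_⟩
  · rw [← ct_mul, mul_comm]
    exact hpu
  · rintro _ ⟨v, hv, rfl⟩ h
    obtain ⟨c, rfl⟩ := ker_line h8 h7 hu hu0 hpu v hv (by rw [mul_comm, ct_mul]; exact h)
    exact ⟨c, map_smul _ _ _⟩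

theorem base {U : Submodule K (D K)} [FiniteDimensional K U] (h8 : finrank K U = 8) {a b l : Fin 3 → K} {y : D K}
    (hab : Inj U (lf a * lf b)) (hk : Ker1 (U.map (ct (lf a * lf b))) l y) (q : MvPolynomial (Fin 3) K)
    (hy : NP (ct q y)) : NQ U (lf a * lf b * lf l) (q * (lf a * lf b)) := by
  obtain ⟨hyA, hy0, hly, hker⟩ := hk
  constructor
  · have hfd : FiniteDimensional K (U.map (ct (lf a * lf b))) := fd_map U _
    have h1 := finrank_map_ker (U.map (ct (lf a * lf b))) (ct (lf l))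
    have h2 := le_one_of (U.map (ct (lf a * lf b)) ⊓ LinearMap.ker (ct (lf l)) : Submodule K (D K)) (x := y) (by
      rintro θ ⟨h3, h4⟩
      obtain ⟨c, hc⟩ := hker θ h3 h4
      exact mem_span1 hc)
    have h3 := rank_inj h8 hab
    rw [map_mul]
    omega
  · intro u hu hu0 hpu
    obtain ⟨c, hc⟩ := hker (ct (lf a * lf b) u) (mem_map_of hu _) (by rw [← ct_mul, mul_comm]; exact hpu)
    have hc0 : c ≠ 0 := by
      rintro rfl
      rw [zero_smul] at hc
      exact hu0 (hab u hu hc)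
    rw [ct_mul, hc, map_smul]
    exact np_smul hc0 hy

theorem exists_ne {U : Submodule K (D K)} {r : ℕ} (h : r + 1 ≤ finrank K U) : ∃ u ∈ U, u ≠ 0 := by
  obtain ⟨w, hw, hli⟩ := exists_li_of_le h
  exact ⟨w 0, hw 0, hli.ne_zero 0⟩

/-- the generic pair -/
theorem vgen (k1 : K1S) [CharZero K] {U : Submodule K (D K)} (hU : U ≤ Dj 6) (h8 : finrank K U = 8)
    (h3 : ∀ l₁ l₂ l₃ : Fin 3 → K, ¬ Inj U (lf l₁ * lf l₂ * lf l₃))
    (hno : ∀ a b c : Fin 3 → K, ¬ NPc U a b c (lf a)) (hno' : ∀ a b c : Fin 3 → K, ¬ NPc U a b c (lf b))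
    {a b l₁ : Fin 3 → K} (hli : LinearIndependent K ![a, b]) (hx1 : Inj U (lf a * lf b))
    (hx2 : NQ U (lf a * lf b * lf l₁) (1 * (lf a * lf b)))
    (hx4 : 1 ≤ finrank K (U.map (ct (lf a * lf b * (lf a * lf b))))) : False := by
  have hfd : FiniteDimensional K U := fd_of_le hU
  have hA : U.map (ct (lf a * lf b)) ≤ Dj 4 := map_ct_le ((lf_hom a).mul (lf_hom b)) hU
  have hfA : FiniteDimensional K (U.map (ct (lf a * lf b))) := fd_of_le hA
  have hninj : ∀ l : Fin 3 → K, ¬ Inj (U.map (ct (lf a * lf b))) (lf l) := by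
    intro l hl
    refine h3 a b l fun θ hθ h0 => ?_
    rw [mul_comm, ct_mul] at h0
    exact hx1 θ hθ (hl _ (mem_map_of hθ _) h0)
  set Y : Submodule K (D K) := U.map (ct (lf a * lf b)) ⊓ LinearMap.ker (ct (lf a * lf b)) with hY
  have hYA : Y ≤ U.map (ct (lf a * lf b)) := inf_le_left
  have hfY : FiniteDimensional K Y := fd_le hYA
  -- all forms are noninjective on `Y`
  have hYn : ∀ l : Fin 3 → K, ¬ Inj Y (lf l) := by
    by_contra hc
    push Not at hc
    have P1 : LOpen (K := K) (fun l : Fin 3 → K => Inj Y (lf l)) := lopen_inj (pl_id)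
    have P2 : LOpen (K := K) (fun l : Fin 3 → K => NQ U (lf a * lf b * lf l) (1 * (lf a * lf b))) :=
      nq_lopen h8 ((PL.const (lf a * lf b)).mul (pl_id)) (PL.const _) fun x => h3 _ _ _
    have P3 : LOpen (K := K) (fun l : Fin 3 → K => LinearIndependent K ![l, a, b]) := lo_third a b
    obtain ⟨l, ⟨hl1, hl2⟩, hl3⟩ := (P1.and P2).exists_and P3 (P1.exists_and P2 hc ⟨l₁, hx2⟩) (by
      obtain ⟨l, hl⟩ := exists_third hli
      exact ⟨l, li_cab hl⟩)
    have hl3' : LinearIndependent K ![l, a, b] := hl3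
    obtain ⟨u, huU, hpu, hu0⟩ : ∃ u ∈ U, ct (lf a * lf b * lf l) u = 0 ∧ u ≠ 0 := by
      have h4 := h3 a b l
      unfold Inj at h4
      push Not at h4
      exact h4
    have hk := toKer h8 hx1 hl2.1 huU hu0 hpu
    have hnp : NP (ct (lf a * lf b) u) := by
      have := hl2.2 u huU hu0 hpu
      rw [one_mul] at this
      exact this
    obtain ⟨-, -, -, h5⟩ := k1 K 4 (by norm_num) _ hA hninj l _ hk
    have h6 := h5 hnp 2 (by norm_num) (by norm_num)
    have g : ∀ q : MvPolynomial (Fin 3) K, ¬ NPc U a b l q → ¬ NP (ct q (ct (lf a * lf b) u)) := by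
      intro q hq hn
      refine hq ⟨hl2.1, fun v hv hv0 hpv => ?_⟩
      obtain ⟨c, rfl⟩ := ker_line h8 hl2.1 huU hu0 hpu v hv hpv
      have hc0 : c ≠ 0 := by
        rintro rfl
        exact hv0 (zero_smul _ _)
      rw [map_smul, ct_mul]
      exact np_smul hc0 hn
    have h7 := mid_zero hl3' hk.2.2.1 h6 (g _ (hno a b l)) (g _ (hno' a b l))
    rw [← ct_mul] at h7
    exact hk.2.1 (hl1 _ ⟨hk.1, h7⟩ hk.2.2.1)
  -- the kernel for `l₁`
  obtain ⟨u, huU, hpu, hu0⟩ : ∃ u ∈ U, ct (lf a * lf b * lf l₁) u = 0 ∧ u ≠ 0 := by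
    have h4 := h3 a b l₁
    unfold Inj at h4
    push Not at h4
    exact h4
  have hk := toKer h8 hx1 hx2.1 huU hu0 hpu
  have hnp : NP (ct (lf a * lf b) u) := by
    have := hx2.2 u huU hu0 hpu
    rw [one_mul] at this
    exact this
  have hkY : Ker1 Y l₁ (ct (lf a * lf b) u) := by
    have h4 := hYn l₁
    unfold Inj at h4
    push Not at h4
    obtain ⟨θ, hθY, hθ, hθ0⟩ := h4
    obtain ⟨c, hc⟩ := hk.2.2.2 θ (hYA hθY) hθ
    have hc0 : c ≠ 0 := by
      rintro rfl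
      exact hθ0 (by rw [hc, zero_smul])
    refine ⟨smul_mem' Y hc0 (by rw [← hc]; exact hθY), hk.2.1, hk.2.2.1, fun θ' h5 h6 => hk.2.2.2 θ' (hYA h5) h6⟩
  obtain ⟨-, h5, h6, h7⟩ := k1 K 4 (by norm_num) Y (hYA.trans hA) hYn l₁ _ hkY
  have g1 := h7 hnp 1 (by norm_num) (by norm_num)
  have g2 := h7 hnp 2 (by norm_num) (by norm_num)
  have g3 := h7 hnp 3 (by norm_num) (by norm_num)
  have g0 := h6 0 (by norm_num)
  have g4 := h6 4 (by norm_num)
  simp only [Finset.sum_range_succ, Finset.sum_range_zero] at h5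
  have g5 := finrank_map_ker (U.map (ct (lf a * lf b))) (ct (lf a * lf b))
  have g6 := rank_inj h8 hx1
  rw [map_mul] at hx4
  have g7 : finrank K Y = finrank K (U.map (ct (lf a * lf b)) ⊓ LinearMap.ker (ct (lf a * lf b)) :
    Submodule K (D K)) := rfl
  omega

/-- there are `a`, `b`, `c` with `a² b u` not pure for the `u` in the kernel of `a b c` -/
theorem vex (k1 : K1S) [CharZero K] {U : Submodule K (D K)} (hU : U ≤ Dj 6) (h8 : finrank K U = 8)
    (h3 : ∀ l₁ l₂ l₃ : Fin 3 → K, ¬ Inj U (lf l₁ * lf l₂ * lf l₃)) {a₀ b₀ l₀ : Fin 3 → K} {y₀ : D K}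
    (hab₀ : Inj U (lf a₀ * lf b₀)) (hk₀ : Ker1 (U.map (ct (lf a₀ * lf b₀))) l₀ y₀) (hy₀ : NP y₀) :
    ∃ a b c : Fin 3 → K, NPc U a b c (lf a) := by
  have hfd : FiniteDimensional K U := fd_of_le hU
  by_contra hno
  push Not at hno
  have hno' : ∀ a b c : Fin 3 → K, ¬ NPc U a b c (lf b) := by
    intro a b c h
    refine hno b a c ?_
    unfold NPc at h ⊢
    rw [mul_comm (lf b) (lf a)]
    exact h
  have key : ∀ (m : Fin 3 → K), ∀ u ∈ U, ct (lf m ^ 4) u = 0 := by
    by_contra hc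
    push Not at hc
    obtain ⟨m, u, hu, hmu⟩ := hc
    -- the generic pair
    have pl : ∀ i : Fin 3, PL (K := K) (fun x : Fin 3 → Fin 3 → K => lf (x i)) := fun i => pl_proj i
    have O1 : LOpen (K := K) (fun x : Fin 3 → Fin 3 → K => Inj U (lf (x 0) * lf (x 1))) :=
      lopen_inj ((pl 0).mul (pl 1))
    have O2 : LOpen (K := K) (fun x : Fin 3 → Fin 3 → K => NQ U (lf (x 0) * lf (x 1) * lf (x 2))
        (1 * (lf (x 0) * lf (x 1)))) :=
      nq_lopen h8 (((pl 0).mul (pl 1)).mul (pl 2)) ((PL.const 1).mul ((pl 0).mul (pl 1))) fun x => h3 _ _ _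
    have O3 : LOpen (K := K) (fun x : Fin 3 → Fin 3 → K => LinearIndependent K ![x 0, x 1]) := lo_pair 0 1
    have O4 : LOpen (K := K) (fun x : Fin 3 → Fin 3 → K => 1 ≤ finrank K (U.map (ct (lf (x 0) * lf (x 1) *
        (lf (x 0) * lf (x 1)))))) :=
      lopen_rank (((pl 0).mul (pl 1)).mul ((pl 0).mul (pl 1))) 1
    have E1 : ∃ x : Fin 3 → Fin 3 → K, Inj U (lf (x 0) * lf (x 1)) := ⟨![a₀, b₀, l₀], hab₀⟩
    have E2 : ∃ x : Fin 3 → Fin 3 → K, NQ U (lf (x 0) * lf (x 1) * lf (x 2)) (1 * (lf (x 0) * lf (x 1))) :=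
      ⟨![a₀, b₀, l₀], base h8 hab₀ hk₀ 1 (by rw [ct_one]; exact hy₀)⟩
    have E3 : ∃ x : Fin 3 → Fin 3 → K, LinearIndependent K ![x 0, x 1] := by
      obtain ⟨l, hl⟩ := exists_second (K := K) (z := Pi.single 0 1) (by
        intro h
        have := congrFun h 0
        simp at this)
      exact ⟨![Pi.single 0 1, l, 0], hl⟩
    have E4 : ∃ x : Fin 3 → Fin 3 → K, 1 ≤ finrank K (U.map (ct (lf (x 0) * lf (x 1) *
        (lf (x 0) * lf (x 1))))) := by
      refine ⟨![m, m, m], ?_⟩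
      have hfd' : FiniteDimensional K (U.map (ct (lf m * lf m * (lf m * lf m)))) := fd_map U _
      refine one_le _ (mem_map_of hu _) (a := ct (lf m * lf m * (lf m * lf m)) u) ?_
      rw [show lf m * lf m * (lf m * lf m) = lf m ^ 4 by ring]
      exact hmu
    obtain ⟨x, ⟨⟨hx1, hx2⟩, hx3⟩, hx4⟩ := ((O1.and O2).and O3).exists_and O4
      ((O1.and O2).exists_and O3 (O1.exists_and O2 E1 E2) E3) E4
    exact vgen k1 hU h8 h3 hno hno' hx3 hx1 hx2 hx4
  obtain ⟨u, hu, hu0⟩ := exists_ne (U := U) (r := 7) (by omega)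
  have h4 := polar (⊥ : Submodule K (D K)) u 4 (fun m => (Submodule.mem_bot K).2 (key m u hu)) 4 le_rfl
  obtain ⟨θ, hθ, hθ0⟩ := Sp_ne (hU hu) hu0 4 (by norm_num)
  have h5 := h4 θ hθ 0
  rw [Nat.sub_self, pow_zero, ct_one] at h5
  exact hθ0 ((Submodule.mem_bot K).1 h5)

theorem npc_swap {U : Submodule K (D K)} {a b c : Fin 3 → K} {q : MvPolynomial (Fin 3) K} (h : NPc U a b c q) :
    NPc U b a c q := by
  unfold NPc at h ⊢
  rw [mul_comm (lf b) (lf a)]
  exact h

theorem lo_imp {E : Type} [AddCommGroup E] [Module K E] {c : Prop} {P : E → Prop} (h : c → LOpen (K := K) P) :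
    LOpen (K := K) (fun x => c → P x) := by
  intro a b hab
  by_cases hc : c
  · refine (h hc a b (hab hc)).subset fun t ht => ?_
    simp only [Set.mem_ofPred_eq] at ht ⊢
    intro hP
    exact ht fun _ => hP
  · refine Set.finite_empty.subset fun t ht => ?_
    simp only [Set.mem_ofPred_eq] at ht
    exact absurd (fun h => absurd h hc) ht

theorem lo_np {U : Submodule K (D K)} [FiniteDimensional K U] (h8 : finrank K U = 8)
    (h3 : ∀ l₁ l₂ l₃ : Fin 3 → K, ¬ Inj U (lf l₁ * lf l₂ * lf l₃)) {n : ℕ} (i j k h : Fin n) :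
    LOpen (K := K) (fun x : Fin n → Fin 3 → K => NPc U (x i) (x j) (x k) (lf (x h))) := by
  have h1 : LOpen (K := K) (fun x : Fin n → Fin 3 → K => NQ U (lf (x i) * lf (x j) * lf (x k))
      (lf (x h) * (lf (x i) * lf (x j)))) :=
    nq_lopen h8 (((pl_proj i).mul (pl_proj j)).mul (pl_proj k)) ((pl_proj h).mul ((pl_proj i).mul (pl_proj j)))
      fun x => h3 _ _ _
  exact h1

theorem lo_inj {U : Submodule K (D K)} [FiniteDimensional K U] {n : ℕ} (i j : Fin n) :
    LOpen (K := K) (fun x : Fin n → Fin 3 → K => Inj U (lf (x i) * lf (x j))) :=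
  lopen_inj ((pl_proj i).mul (pl_proj j))

theorem ex_inj {U : Submodule K (D K)} {a b : Fin 3 → K} (h : Inj U (lf a * lf b)) {n : ℕ} {i j : Fin n}
    (hij : i ≠ j) : ∃ x : Fin n → Fin 3 → K, Inj U (lf (x i) * lf (x j)) := by
  refine ⟨fun m => if m = i then a else b, ?_⟩
  beta_reduce
  rw [if_pos rfl, if_neg hij.symm]
  exact h

theorem ex_li {n : ℕ} {i j k : Fin n} (hij : i ≠ j) (hik : i ≠ k) (hjk : j ≠ k) :
    ∃ x : Fin n → Fin 3 → K, LinearIndependent K ![x i, x j, x k] := by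
  obtain ⟨b, hb⟩ := exists_second (K := K) (z := Pi.single 0 1) (by
    intro h
    have := congrFun h 0
    simp at this)
  obtain ⟨c, hc⟩ := exists_third hb
  refine ⟨fun m => if m = i then Pi.single 0 1 else if m = j then b else c, ?_⟩
  beta_reduce
  rw [if_pos rfl, if_neg hij.symm, if_pos rfl, if_neg hik.symm, if_neg hjk.symm]
  exact hc

theorem ex_np {U : Submodule K (D K)} {a b c d : Fin 3 → K} (h1 : NPc U a b c (lf d)) {a' b' c' : Fin 3 → K}
    (h2 : NPc U a' b' c' (lf a')) {n : ℕ} {i j k h : Fin n} (hij : i ≠ j) (hik : i ≠ k) (hjk : j ≠ k)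
    (hk : h ≠ k) : ∃ x : Fin n → Fin 3 → K, NPc U (x i) (x j) (x k) (lf (x h)) := by
  by_cases hi : h = i
  · refine ⟨fun m => if m = i then a' else if m = j then b' else c', ?_⟩
    beta_reduce
    rw [hi, if_pos rfl, if_neg hij.symm, if_pos rfl, if_neg hik.symm, if_neg hjk.symm]
    exact h2
  · by_cases hj : h = j
    · refine ⟨fun m => if m = i then b' else if m = j then a' else c', ?_⟩
      beta_reduce
      rw [hj, if_pos rfl, if_neg hij.symm, if_pos rfl, if_neg hik.symm, if_neg hjk.symm]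
      exact npc_swap h2
    · refine ⟨fun m => if m = i then a else if m = j then b else if m = k then c else d, ?_⟩
      beta_reduce
      rw [if_pos rfl, if_neg hij.symm, if_pos rfl, if_neg hik.symm, if_neg hjk.symm, if_pos rfl, if_neg hi,
        if_neg hj, if_neg hk]
      exact h1

end main

/-- Part FIVE. -/
theorem fv : FiveS := by
  intro k1 _ K _ _ U hU h8 h3 a b l y hab hk hy
  have hfd : FiniteDimensional K U := fd_of_le hU
  have hA : U.map (ct (lf a * lf b)) ≤ Dj 4 := map_ct_le ((lf_hom a).mul (lf_hom b)) hU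
  have hninj : ∀ m : Fin 3 → K, ¬ Inj (U.map (ct (lf a * lf b))) (lf m) := by
    intro m hm
    refine h3 a b m fun θ hθ h0 => ?_
    rw [mul_comm, ct_mul] at h0
    exact hab θ hθ (hm _ (mem_map_of hθ _) h0)
  obtain ⟨-, -, -, h5⟩ := k1 K 4 (by norm_num) _ hA hninj l _ hk
  have h6 := h5 hy 2 (by norm_num) (by norm_num)
  obtain ⟨d, hd⟩ : ∃ d : Fin 3 → K, NP (ct (lf d) y) := by
    have hl0 : l ≠ 0 := by
      rintro rfl
      obtain ⟨-, -, -, h7⟩ := hk
      have h8' := rank_inj h8 hab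
      have h9 := le_one_of (U.map (ct (lf a * lf b))) (x := y) fun θ hθ => by
        obtain ⟨c, hc⟩ := h7 θ hθ (by rw [map_zero, ct_zero])
        exact mem_span1 hc
      omega
    obtain ⟨m₁, hm₁⟩ := exists_second hl0
    obtain ⟨m₂, hm₂⟩ := exists_third hm₁
    exact exh hm₂ hk.2.2.1 h6
  have n1 : NPc U a b l (lf d) := base h8 hab hk (lf d) hd
  obtain ⟨a', b', c', n2⟩ := vex k1 hU h8 h3 hab hk hy
  obtain ⟨x, hx⟩ := LOpen.exists_forall (K := K) (E := Fin 5 → Fin 3 → K)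
    (ι := Fin 5 × Fin 5 × Fin 5 × Fin 5) Finset.univ
    (P := fun s x => (s.1 ≠ s.2.1 ∧ s.1 ≠ s.2.2.1 ∧ s.2.1 ≠ s.2.2.1 ∧ s.2.2.2 ≠ s.2.2.1) →
      ((Inj U (lf (x s.1) * lf (x s.2.1)) ∧ LinearIndependent K ![x s.1, x s.2.1, x s.2.2.1]) ∧
      NPc U (x s.1) (x s.2.1) (x s.2.2.1) (lf (x s.2.2.2))))
    (fun s _ => lo_imp fun _ => ((lo_inj _ _).and (lo_triple _ _ _)).and (lo_np h8 h3 _ _ _ _))
    (fun s _ => by
      by_cases hs : s.1 ≠ s.2.1 ∧ s.1 ≠ s.2.2.1 ∧ s.2.1 ≠ s.2.2.1 ∧ s.2.2.2 ≠ s.2.2.1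
      · obtain ⟨x, hx⟩ := ((lo_inj (U := U) s.1 s.2.1).and (lo_triple (K := K) s.1 s.2.1 s.2.2.1)).exists_and
          (lo_np h8 h3 s.1 s.2.1 s.2.2.1 s.2.2.2)
          ((lo_inj (U := U) s.1 s.2.1).exists_and (lo_triple (K := K) s.1 s.2.1 s.2.2.1) (ex_inj hab hs.1)
            (ex_li hs.1 hs.2.1 hs.2.2.1)) (ex_np n1 n2 hs.1 hs.2.1 hs.2.2.1 hs.2.2.2)
        exact ⟨x, fun _ => hx⟩
      · exact ⟨0, fun h => absurd h hs⟩)
  refine ⟨x, ⟨?_, ?_, ?_⟩⟩
  · intro i j hij
    obtain ⟨k, hk1, hk2⟩ : ∃ k : Fin 5, i ≠ k ∧ j ≠ k := by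
      clear * -
      revert i j
      decide
    exact (hx (i, j, k, i) (Finset.mem_univ _) ⟨hij, hk1, hk2, hk1⟩).1.1
  · intro i j k h1 h2 h4
    exact (hx (i, j, k, i) (Finset.mem_univ _) ⟨h1, h2, h4, h2⟩).1.2
  · intro i j k h h1 h2 h4 h7
    exact (hx (i, j, k, h) (Finset.mem_univ _) ⟨h1, h2, h4, h7⟩).2

end Pool.Agent.T2.LC.FV
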