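import Pool.Agent.Lib.MP_c7af3c_ag.T2.LC.VLa

/-!
# MP_c7af3c_ag, T2, LEMMA C, module VL (helper64)
-/

set_option autoImplicit false
set_option linter.unusedSimpArgs false

namespace Pool.Agent.T2.LC.VL

open MvPolynomial Module

section

variable {K : Type} [Field K]

/-- All points `v` with `ev v ∈ A` lie on `j` lines. -/
theorem lines {j : ℕ} (A : Submodule K (D K)) [FiniteDimensional K A] (hA : finrank K A ≤ 2 * j) :
    ∃ z : Fin j → (Fin 3 → K), (∀ k, z k ≠ 0) ∧
      ∀ v : Fin 3 → K, ev j v ∈ A → ∃ k, ∑ i, z k i * v i = 0 := by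
  classical
  obtain ⟨n, f, hn, hf, hs⟩ := span_gen A {θ | θ ∈ A ∧ ∃ v : Fin 3 → K, θ = ev j v} (fun θ h => h.1)
  choose hfA w hw using hf
  set w' : ℕ → (Fin 3 → K) := fun i => if h : i < n then w ⟨i, h⟩ else 0 with hw'
  have hz := fun k : Fin j => ortho (w' (2 * k)) (w' (2 * k + 1))
  choose z hz0 hz1 hz2 using hz
  refine ⟨z, hz0, fun v hv => ?_⟩
  set p : MvPolynomial (Fin 3) K := ∏ k, lf (z k) with hp
  have hph : p.IsHomogeneous j := by
    have h1 := IsHomogeneous.prod Finset.univ (fun k => lf (z k)) (fun _ => 1) (fun k _ => lf_hom (z k))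
    simpa using h1
  have h1 : ∀ x ∈ Submodule.span K (Set.range f), x p = 0 := by
    intro x hx
    refine Submodule.span_induction (p := fun x _ => x p = 0) ?_ ?_ ?_ ?_ hx
    · rintro _ ⟨i, rfl⟩
      rw [hw i, ev_hom _ hph, hp, map_prod]
      have hi : (i : ℕ) / 2 < j := by omega
      refine Finset.prod_eq_zero (Finset.mem_univ ⟨(i : ℕ) / 2, hi⟩) ?_
      rw [eval_lf]
      rcases Nat.even_or_odd' (i : ℕ) with ⟨k, hk | hk⟩
      · have e := hz1 ⟨(i : ℕ) / 2, hi⟩
        have e2 : w' (2 * ((i : ℕ) / 2)) = w i := by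
          rw [hw']
          have e3 : 2 * ((i : ℕ) / 2) = i := by omega
          simp only [e3, i.2, dif_pos]
        rw [← e2]
        exact e
      · have e := hz2 ⟨(i : ℕ) / 2, hi⟩
        have e2 : w' (2 * ((i : ℕ) / 2) + 1) = w i := by
          rw [hw']
          have e3 : 2 * ((i : ℕ) / 2) + 1 = i := by omega
          simp only [e3, i.2, dif_pos]
        rw [← e2]
        exact e
    · rfl
    · intro x y _ _ hx hy
      show x p + y p = 0
      rw [hx, hy, add_zero]
    · intro a x _ hx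
      show a * x p = 0
      rw [hx, mul_zero]
  have h2 := h1 _ (hs ⟨hv, v, rfl⟩)
  rw [ev_hom _ hph, hp, map_prod, Finset.prod_eq_zero_iff] at h2
  obtain ⟨k, -, hk⟩ := h2
  exact ⟨k, by rw [← eval_lf]; exact hk⟩

/-- Evaluations at pairwise different points. -/
theorem ev_li {j : ℕ} (v : Fin (j + 1) → (Fin 3 → K))
    (h : ∀ m k, m ≠ k → ∃ l : Fin 3 → K, ∑ i, l i * v m i = 0 ∧ ∑ i, l i * v k i ≠ 0) :
    LinearIndependent K (fun k => ev j (v k)) := by
  classical
  choose! l hl0 hl1 using h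
  set p : Fin (j + 1) → MvPolynomial (Fin 3) K := fun k => ∏ m ∈ Finset.univ.erase k, lf (l m k) with hp
  have hph : ∀ k, (p k).IsHomogeneous j := by
    intro k
    have h1 := IsHomogeneous.prod (Finset.univ.erase k) (fun m => lf (l m k)) (fun _ => 1) (fun m _ => lf_hom _)
    simpa using h1
  have h1 : ∀ m k, m ≠ k → ev j (v m) (p k) = 0 := by
    intro m k hmk
    rw [ev_hom _ (hph k), hp, map_prod]
    refine Finset.prod_eq_zero (Finset.mem_erase.2 ⟨hmk, Finset.mem_univ m⟩) ?_
    rw [eval_lf]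
    exact hl0 m k hmk
  have h2 : ∀ k, ev j (v k) (p k) ≠ 0 := by
    intro k
    rw [ev_hom _ (hph k), hp, map_prod, Finset.prod_ne_zero_iff]
    intro m hm
    rw [eval_lf]
    exact hl1 m k (Finset.mem_erase.1 hm).1
  rw [Fintype.linearIndependent_iff]
  intro g hg k
  have h3 := congrArg (fun θ : D K => θ (p k)) hg
  simp only [LinearMap.sum_apply, LinearMap.smul_apply, LinearMap.zero_apply, smul_eq_mul] at h3
  rw [Finset.sum_eq_single k (fun m _ hm => by rw [h1 m k hm, mul_zero]) (fun hk => absurd (Finset.mem_univ k) hk)] at h3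
  exact (mul_eq_zero.1 h3).resolve_right (h2 k)

/-- Finitely many members of the curve go through a given point. -/
theorem curve_finite (a v : Fin 3 → K) (hv : v ≠ 0) :
    {t : K | ∑ i, (a i + t * (Pi.single 0 1 : Fin 3 → K) i + t ^ 2 * (Pi.single 1 1 : Fin 3 → K) i +
      t ^ 3 * (Pi.single 2 1 : Fin 3 → K) i) * v i = 0}.Finite := by
  classical
  set P : Polynomial K := Polynomial.C (∑ i, a i * v i) + Polynomial.C (v 0) * Polynomial.X +
    Polynomial.C (v 1) * Polynomial.X ^ 2 + Polynomial.C (v 2) * Polynomial.X ^ 3 with hP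
  have hP0 : P ≠ 0 := by
    intro h
    apply hv
    have h1 : P.coeff 1 = v 0 := by
      rw [hP]
      simp [Polynomial.coeff_X, Polynomial.coeff_X_pow, Polynomial.coeff_C]
    have h2 : P.coeff 2 = v 1 := by
      rw [hP]
      simp [Polynomial.coeff_X, Polynomial.coeff_X_pow, Polynomial.coeff_C]
    have h3 : P.coeff 3 = v 2 := by
      rw [hP]
      simp [Polynomial.coeff_X, Polynomial.coeff_X_pow, Polynomial.coeff_C]
    rw [h, Polynomial.coeff_zero] at h1 h2 h3
    ext i
    fin_cases i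
    · exact h1.symm
    · exact h2.symm
    · exact h3.symm
  refine (P.roots.toFinset.finite_toSet).subset ?_
  intro t ht
  rw [Finset.mem_coe, Multiset.mem_toFinset, Polynomial.mem_roots hP0, Polynomial.IsRoot.def]
  rw [Set.mem_ofPred_eq, Fin.sum_univ_three] at ht
  rw [hP, Fin.sum_univ_three]
  simp at ht ⊢
  linear_combination ht

end

/-- Module VL. -/
theorem vl (k1 : K1S) (k2 : K2S) : VLS := by
  intro K _ _ j hj A hA hinj hdim
  classical
  have : FiniteDimensional K (Dj j : Submodule K (D K)) := fin_Dj j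
  have hfA : FiniteDimensional K A := Submodule.finiteDimensional_of_le hA
  by_contra hcon
  push Not at hcon
  obtain ⟨hc1, hc2⟩ := hcon
  -- kernel vectors are pure
  have hpure : ∀ (l : Fin 3 → K) (y : D K), Ker1 A l y → ¬ NP y := by
    intro l y hy hnp
    obtain ⟨-, h1, h2, h3⟩ := k1 K j hj A hA hinj l y hy
    have h4 := h3 hnp
    have h5 : 2 * j ≤ ∑ i ∈ Finset.range (j + 1), finrank K (Sp y i) := by
      obtain ⟨j, rfl⟩ : ∃ j', j = j' + 1 := ⟨j - 1, by omega⟩
      rw [Finset.sum_range_succ, Finset.sum_range_succ']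
      have h6 : ∑ _i ∈ Finset.range j, 2 ≤ ∑ i ∈ Finset.range j, finrank K (Sp y (i + 1)) := by
        apply Finset.sum_le_sum
        intro i hi
        rw [Finset.mem_range] at hi
        exact h4 (i + 1) (by omega) (by omega)
      rw [Finset.sum_const, Finset.card_range, smul_eq_mul] at h6
      have h7 := h2 0 (by omega)
      have h8 := h2 (j + 1) le_rfl
      omega
    exact hc2 (le_antisymm hdim (h5.trans h1)) l y hy hnp
  -- a good form
  obtain ⟨a, ha⟩ : ∃ a : Fin 3 → K, finrank K (A ⊓ LinearMap.ker (ct (lf a)) : Submodule K (D K)) ≤ 1 := by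
    by_contra h
    push Not at h
    have := k2 K j hj A hA (fun l => h l)
    omega
  -- the curve
  set c : ℕ → Fin 3 → K := fun k => if k = 0 then a else if k = 1 then Pi.single 0 1 else
    if k = 2 then Pi.single 1 1 else Pi.single 2 1 with hc
  set L : K → Fin 3 → K := fun t => ∑ k ∈ Finset.range (3 + 1), t ^ k • c k with hL
  have hbad : {t : K | ¬ finrank K (A ⊓ LinearMap.ker (ct (lf (L t))) : Submodule K (D K)) ≤ 1}.Finite := by
    have h1 := good_finite_gen A (fun k => ct (lf (c k))) 3 (by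
      show finrank K (A ⊓ LinearMap.ker (ct (lf (c 0))) : Submodule K (D K)) ≤ 1
      exact ha)
    refine h1.subset ?_
    intro t ht
    rw [Set.mem_ofPred_eq, ← ct_lf_sum]
    exact ht
  have hLv : ∀ v : Fin 3 → K, v ≠ 0 → {t : K | ∑ i, L t i * v i = 0}.Finite := by
    intro v hv
    refine (curve_finite a v hv).subset ?_
    intro t ht
    rw [Set.mem_ofPred_eq] at ht ⊢
    rw [← ht]
    refine Finset.sum_congr rfl fun i _ => ?_
    congr 1
    simp [hL, hc, Finset.sum_range_succ]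
  -- points on the members of the curve
  have hpt : ∀ t : K, finrank K (A ⊓ LinearMap.ker (ct (lf (L t))) : Submodule K (D K)) ≤ 1 →
      ∃ v : Fin 3 → K, v ≠ 0 ∧ ev j v ∈ A ∧ ∑ i, L t i * v i = 0 := by
    intro t ht
    have h1 := hinj (L t)
    unfold Inj at h1
    push Not at h1
    obtain ⟨y, hyA, hy0, hyn⟩ := h1
    have hker : Ker1 A (L t) y := by
      refine ⟨hyA, hyn, hy0, fun θ hθ h0 => ?_⟩
      exact one_dim (A ⊓ LinearMap.ker (ct (lf (L t)))) ht ⟨hyA, hy0⟩ hyn ⟨hθ, h0⟩
    obtain ⟨v, r, hv, hr, e, hl⟩ := pure_eval (by omega) (hA hyA) hyn (hpure _ _ hker)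
    refine ⟨v, hv, ?_, hl _ hy0⟩
    exact mem_of_smul A hr (by rw [← e]; exact hyA)
  choose! v hv0 hvA hvL using hpt
  obtain ⟨z, hz0, hz⟩ := lines A hdim
  -- pigeonhole
  obtain ⟨k, hk⟩ : ∃ k, {t : K | finrank K (A ⊓ LinearMap.ker (ct (lf (L t))) : Submodule K (D K)) ≤ 1 ∧
      ∑ i, z k i * v t i = 0}.Infinite := by
    by_contra h
    push Not at h
    have h1 := Set.finite_iUnion h
    have h2 := (hbad.union h1)
    refine Set.infinite_univ (α := K) (h2.subset ?_)
    intro t _
    by_cases ht : finrank K (A ⊓ LinearMap.ker (ct (lf (L t))) : Submodule K (D K)) ≤ 1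
    · right
      obtain ⟨k, hk⟩ := hz (v t) (hvA t ht)
      exact Set.mem_iUnion.2 ⟨k, ht, hk⟩
    · exact Or.inl ht
  obtain ⟨s, hs1, hs2⟩ := exists_seq_of_forall_finset_exists
    (fun t : K => finrank K (A ⊓ LinearMap.ker (ct (lf (L t))) : Submodule K (D K)) ≤ 1 ∧ ∑ i, z k i * v t i = 0)
    (fun t t' => ∑ i, L t' i * v t i ≠ 0) (by
      intro S hS
      have h1 : (⋃ t ∈ S, {t' : K | ∑ i, L t' i * v t i = 0}).Finite :=
        Set.Finite.biUnion S.finite_toSet fun t ht => hLv _ (hv0 t (hS t ht).1)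
      obtain ⟨t', h2, h3⟩ := (hk.sdiff h1).nonempty
      refine ⟨t', h2, fun t ht h4 => h3 ?_⟩
      exact Set.mem_biUnion ht h4)
  have hsep : ∀ m k : Fin (j + 1), m ≠ k → ∃ l : Fin 3 → K, ∑ i, l i * v (s m) i = 0 ∧ ∑ i, l i * v (s k) i ≠ 0 := by
    intro m k' hmk
    rcases lt_or_gt_of_ne hmk with h | h
    · -- `m < k'`
      have h1 := hs2 m k' h
      have h2 := hvL _ (hs1 k').1
      obtain ⟨μ, hμ⟩ : ∃ μ : Fin 3 → K, ∑ i, μ i * v (s k') i ≠ 0 := by
        by_contra h3
        push Not at h3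
        apply hv0 _ (hs1 k').1
        ext i
        have := h3 (Pi.single i 1)
        simpa [Pi.single_apply] using this
      refine ⟨fun i => (∑ i, L (s k') i * v (s m) i) * μ i - (∑ i, μ i * v (s m) i) * L (s k') i, ?_, ?_⟩
      · simp only [sub_mul, Finset.sum_sub_distrib, mul_assoc, ← Finset.mul_sum]
        ring
      · simp only [sub_mul, Finset.sum_sub_distrib, mul_assoc, ← Finset.mul_sum]
        rw [h2, mul_zero, sub_zero]
        exact mul_ne_zero h1 hμ
    · exact ⟨L (s m), hvL _ (hs1 m).1, hs2 k' m h⟩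
  have hli := ev_li (fun m : Fin (j + 1) => v (s m)) hsep
  apply hc1 (z k) (hz0 k)
  have hfB : FiniteDimensional K (Dj j ⊓ LinearMap.ker (ct (lf (z k))) : Submodule K (D K)) :=
    Submodule.finiteDimensional_of_le inf_le_left
  refine le_of_li A _ _ hli (fun m => hvA _ (hs1 m).1) (fun m => ⟨ev_mem _ _, ?_⟩) (finrank_line_le j (z k) (hz0 k))
  exact LinearMap.mem_ker.2 (ct_ev _ _ (hs1 m).2)

end Pool.Agent.T2.LC.VL
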