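import Mathlib

/-!
# MP_c7af3c_ag, T2, LEMMA C: definitions (helper13)

`K` is an infinite field of characteristic 0 (not algebraically closed). `D K` is the space of
linear functionals on the polynomials in three variables; `ct p` is the contraction with `p`,
`Dj j` the functionals of degree `j`, `lf l` the linear form with the coefficients `l`.
-/

set_option autoImplicit false

namespace Pool.Agent.T2.LC

open MvPolynomial Module

section defs

variable (K : Type) [Field K]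

/-- linear functionals on the polynomials in three variables -/
abbrev D : Type := Module.Dual K (MvPolynomial (Fin 3) K)

variable {K}

/-- the linear form with the coefficients `l` -/
noncomputable def lf : (Fin 3 → K) →ₗ[K] MvPolynomial (Fin 3) K :=
  ∑ i, (LinearMap.proj i : (Fin 3 → K) →ₗ[K] K).smulRight (X i)

/-- contraction: `ct p θ g = θ (p * g)` -/
noncomputable def ct (p : MvPolynomial (Fin 3) K) : D K →ₗ[K] D K :=
  (LinearMap.mulLeft K p).dualMap

/-- the functionals of degree `j` -/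
def Dj (j : ℕ) : Submodule K (D K) where
  carrier := {θ | ∀ m : Fin 3 →₀ ℕ, m.degree ≠ j → θ (monomial m 1) = 0}
  add_mem' := by
    intro a b ha hb m hm
    simp [ha m hm, hb m hm]
  zero_mem' := by intro m _; simp
  smul_mem' := by
    intro c a ha m hm
    simp [ha m hm]

/-- `p` is injective on `A` -/
def Inj (A : Submodule K (D K)) (p : MvPolynomial (Fin 3) K) : Prop :=
  ∀ θ ∈ A, ct p θ = 0 → θ = 0

/-- `w` is not pure: the map `m ↦ m w` has rank at least 2 -/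
def NP (w : D K) : Prop :=
  ∃ a b : Fin 3 → K, LinearIndependent K ![ct (lf a) w, ct (lf b) w]

/-- the space `S¹ W` -/
noncomputable def up (W : Submodule K (D K)) : Submodule K (D K) :=
  ⨆ m : Fin 3 → K, W.map (ct (lf m))

/-- the space `Sⁱ y` -/
noncomputable def Sp (y : D K) : ℕ → Submodule K (D K)
  | 0 => Submodule.span K {y}
  | i + 1 => up (Sp y i)

/-- the kernel of `l` on `A` is spanned by `y ≠ 0` -/
def Ker1 (A : Submodule K (D K)) (l : Fin 3 → K) (y : D K) : Prop :=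
  y ∈ A ∧ y ≠ 0 ∧ ct (lf l) y = 0 ∧ ∀ θ ∈ A, ct (lf l) θ = 0 → ∃ c : K, θ = c • y

/-- a property holds on a set which is open along lines -/
def LOpen {E : Type} [AddCommGroup E] [Module K E] (P : E → Prop) : Prop :=
  ∀ a b : E, P a → {t : K | ¬ P (a + t • b)}.Finite

end defs

/-! ## statements -/

/-- Module K1 -/
def K1S : Prop := ∀ (K : Type) [Field K] [CharZero K] (j : ℕ), 2 ≤ j →
  ∀ A : Submodule K (D K), A ≤ Dj j → (∀ l : Fin 3 → K, ¬ Inj A (lf l)) →
  ∀ (l : Fin 3 → K) (y : D K), Ker1 A l y →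
    (∀ i, Sp y i ≤ A.map (ct (lf l ^ i))) ∧
    ∑ i ∈ Finset.range (j + 1), finrank K (Sp y i) ≤ finrank K A ∧
    (∀ i ≤ j, 1 ≤ finrank K (Sp y i)) ∧
    (NP y → ∀ i, 1 ≤ i → i + 1 ≤ j → 2 ≤ finrank K (Sp y i))

/-- Module K2 -/
def K2S : Prop := ∀ (K : Type) [Field K] [CharZero K] (j : ℕ), 2 ≤ j →
  ∀ A : Submodule K (D K), A ≤ Dj j →
  (∀ l : Fin 3 → K, 2 ≤ finrank K (A ⊓ LinearMap.ker (ct (lf l)) : Submodule K (D K))) →
  2 * j + 1 ≤ finrank K A

/-- Module VL -/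
def VLS : Prop := ∀ (K : Type) [Field K] [CharZero K] (j : ℕ), 2 ≤ j →
  ∀ A : Submodule K (D K), A ≤ Dj j → (∀ l : Fin 3 → K, ¬ Inj A (lf l)) →
  finrank K A ≤ 2 * j →
  (∃ z : Fin 3 → K, z ≠ 0 ∧ Dj j ⊓ LinearMap.ker (ct (lf z)) ≤ A) ∨
  (finrank K A = 2 * j ∧ ∃ (l : Fin 3 → K) (y : D K), Ker1 A l y ∧ NP y)

/-- Module AB: cases (a) and (b) -/
def ABS : Prop := K1S → K2S → VLS → ∀ (K : Type) [Field K] [CharZero K]
  (U : Submodule K (D K)), U ≤ Dj 6 → finrank K U = 8 →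
  (∀ l : Fin 3 → K, l ≠ 0 → finrank K (U ⊓ LinearMap.ker (ct (lf l)) : Submodule K (D K)) ≤ 4) →
  ∃ l₁ l₂ : Fin 3 → K, Inj U (lf l₁ * lf l₂)

/-- Module C12: cases (c1) and (c2) -/
def C12S : Prop := K1S → K2S → VLS → ∀ (K : Type) [Field K] [CharZero K]
  (U : Submodule K (D K)), U ≤ Dj 6 → finrank K U = 8 →
  (∀ l : Fin 3 → K, l ≠ 0 → finrank K (U ⊓ LinearMap.ker (ct (lf l)) : Submodule K (D K)) ≤ 4) →
  (∀ l₁ l₂ l₃ : Fin 3 → K, ¬ Inj U (lf l₁ * lf l₂ * lf l₃)) →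
  (∃ l₁ l₂ : Fin 3 → K, Inj U (lf l₁ * lf l₂)) →
  ∃ q : MvPolynomial (Fin 3) K, q ≠ 0 ∧ q.IsHomogeneous 2 ∧ ∀ θ ∈ U, ct q θ = 0

end Pool.Agent.T2.LC
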