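import Pool.Agent.Lib.MP_c7af3c_ag.T2.LC.Rank
import Pool.Agent.Lib.MP_c7af3c_ag.T2.LC.Defs2

/-!
# LEMMA C, case (c1) (helper13)
-/

set_option autoImplicit false

namespace Pool.Agent.T2.LC

open MvPolynomial Module

variable {K : Type} [Field K]

/-- `a b U` contains the functionals of the line `z` -/
def T1 (U : Submodule K (D K)) (z a b : Fin 3 → K) : Prop :=
  DZ 4 z ≤ U.map (ct (lf a * lf b))

/-- `a b c` has rank at least 7 -/
def G3 (U : Submodule K (D K)) (a b c : Fin 3 → K) : Prop :=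
  7 ≤ finrank K (U.map (ct (lf a * lf b * lf c)))

theorem T1_comm {U : Submodule K (D K)} {z a b : Fin 3 → K} (h : T1 U z a b) : T1 U z b a := by
  rw [T1, mul_comm (lf b)]; exact h

theorem G3_bac {U : Submodule K (D K)} {a b c : Fin 3 → K} (h : G3 U a b c) : G3 U b a c := by
  rw [G3, mul_comm (lf b)]; exact h

theorem G3_acb {U : Submodule K (D K)} {a b c : Fin 3 → K} (h : G3 U a b c) : G3 U a c b := by
  rw [G3, mul_right_comm]; exact h

theorem J_comm {U : Submodule K (D K)} {a b : Fin 3 → K} (h : Inj U (lf a * lf b)) :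
    Inj U (lf b * lf a) := by rw [mul_comm]; exact h

/-- a one-dimensional kernel has a generator -/
theorem exists_ker1 {A : Submodule K (D K)} [FiniteDimensional K A] {l : Fin 3 → K}
    (h : ¬ Inj A (lf l))
    (h1 : finrank K (A ⊓ LinearMap.ker (ct (lf l)) : Submodule K (D K)) ≤ 1) :
    ∃ y, Ker1 A l y := by
  rw [Inj] at h
  push Not at h
  obtain ⟨y, hy, hly, hy0⟩ := h
  have hfd : FiniteDimensional K (A ⊓ LinearMap.ker (ct (lf l)) : Submodule K (D K)) :=
    Submodule.finiteDimensional_of_le inf_le_left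
  have hmem : y ∈ (A ⊓ LinearMap.ker (ct (lf l)) : Submodule K (D K)) := ⟨hy, hly⟩
  have hle : Submodule.span K {y} ≤ A ⊓ LinearMap.ker (ct (lf l)) := by
    rw [Submodule.span_singleton_le_iff_mem]; exact hmem
  have heq : Submodule.span K {y} = A ⊓ LinearMap.ker (ct (lf l)) := by
    refine Submodule.eq_of_le_of_finrank_le hle ?_
    rw [finrank_span_singleton hy0]; exact h1
  refine ⟨y, hy, hy0, hly, fun θ hθ hlθ => ?_⟩
  have : θ ∈ Submodule.span K {y} := by rw [heq]; exact ⟨hθ, hlθ⟩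
  obtain ⟨c, hc⟩ := Submodule.mem_span_singleton.mp this
  exact ⟨c, hc.symm⟩

section

variable {U : Submodule K (D K)} [FiniteDimensional K U]

theorem map2_le (hU : U ≤ Dj 6) (a b : Fin 3 → K) : U.map (ct (lf a * lf b)) ≤ Dj 4 :=
  map_ct_le (i := 2) ((lf_hom a).mul (lf_hom b)) hU

theorem rank2 (h8 : finrank K U = 8) {p : MvPolynomial (Fin 3) K} (h : Inj U p) :
    finrank K (U.map (ct p)) = 8 := by
  have h1 := inj_iff_rank.mp h
  have h2 := rank_le U p
  omega

theorem rank3 (h8 : finrank K U = 8) {p : MvPolynomial (Fin 3) K} (h : ¬ Inj U p) :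
    finrank K (U.map (ct p)) ≤ 7 := by
  rw [inj_iff_rank] at h
  omega

theorem exists_G3 (k2 : K2S) [CharZero K] (hU : U ≤ Dj 6) (h8 : finrank K U = 8)
    {a b : Fin 3 → K} (h : Inj U (lf a * lf b)) : ∃ c, G3 U a b c := by
  by_contra hc
  push Not at hc
  have hr := rank2 h8 h
  have h1 := k2 K 4 (by norm_num) (U.map (ct (lf a * lf b))) (map2_le hU a b) fun l => by
    have h2 := finrank_map_ker (U.map (ct (lf a * lf b))) (ct (lf l))
    have h3 := hc l
    rw [G3, map_mul] at h3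
    omega
  omega

theorem T1_li {z a b c : Fin 3 → K} (h8 : finrank K U = 8) (hz : z ≠ 0) (hT : T1 U z a b)
    (hG : G3 U a b c) : LinearIndependent K ![z, c] := by
  by_contra h
  obtain ⟨κ, rfl⟩ := li_not hz h
  have h1 := rank_le U (lf a * lf b)
  have h2 := finrank_map_ker (U.map (ct (lf a * lf b))) (ct (lf (κ • z)))
  rw [G3, map_mul] at hG
  have h3 : finrank K (DZ 4 z) ≤
      finrank K (U.map (ct (lf a * lf b)) ⊓ LinearMap.ker (ct (lf (κ • z))) :
        Submodule K (D K)) := by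
    have : FiniteDimensional K (U.map (ct (lf a * lf b)) ⊓ LinearMap.ker (ct (lf (κ • z))) :
        Submodule K (D K)) := Submodule.finiteDimensional_of_le inf_le_left
    refine Submodule.finrank_mono (le_inf hT fun θ hθ => ?_)
    show ct (lf (κ • z)) θ = 0
    rw [map_smul, ct_smul, hθ.2, smul_zero]
  rw [finrank_DZ 4 hz] at h3
  omega

theorem T1_uniq (h8 : finrank K U = 8) {z z' a b : Fin 3 → K} (h : T1 U z a b)
    (h' : T1 U z' a b) : ¬ LinearIndependent K ![z, z'] := by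
  intro hli
  have h1 := finrank_DZ_sup (j := 4) hli
  have h2 : finrank K (DZ 4 z ⊔ DZ 4 z' : Submodule K (D K)) ≤
      finrank K (U.map (ct (lf a * lf b))) := Submodule.finrank_mono (sup_le h h')
  have h3 := rank_le U (lf a * lf b)
  omega

theorem T1_DZ3 {z a b c : Fin 3 → K} (h8 : finrank K U = 8) (hz : z ≠ 0) (hT : T1 U z a b)
    (hG : G3 U a b c) : DZ 3 z ≤ U.map (ct (lf a * lf b * lf c)) := by
  rw [map_mul, ← DZ_map (T1_li h8 hz hT hG)]
  exact Submodule.map_mono hT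

theorem T1_E {z z' a b c : Fin 3 → K} (h8 : finrank K U = 8)
    (h3 : ¬ Inj U (lf a * lf b * lf c)) (hT : T1 U z a b) (hT' : T1 U z' a c)
    (hG : G3 U a b c) (hli : LinearIndependent K ![z, z']) :
    ((U.map (ct (lf a * lf b))).map (ct (lf z))).map (ct (lf c)) = DZ 2 z' := by
  have hz : z ≠ 0 := li_ne hli
  have hz' : z' ≠ 0 := li_ne (li_swap hli)
  have e1 := T1_DZ3 h8 hz hT hG
  have e2 := T1_DZ3 h8 hz' hT' (G3_acb hG)
  rw [mul_right_comm] at e2
  have e3 : DZ 3 z ⊔ DZ 3 z' = U.map (ct (lf a * lf b * lf c)) := by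
    refine Submodule.eq_of_le_of_finrank_le (sup_le e1 e2) ?_
    have h1 := finrank_DZ_sup (j := 3) hli
    have h2 := rank3 h8 h3
    omega
  rw [map_comm, ← map_mul U (lf a * lf b) (lf c), ← e3, Submodule.map_sup,
    DZ_map (li_swap hli)]
  have e4 : (DZ 3 z).map (ct (lf z)) = ⊥ := by
    rw [eq_bot_iff]
    rintro _ ⟨θ, hθ, rfl⟩
    exact hθ.2
  rw [e4, bot_sup_eq]

/-- two general lines at `a` give the same `z` -/
theorem T1_pair {z z' z'' a b c c' : Fin 3 → K} (h8 : finrank K U = 8)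
    (h3 : ∀ l₁ l₂ l₃ : Fin 3 → K, ¬ Inj U (lf l₁ * lf l₂ * lf l₃))
    (hT : T1 U z a b) (hT' : T1 U z' a c) (hT'' : T1 U z'' a c')
    (hG : G3 U a b c) (hG' : G3 U a b c') (hli : LinearIndependent K ![z, z'])
    (hli' : LinearIndependent K ![z, z'']) (h1 : LinearIndependent K ![z', c'])
    (h2 : LinearIndependent K ![z'', c]) : ¬ LinearIndependent K ![z', z''] := by
  intro hc
  have e1 := T1_E h8 (h3 a b c) hT hT' hG hli
  have e2 := T1_E h8 (h3 a b c') hT hT'' hG' hli'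
  have e3 : DZ 1 z' = DZ 1 z'' := by
    rw [← DZ_map h1, ← DZ_map h2]
    show (DZ 2 z').map _ = (DZ 2 z'').map _
    rw [← e1, ← e2, map_comm]
  have e4 := finrank_DZ_sup (j := 1) hc
  rw [e3, sup_idem, finrank_DZ 1 (li_ne (li_swap hli'))] at e4
  omega

theorem T1_smul {z z' a b : Fin 3 → K} (hz : z ≠ 0) (hz' : z' ≠ 0)
    (h : ¬ LinearIndependent K ![z, z']) (hT : T1 U z' a b) : T1 U z a b := by
  obtain ⟨κ, rfl⟩ := li_not hz h
  have hκ : κ ≠ 0 := by rintro rfl; exact hz' (zero_smul K z)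
  have h1 : DZ 4 z ≤ DZ 4 (κ • z) := by
    rintro θ ⟨hθ, hθ'⟩
    refine ⟨hθ, ?_⟩
    show ct (lf (κ • z)) θ = 0
    have : ct (lf z) θ = 0 := hθ'
    rw [map_smul, ct_smul, this, smul_zero]
  exact le_trans h1 hT

theorem T1_N {z a b : Fin 3 → K} (h8 : finrank K U = 8) (hJ : Inj U (lf a * lf b))
    (h : ¬ T1 U z a b) :
    9 ≤ finrank K (DZ 4 z ⊔ U.map (ct (lf a * lf b)) : Submodule K (D K)) := by
  have h1 : U.map (ct (lf a * lf b)) < DZ 4 z ⊔ U.map (ct (lf a * lf b)) := by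
    refine lt_of_le_of_ne le_sup_right fun e => h ?_
    rw [T1, e]; exact le_sup_left
  have h2 := Submodule.finrank_lt_finrank_of_lt h1
  have h3 := rank2 h8 hJ
  omega

theorem N_T1 {z a b : Fin 3 → K} (h8 : finrank K U = 8)
    (h : 9 ≤ finrank K (DZ 4 z ⊔ U.map (ct (lf a * lf b)) : Submodule K (D K))) :
    ¬ T1 U z a b := by
  intro hT
  rw [T1, ← sup_eq_right] at hT
  rw [hT] at h
  have h3 := rank_le U (lf a * lf b)
  omega

theorem J_ne {a b : Fin 3 → K} (h8 : finrank K U = 8) (hJ : Inj U (lf a * lf b)) : b ≠ 0 := by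
  rintro rfl
  have h1 := rank2 h8 hJ
  have h2 : U.map (ct (lf a * lf 0)) = ⊥ := by
    rw [eq_bot_iff]
    rintro _ ⟨θ, _, rfl⟩
    rw [map_zero, mul_zero, ct_zero]
    exact Submodule.zero_mem _
  rw [h2, finrank_bot] at h1
  omega

theorem J_rank {p : MvPolynomial (Fin 3) K} (h8 : finrank K U = 8) :
    Inj U p ↔ 8 ≤ finrank K (U.map (ct p)) := by
  rw [inj_iff_rank, h8]

omit [FiniteDimensional K U] in
theorem li_line2 {V : Type} [AddCommGroup V] [Module K V] (z a b : V)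
    (h : LinearIndependent K ![z, a]) :
    {t : K | ¬ LinearIndependent K ![z, a + t • b]}.Finite := by
  have := li_open (K := K) (V := V) (v := ![fun _ => z, fun t => a + t • b]) (t₀ := 0)
    (by
      intro i
      fin_cases i
      · exact PF.const z
      · exact PF.line a b) (by
      convert h using 1
      funext i; fin_cases i
      · rfl
      · simp)
  refine this.subset fun t ht => ?_
  simp only [Set.mem_ofPred_eq] at ht ⊢
  intro h
  apply ht
  convert h using 1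
  funext i; fin_cases i <;> rfl

omit [FiniteDimensional K U] in
theorem lopen_li2 (z : Fin 3 → K) :
    LOpen (K := K) fun c : Fin 3 → K => LinearIndependent K ![z, c] :=
  fun a b h => li_line2 z a b h

theorem exists_N6 {z z₀ a b c₀ : Fin 3 → K} (h8 : finrank K U = 8) (hz₀ : z₀ ≠ 0)
    (hc₀ : c₀ ≠ 0) (hJ : Inj U (lf a * lf b)) (hJ' : Inj U (lf a * lf c₀))
    (hT : T1 U z a b) (hT₀ : T1 U z₀ a c₀) (hli : LinearIndependent K ![z, z₀]) :
    ∃ c, 9 ≤ finrank K (DZ 4 c₀ ⊔ U.map (ct (lf a * lf c)) : Submodule K (D K)) := by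
  by_cases h1 : T1 U c₀ a b
  · refine ⟨c₀, T1_N h8 hJ' fun h2 => ?_⟩
    have u1 := T1_uniq h8 h1 hT
    have u2 := T1_uniq h8 h2 hT₀
    obtain ⟨κ, hκ⟩ := li_not hc₀ u1
    obtain ⟨κ', hκ'⟩ := li_not hc₀ u2
    rw [LinearIndependent.pair_iff] at hli
    have := hli κ' (-κ) (by rw [hκ, hκ', smul_smul, smul_smul, neg_mul, neg_smul, mul_comm,
      add_neg_cancel])
    apply hz₀
    rw [hκ', this.1, zero_smul]
  · exact ⟨b, T1_N h8 hJ h1⟩

end

end Pool.Agent.T2.LC
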