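import Pool.Agent.Lib.MP_c7af3c_ag.T2.LC.C1a

/-!
# LEMMA C, case (c1), second part (helper13)
-/

set_option autoImplicit false

namespace Pool.Agent.T2.LC

open MvPolynomial Module

variable {K : Type} [Field K]

theorem pl_id : PL (K := K) (fun c : Fin 3 → K => lf c) := fun a b => (PF.line a b).map lf

theorem pl_fst : PL (K := K) (fun c : (Fin 3 → K) × (Fin 3 → K) => lf c.1) := fun a b =>
  (PF.line a b).map (lf ∘ₗ LinearMap.fst K _ _)

theorem pl_snd : PL (K := K) (fun c : (Fin 3 → K) × (Fin 3 → K) => lf c.2) := fun a b =>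
  (PF.line a b).map (lf ∘ₗ LinearMap.snd K _ _)

theorem pl_cmul {E : Type} [AddCommGroup E] [Module K E] (p : MvPolynomial (Fin 3) K)
    {P : E → MvPolynomial (Fin 3) K} (hP : PL (K := K) P) :
    PL (K := K) (fun x => p * P x) := fun a b =>
  (PF.const p).bilin (hP a b) (LinearMap.mul K _)

section

variable {U : Submodule K (D K)} [FiniteDimensional K U]

/-- the line `z` is constant along a star -/
theorem T1_star [CharZero K] (h8 : finrank K U = 8)
    (h3 : ∀ l₁ l₂ l₃ : Fin 3 → K, ¬ Inj U (lf l₁ * lf l₂ * lf l₃))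
    (hty : ∀ l₁ l₂ : Fin 3 → K, Inj U (lf l₁ * lf l₂) → ∃ z : Fin 3 → K, z ≠ 0 ∧ T1 U z l₁ l₂)
    {z a b c₀ : Fin 3 → K} (hz : z ≠ 0) (hJ : Inj U (lf a * lf b))
    (hJ' : Inj U (lf a * lf c₀)) (hG : G3 U a b c₀) (hT : T1 U z a b) : T1 U z a c₀ := by
  by_contra hN
  obtain ⟨z₀, hz₀, hT₀⟩ := hty a c₀ hJ'
  have hli : LinearIndependent K ![z, z₀] := by
    by_contra h
    exact hN (T1_smul hz hz₀ h hT₀)
  have hc₀ := J_ne h8 hJ'
  have pa : PL (K := K) fun c : Fin 3 → K => lf a * lf c := pl_cmul (lf a) pl_id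
  have pab : PL (K := K) fun c : Fin 3 → K => lf a * lf b * lf c :=
    pl_cmul (lf a * lf b) pl_id
  have P1 := lopen_rank (A := U) pa 8
  have P2 := lopen_rank (A := U) pab 7
  have P3 := lopen_sup (A := U) (B := DZ 4 z) pa 9
  have P4 := lopen_li2 z₀
  have P5 := lopen_sup (A := U) (B := DZ 4 z₀) pa 9
  have P6 := lopen_sup (A := U) (B := DZ 4 c₀) pa 9
  have e1 : ∃ c, 8 ≤ finrank K (U.map (ct (lf a * lf c))) := ⟨c₀, (J_rank h8).mp hJ'⟩
  have e2 : ∃ c, 7 ≤ finrank K (U.map (ct (lf a * lf b * lf c))) := ⟨c₀, hG⟩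
  have e3 : ∃ c, 9 ≤ finrank K (DZ 4 z ⊔ U.map (ct (lf a * lf c)) : Submodule K (D K)) :=
    ⟨c₀, T1_N h8 hJ' hN⟩
  have e4 : ∃ c, LinearIndependent K ![z₀, c] := exists_second hz₀
  have e5 : ∃ c, 9 ≤ finrank K (DZ 4 z₀ ⊔ U.map (ct (lf a * lf c)) : Submodule K (D K)) :=
    ⟨b, T1_N h8 hJ fun h => T1_uniq h8 hT h hli⟩
  have e6 := exists_N6 h8 hz₀ hc₀ hJ hJ' hT hT₀ hli
  have f2 := P1.exists_and P2 e1 e2
  have f3 := (P1.and P2).exists_and P3 f2 e3
  have f4 := ((P1.and P2).and P3).exists_and P4 f3 e4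
  have f5 := (((P1.and P2).and P3).and P4).exists_and P5 f4 e5
  have f6 := ((((P1.and P2).and P3).and P4).and P5).exists_and P6 f5 e6
  obtain ⟨c, hc⟩ := f6
  have c1 := hc.1.1.1.1.1
  have c2 := hc.1.1.1.1.2
  have c3 := hc.1.1.1.2
  have c4 := hc.1.1.2
  have c5 := hc.1.2
  have c6 := hc.2
  have hJc : Inj U (lf a * lf c) := (J_rank h8).mpr c1
  obtain ⟨zc, hzc, hTc⟩ := hty a c hJc
  have hzzc : LinearIndependent K ![z, zc] := by
    by_contra h
    exact N_T1 h8 c3 (T1_smul hz hzc h hTc)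
  have hzcc : LinearIndependent K ![zc, c₀] := by
    by_contra h
    exact N_T1 h8 c6 (T1_smul hc₀ hzc (fun h' => h (li_swap h')) hTc)
  have := T1_pair h8 h3 hT hT₀ hTc hG c2 hli hzzc c4 hzcc
  exact N_T1 h8 c5 (T1_smul hz₀ hzc this hTc)

/-- the line `z` is constant -/
theorem T1_global [CharZero K] (h8 : finrank K U = 8)
    (h3 : ∀ l₁ l₂ l₃ : Fin 3 → K, ¬ Inj U (lf l₁ * lf l₂ * lf l₃))
    (hty : ∀ l₁ l₂ : Fin 3 → K, Inj U (lf l₁ * lf l₂) → ∃ z : Fin 3 → K, z ≠ 0 ∧ T1 U z l₁ l₂)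
    {z a b c₀ : Fin 3 → K} (hz : z ≠ 0) (hJ : Inj U (lf a * lf b)) (hG : G3 U a b c₀)
    (hT : T1 U z a b) : ∀ x y : Fin 3 → K, Inj U (lf x * lf y) → T1 U z x y := by
  intro x₀ y₀ hJ₀
  by_contra hN
  have pxy : PL (K := K) fun p : (Fin 3 → K) × (Fin 3 → K) => lf p.1 * lf p.2 :=
    pl_fst.mul pl_snd
  have pax : PL (K := K) fun p : (Fin 3 → K) × (Fin 3 → K) => lf a * lf p.1 :=
    pl_cmul (lf a) pl_fst
  have pabx : PL (K := K) fun p : (Fin 3 → K) × (Fin 3 → K) => lf a * lf b * lf p.1 :=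
    pl_cmul (lf a * lf b) pl_fst
  have paxy : PL (K := K) fun p : (Fin 3 → K) × (Fin 3 → K) => lf a * lf p.1 * lf p.2 :=
    (pl_cmul (lf a) pl_fst).mul pl_snd
  have Q1 := lopen_sup (A := U) (B := DZ 4 z) pxy 9
  have Q2 := lopen_rank (A := U) pxy 8
  have Q3 := lopen_rank (A := U) pax 8
  have Q4 := lopen_rank (A := U) pabx 7
  have Q5 := lopen_rank (A := U) paxy 7
  obtain ⟨⟨x, y⟩, ⟨⟨⟨q1, q2⟩, q3⟩, q4⟩, q5⟩ :=
    (((Q1.and Q2).and Q3).and Q4).exists_and Q5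
      (((Q1.and Q2).and Q3).exists_and Q4
        ((Q1.and Q2).exists_and Q3
          (Q1.exists_and Q2 ⟨(x₀, y₀), T1_N h8 hJ₀ hN⟩ ⟨(x₀, y₀), (J_rank h8).mp hJ₀⟩)
          ⟨(b, 0), (J_rank h8).mp hJ⟩) ⟨(c₀, 0), hG⟩) ⟨(b, c₀), hG⟩
  have s1 : T1 U z a x := T1_star h8 h3 hty hz hJ ((J_rank h8).mpr q3) q4 hT
  have s2 : T1 U z x y := T1_star h8 h3 hty hz (J_comm ((J_rank h8).mpr q3))
    ((J_rank h8).mpr q2) (G3_bac q5) (T1_comm s1)
  exact N_T1 h8 q1 s2

end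

/-- Part C1 -/
theorem c1s : C1S := by
  intro k1 k2 K _ _ U hU h8 h4 h3 ⟨a, b, hJ⟩ hty
  have : FiniteDimensional K U := fd_of_le hU
  have hty' : ∀ l₁ l₂ : Fin 3 → K, Inj U (lf l₁ * lf l₂) →
      ∃ z : Fin 3 → K, z ≠ 0 ∧ T1 U z l₁ l₂ := hty
  obtain ⟨z, hz, hT⟩ := hty' a b hJ
  obtain ⟨c₀, hG⟩ := exists_G3 k2 hU h8 hJ
  have hall := T1_global h8 h3 hty' hz hJ hG hT
  -- rank at most 3 on `z U`
  have hr3 : ∀ x y : Fin 3 → K,
      finrank K ((U.map (ct (lf z))).map (ct (lf x * lf y))) ≤ 3 := by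
    by_contra hc
    push Not at hc
    obtain ⟨x₀, y₀, h0⟩ := hc
    have pxy : PL (K := K) fun p : (Fin 3 → K) × (Fin 3 → K) => lf p.1 * lf p.2 :=
      pl_fst.mul pl_snd
    have Q1 := lopen_rank (A := U.map (ct (lf z))) pxy 4
    have Q2 := lopen_rank (A := U) pxy 8
    obtain ⟨⟨x, y⟩, q1, q2⟩ := Q1.exists_and Q2 ⟨(x₀, y₀), h0⟩ ⟨(a, b), (J_rank h8).mp hJ⟩
    have hT' := hall x y ((J_rank h8).mpr q2)
    have h1 := finrank_map_ker (U.map (ct (lf x * lf y))) (ct (lf z))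
    have h2 : finrank K (DZ 4 z) ≤
        finrank K (U.map (ct (lf x * lf y)) ⊓ LinearMap.ker (ct (lf z)) :
          Submodule K (D K)) := by
      have : FiniteDimensional K (U.map (ct (lf x * lf y)) ⊓ LinearMap.ker (ct (lf z)) :
          Submodule K (D K)) := Submodule.finiteDimensional_of_le inf_le_left
      exact Submodule.finrank_mono (le_inf hT' inf_le_right)
    rw [finrank_DZ 4 hz] at h2
    have h5 := rank_le U (lf x * lf y)
    have q1' : 4 ≤ finrank K ((U.map (ct (lf z))).map (ct (lf x * lf y))) := q1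
    rw [map_comm] at q1'
    omega
  set E := U.map (ct (lf z)) with hE
  have hE5 : E ≤ Dj 5 := map_lf_le z hU
  have hfd : FiniteDimensional K E := fd_of_le hE5
  have hE4 : 4 ≤ finrank K E := by
    have h1 : finrank K E + finrank K (U ⊓ LinearMap.ker (ct (lf z)) : Submodule K (D K)) =
      finrank K U := finrank_map_ker U (ct (lf z))
    have h2 := h4 z hz
    omega
  have hE8 : finrank K E ≤ 8 := by rw [← h8]; exact rank_le U (lf z)
  have hr : ∀ x y : Fin 3 → K, finrank K ((E.map (ct (lf x))).map (ct (lf y))) ≤ 3 := by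
    intro x y
    rw [← map_mul]; exact hr3 x y
  by_cases hinj : ∃ x : Fin 3 → K, Inj E (lf x)
  · obtain ⟨x, hx⟩ := hinj
    have hrx := inj_iff_rank.mp hx
    have hA4 : E.map (ct (lf x)) ≤ Dj 4 := map_lf_le x hE5
    have hAle := rank_le E (lf x)
    have hni : ∀ l : Fin 3 → K, ¬ Inj (E.map (ct (lf x))) (lf l) := by
      intro l hl
      have := inj_iff_rank.mp hl
      have := hr x l
      omega
    have h2 : ¬ ∀ l : Fin 3 → K, 2 ≤ finrank K
        (E.map (ct (lf x)) ⊓ LinearMap.ker (ct (lf l)) : Submodule K (D K)) := by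
      intro h
      have := k2 K 4 (by norm_num) _ hA4 h
      omega
    push Not at h2
    obtain ⟨l, hl⟩ := h2
    have h5 := finrank_map_ker (E.map (ct (lf x))) (ct (lf l))
    have h6 := hr x l
    obtain ⟨y, hy⟩ := exists_ker1 (hni l) (by omega)
    have := (k1 K 4 (by norm_num) _ hA4 hni l y hy).2
    have h7 := this.1
    have h8' : (5 : ℕ) ≤ ∑ i ∈ Finset.range (4 + 1), finrank K (Sp y i) := by
      calc (5 : ℕ) = ∑ i ∈ Finset.range (4 + 1), 1 := by simp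
        _ ≤ _ := Finset.sum_le_sum fun i hi => this.2.1 i (by
          have := Finset.mem_range.mp hi; omega)
    omega
  · push Not at hinj
    have h2 : ¬ ∀ l : Fin 3 → K, 2 ≤ finrank K
        (E ⊓ LinearMap.ker (ct (lf l)) : Submodule K (D K)) := by
      intro h
      have := k2 K 5 (by norm_num) _ hE5 h
      omega
    push Not at h2
    obtain ⟨x, hx⟩ := h2
    have h5 := finrank_map_ker E (ct (lf x))
    obtain ⟨y, hy⟩ := exists_ker1 (hinj x) (by omega)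
    have := (k1 K 5 (by norm_num) _ hE5 hinj x y hy).2
    have h7 := this.1
    have h8' : (6 : ℕ) ≤ ∑ i ∈ Finset.range (5 + 1), finrank K (Sp y i) := by
      calc (6 : ℕ) = ∑ i ∈ Finset.range (5 + 1), 1 := by simp
        _ ≤ _ := Finset.sum_le_sum fun i hi => this.2.1 i (by
          have := Finset.mem_range.mp hi; omega)
    have hA4 : E.map (ct (lf x)) ≤ Dj 4 := map_lf_le x hE5
    have := k2 K 4 (by norm_num) _ hA4 fun l => by
      have h9 := finrank_map_ker (E.map (ct (lf x))) (ct (lf l))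
      have h10 := hr x l
      omega
    omega

end Pool.Agent.T2.LC
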