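import Pool.Agent.Lib.MP_c7af3c_ag.T2.LC.Gen

/-!
# LEMMA C: functionals on a line (helper13)
-/

set_option autoImplicit false

namespace Pool.Agent.T2.LC

open MvPolynomial Module

variable {K : Type} [Field K]

/-- functionals of degree `j` on the line `z` -/
noncomputable def DZ (j : ℕ) (z : Fin 3 → K) : Submodule K (D K) :=
  Dj j ⊓ LinearMap.ker (ct (lf z))

theorem DZ_le (j : ℕ) (z : Fin 3 → K) : DZ j z ≤ Dj j := inf_le_left

theorem mem_DZ {j : ℕ} {z : Fin 3 → K} {θ : D K} :
    θ ∈ DZ j z ↔ θ ∈ Dj j ∧ ct (lf z) θ = 0 := Iff.rfl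

instance (j : ℕ) (z : Fin 3 → K) : FiniteDimensional K (DZ j z) := fd_of_le (DZ_le j z)

section li

variable {V : Type} [AddCommGroup V] [Module K V]

theorem li_perm3 {a b c : V} (h : LinearIndependent K ![a, b, c]) (σ : Equiv.Perm (Fin 3)) :
    LinearIndependent K (![a, b, c] ∘ σ) := h.comp σ σ.injective

theorem li_bca {a b c : V} (h : LinearIndependent K ![a, b, c]) :
    LinearIndependent K ![b, c, a] := by
  have := h.comp ![1, 2, 0] (by decide)
  convert this using 1
  funext i; fin_cases i <;> rfl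

theorem li_cab {a b c : V} (h : LinearIndependent K ![a, b, c]) :
    LinearIndependent K ![c, a, b] := li_bca (li_bca h)

theorem li_bac {a b c : V} (h : LinearIndependent K ![a, b, c]) :
    LinearIndependent K ![b, a, c] := by
  have := h.comp ![1, 0, 2] (by decide)
  convert this using 1
  funext i; fin_cases i <;> rfl

theorem li_acb {a b c : V} (h : LinearIndependent K ![a, b, c]) :
    LinearIndependent K ![a, c, b] := li_bca (li_bac h)

theorem li_cba {a b c : V} (h : LinearIndependent K ![a, b, c]) :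
    LinearIndependent K ![c, b, a] := li_bac (li_bca h)

theorem li_ab {a b c : V} (h : LinearIndependent K ![a, b, c]) :
    LinearIndependent K ![a, b] := by
  have := h.comp ![0, 1] (by decide)
  convert this using 1
  funext i; fin_cases i <;> rfl

theorem li_swap {a b : V} (h : LinearIndependent K ![a, b]) : LinearIndependent K ![b, a] := by
  have := h.comp ![1, 0] (by decide)
  convert this using 1
  funext i; fin_cases i <;> rfl

theorem li_ne {a b : V} (h : LinearIndependent K ![a, b]) : a ≠ 0 := h.ne_zero 0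

theorem li_not {a b : V} (ha : a ≠ 0) (h : ¬ LinearIndependent K ![a, b]) :
    ∃ c : K, b = c • a := by
  rw [LinearIndependent.pair_iff] at h
  push Not at h
  obtain ⟨s, t, h1, h2⟩ := h
  have ht : t ≠ 0 := by
    rintro rfl
    rw [zero_smul, add_zero, smul_eq_zero] at h1
    exact h2 (h1.resolve_right ha) rfl
  refine ⟨-(t⁻¹ * s), ?_⟩
  have h3 : t • b = -(s • a) := by rw [eq_neg_iff_add_eq_zero, add_comm]; exact h1
  rw [← one_smul K b, ← inv_mul_cancel₀ ht, mul_smul, h3, smul_neg, smul_smul, neg_smul]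

end li

theorem exists_third {z l : Fin 3 → K} (h : LinearIndependent K ![z, l]) :
    ∃ m, LinearIndependent K ![z, l, m] := by
  obtain ⟨m, hm⟩ := exists_linearIndependent_cons_of_lt_finrank (v := ![z, l]) h (by simp)
  refine ⟨m, li_bca ?_⟩
  exact hm

theorem exists_second {z : Fin 3 → K} (h : z ≠ 0) : ∃ l, LinearIndependent K ![z, l] := by
  have h1 : LinearIndependent K ![z] := by
    rw [linearIndependent_unique_iff]
    simpa using h
  obtain ⟨m, hm⟩ := exists_linearIndependent_cons_of_lt_finrank (v := ![z]) h1 (by simp)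
  exact ⟨m, li_swap hm⟩

theorem DZ_inj {z a b : Fin 3 → K} (h : LinearIndependent K ![z, a, b]) :
    ∀ {j : ℕ} {θ : D K}, θ ∈ DZ j z →
      (∀ i ≤ j, θ (lf a ^ i * lf b ^ (j - i)) = 0) → θ = 0 := by
  intro j
  induction j with
  | zero =>
    intro θ hθ h0
    have h1 := h0 0 le_rfl
    rw [pow_zero, Nat.sub_zero, pow_zero, mul_one] at h1
    refine MvPolynomial.linearMap_ext fun m => LinearMap.ext_ring ?_
    simp only [LinearMap.comp_apply, LinearMap.zero_apply]
    by_cases hm : m = 0
    · subst hm; simpa using h1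
    · refine hθ.1 m ?_
      rw [Ne, Finsupp.degree_eq_zero_iff]
      exact hm
  | succ j ih =>
    intro θ hθ h0
    have hmem : ∀ l : Fin 3 → K, ct (lf l) θ ∈ DZ j z := fun l =>
      ⟨ct_lf_mem l hθ.1, by
        show ct (lf z) (ct (lf l) θ) = 0
        rw [ct_comm, hθ.2, map_zero]⟩
    refine eq_zero_of_indep hθ.1 h hθ.2 ?_ ?_
    · refine ih (hmem a) fun i hi => ?_
      rw [ct_apply, ← mul_assoc, ← pow_succ']
      have := h0 (i + 1) (by omega)
      rwa [Nat.add_sub_add_right] at this
    · refine ih (hmem b) fun i hi => ?_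
      rw [ct_apply]
      have := h0 i (by omega)
      have e : lf b * (lf a ^ i * lf b ^ (j - i)) = lf a ^ i * lf b ^ (j + 1 - i) := by
        rw [show j + 1 - i = j - i + 1 by omega, pow_succ]; ring
      rw [e]; exact this

theorem finrank_DZ_le {j : ℕ} {z : Fin 3 → K} (hz : z ≠ 0) : finrank K (DZ j z) ≤ j + 1 := by
  obtain ⟨a, ha⟩ := exists_second hz
  obtain ⟨b, hb⟩ := exists_third ha
  let f : DZ j z →ₗ[K] (Fin (j + 1) → K) :=
    { toFun := fun θ i => (θ : D K) (lf a ^ (i : ℕ) * lf b ^ (j - i))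
      map_add' := fun x y => by funext i; rfl
      map_smul' := fun c x => by funext i; rfl }
  have hf : Function.Injective f := by
    intro x y hxy
    apply Subtype.ext
    rw [← sub_eq_zero]
    refine DZ_inj hb (sub_mem x.2 y.2) fun i hi => ?_
    rw [LinearMap.sub_apply, sub_eq_zero]
    exact congrFun hxy ⟨i, by omega⟩
  have := LinearMap.finrank_le_finrank_of_injective hf
  simpa using this

theorem finrank_DZ_inf {j : ℕ} {z l : Fin 3 → K} (h : LinearIndependent K ![z, l]) :
    finrank K (DZ j z ⊓ LinearMap.ker (ct (lf l)) : Submodule K (D K)) ≤ 1 := by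
  obtain ⟨b, hb⟩ := exists_third h
  let f : (DZ j z ⊓ LinearMap.ker (ct (lf l)) : Submodule K (D K)) →ₗ[K] K :=
    { toFun := fun θ => (θ : D K) (lf b ^ j)
      map_add' := fun x y => rfl
      map_smul' := fun c x => rfl }
  have hf : Function.Injective f := by
    intro x y hxy
    apply Subtype.ext
    rw [← sub_eq_zero]
    have hxy' := sub_mem x.2 y.2
    refine DZ_inj hb hxy'.1 fun i hi => ?_
    rcases Nat.eq_zero_or_pos i with rfl | hi0
    · rw [pow_zero, one_mul, Nat.sub_zero, LinearMap.sub_apply, sub_eq_zero]; exact hxy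
    · obtain ⟨k, rfl⟩ : ∃ k, i = k + 1 := ⟨i - 1, by omega⟩
      rw [pow_succ', mul_assoc, ← ct_apply]
      have h2 : ct (lf l) ((x : D K) - y) = 0 := hxy'.2
      rw [h2]; rfl
  have := LinearMap.finrank_le_finrank_of_injective hf
  simpa using this

/-- restriction to the line -/
noncomputable def rho (φ ψ : (Fin 3 → K) →ₗ[K] K) :
    MvPolynomial (Fin 3) K →ₐ[K] MvPolynomial (Fin 2) K :=
  aeval fun i => φ (Pi.single i 1) • X 0 + ψ (Pi.single i 1) • X 1

theorem rho_lf (φ ψ : (Fin 3 → K) →ₗ[K] K) (l : Fin 3 → K) :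
    rho φ ψ (lf l) = φ l • X 0 + ψ l • X 1 := by
  rw [lf_apply, map_sum]
  have h1 : ∀ χ : (Fin 3 → K) →ₗ[K] K, χ l = ∑ i, l i * χ (Pi.single i 1) := by
    intro χ
    conv_lhs => rw [← Finset.univ_sum_single l, map_sum]
    refine Finset.sum_congr rfl fun i _ => ?_
    rw [← smul_eq_mul, ← map_smul, ← Pi.single_smul, smul_eq_mul, mul_one]
  rw [h1 φ, h1 ψ, Finset.sum_smul, Finset.sum_smul, ← Finset.sum_add_distrib]
  refine Finset.sum_congr rfl fun i _ => ?_
  rw [map_smul, rho, aeval_X, smul_add, smul_smul, smul_smul]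

theorem rho_hom (φ ψ : (Fin 3 → K) →ₗ[K] K) {p : MvPolynomial (Fin 3) K} {n : ℕ}
    (hp : p.IsHomogeneous n) : (rho φ ψ p).IsHomogeneous n := by
  have := hp.aeval (fun i => φ (Pi.single i 1) • X 0 + ψ (Pi.single i 1) • (X 1 : MvPolynomial (Fin 2) K))
    (n := 1) (fun i => by
      refine IsHomogeneous.add ?_ ?_
      · rw [smul_eq_C_mul]
        simpa using (isHomogeneous_C (Fin 2) (φ (Pi.single i 1))).mul (isHomogeneous_X K 0)
      · rw [smul_eq_C_mul]
        simpa using (isHomogeneous_C (Fin 2) (ψ (Pi.single i 1))).mul (isHomogeneous_X K 1))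
  rwa [one_mul] at this

theorem le_finrank_DZ {j : ℕ} {z : Fin 3 → K} (hz : z ≠ 0) : j + 1 ≤ finrank K (DZ j z) := by
  obtain ⟨a, ha⟩ := exists_second hz
  obtain ⟨b, hb⟩ := exists_third ha
  obtain ⟨Φ, hΦ⟩ := exists_dual hb
  let φ : (Fin 3 → K) →ₗ[K] K := LinearMap.proj 1 ∘ₗ Φ
  let ψ : (Fin 3 → K) →ₗ[K] K := LinearMap.proj 2 ∘ₗ Φ
  have hz1 : φ z = 0 := by
    have := congrFun (hΦ 0) 1; simpa [φ] using this
  have hz2 : ψ z = 0 := by
    have := congrFun (hΦ 0) 2; simpa [ψ] using this
  have ha1 : φ a = 1 := by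
    have := congrFun (hΦ 1) 1; simpa [φ] using this
  have ha2 : ψ a = 0 := by
    have := congrFun (hΦ 1) 2; simpa [ψ] using this
  have hb1 : φ b = 0 := by
    have := congrFun (hΦ 2) 1; simpa [φ] using this
  have hb2 : ψ b = 1 := by
    have := congrFun (hΦ 2) 2; simpa [ψ] using this
  let e : Fin (j + 1) → (Fin 2 →₀ ℕ) := fun i => Finsupp.single 0 (i : ℕ) + Finsupp.single 1 (j - i)
  let θ : Fin (j + 1) → D K := fun i => (lcoeff K (e i)) ∘ₗ (rho φ ψ).toLinearMap
  have hθ : ∀ i, θ i ∈ DZ j z := by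
    intro i
    refine ⟨fun m hm => ?_, ?_⟩
    · show coeff (e i) (rho φ ψ (monomial m 1)) = 0
      refine (rho_hom φ ψ (isHomogeneous_monomial (R := K) 1 rfl)).coeff_eq_zero ?_
      intro h
      apply hm
      rw [← h]
      simp only [e, map_add, Finsupp.degree_single]
      omega
    · refine LinearMap.ext fun g => ?_
      rw [ct_apply]
      show coeff (e i) (rho φ ψ (lf z * g)) = 0
      rw [map_mul, rho_lf, hz1, hz2, zero_smul, zero_smul, add_zero, zero_mul, coeff_zero]
  have hval : ∀ i k : Fin (j + 1), θ i (lf a ^ (k : ℕ) * lf b ^ (j - k)) = if i = k then 1 else 0 := by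
    intro i k
    show coeff (e i) (rho φ ψ (lf a ^ (k : ℕ) * lf b ^ (j - k))) = _
    rw [map_mul, map_pow, map_pow, rho_lf, rho_lf, ha1, ha2, hb1, hb2, one_smul, zero_smul,
      add_zero, zero_smul, zero_add, one_smul, X_pow_eq_monomial, X_pow_eq_monomial,
      monomial_mul, coeff_monomial, one_mul]
    congr 1
    rw [eq_iff_iff]
    constructor
    · intro h
      have := DFunLike.congr_fun h 0
      simp [e] at this
      exact Fin.ext this.symm
    · rintro rfl; rfl
  have hli : LinearIndependent K θ := by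
    rw [Fintype.linearIndependent_iff]
    intro g hg k
    have := congrArg (fun χ : D K => χ (lf a ^ (k : ℕ) * lf b ^ (j - k))) hg
    simpa [hval] using this
  have hle : Submodule.span K (Set.range θ) ≤ DZ j z := by
    rw [Submodule.span_le]; rintro _ ⟨i, rfl⟩; exact hθ i
  have h1 := finrank_span_eq_card hli
  rw [Fintype.card_fin] at h1
  rw [← h1]
  exact Submodule.finrank_mono hle

theorem finrank_DZ (j : ℕ) {z : Fin 3 → K} (hz : z ≠ 0) : finrank K (DZ j z) = j + 1 :=
  le_antisymm (finrank_DZ_le hz) (le_finrank_DZ hz)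

/-- `l` maps the functionals on the line `z` onto the functionals on the line `z` -/
theorem DZ_map {j : ℕ} {z l : Fin 3 → K} (h : LinearIndependent K ![z, l]) :
    (DZ (j + 1) z).map (ct (lf l)) = DZ j z := by
  refine Submodule.eq_of_le_of_finrank_le ?_ ?_
  · rintro _ ⟨θ, hθ, rfl⟩
    refine ⟨ct_lf_mem l hθ.1, ?_⟩
    show ct (lf z) (ct (lf l) θ) = 0
    rw [ct_comm, hθ.2, map_zero]
  · have h1 := finrank_map_ker (DZ (j + 1) z) (ct (lf l))
    have h2 := finrank_DZ_inf (j := j + 1) h
    rw [finrank_DZ _ (li_ne h)] at h1 ⊢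
    omega

theorem finrank_DZ_sup {j : ℕ} {z l : Fin 3 → K} (h : LinearIndependent K ![z, l]) :
    2 * j + 1 ≤ finrank K (DZ j z ⊔ DZ j l : Submodule K (D K)) := by
  have h1 := Submodule.finrank_sup_add_finrank_inf_eq (DZ j z) (DZ j l)
  rw [finrank_DZ _ (li_ne h), finrank_DZ _ (li_ne (li_swap h))] at h1
  have h2 := finrank_DZ_inf (j := j) h
  have h3 : finrank K (DZ j z ⊓ DZ j l : Submodule K (D K)) ≤
      finrank K (DZ j z ⊓ LinearMap.ker (ct (lf l)) : Submodule K (D K)) := by
    have : FiniteDimensional K (DZ j z ⊓ LinearMap.ker (ct (lf l)) : Submodule K (D K)) :=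
      fd_of_le (inf_le_left.trans (DZ_le j z))
    exact Submodule.finrank_mono (inf_le_inf_left _ inf_le_right)
  omega

end Pool.Agent.T2.LC
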